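import Mathlib
import Pool.Agent.W245.EB.Sub

set_option autoImplicit false
set_option linter.unusedVariables false
set_option linter.unusedSectionVars false
set_option linter.unusedSimpArgs false

/-!
# Generic combinations over an arbitrary field of characteristic zero

Let `κ ⊂ K` be fields of characteristic `0`. If `t` is a finite `κ`-linearly independent family of
`n` elements of `K` and `w` is a `κ`-linearly independent family of at least `n (D + 1)` elements, then
the elements `t_l x^i`, `x = ∑ w_j X_j`, `i ≤ D`, of `K[X]` are linearly independent over `κ[X]`: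
in a relation with coefficients `c_s` one finds a derivation of `κ(X)` which kills all quotients
`c_s / c_{s_0}`, but not `x`.
-/

open Module MvPolynomial

noncomputable section

namespace Pool.Agent.W245.BR

variable {κ K : Type*} [Field κ] [CharZero κ] [Field K] [Algebra κ K]

/-- more unknowns than equations, over a domain -/
lemma exists_kernel {P J S : Type*} [CommRing P] [IsDomain P] [Fintype J] [DecidableEq J] [Fintype S]
    (hc : Fintype.card S < Fintype.card J) (M : S → J → P) :
    ∃ v : J → P, v ≠ 0 ∧ ∀ s, ∑ j, M s j * v j = 0 := by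
  classical
  obtain ⟨f⟩ : Nonempty (S ↪ J) := by
    rw [Function.Embedding.nonempty_iff_card_le]
    exact hc.le
  obtain ⟨j0, hj0⟩ : ∃ j0, ∀ s, f s ≠ j0 := by
    by_contra h
    push Not at h
    have h1 : Function.Surjective f := fun j => h j
    have := Fintype.card_le_of_surjective f h1
    omega
  set A : Matrix J J P := Matrix.of fun j' j => if h : ∃ s, f s = j' then M h.choose j else 0 with hA
  have hdet : A.det = 0 := by
    apply Matrix.det_eq_zero_of_row_eq_zero j0
    intro j
    have : ¬ ∃ s, f s = j0 := fun ⟨s, hs⟩ => hj0 s hs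
    simp [hA, this]
  obtain ⟨v, hv0, hv⟩ := Matrix.exists_mulVec_eq_zero_iff.2 hdet
  refine ⟨v, hv0, fun s => ?_⟩
  have h1 := congrFun hv (f s)
  have h2 : ∃ s', f s' = f s := ⟨s, rfl⟩
  have h3 : h2.choose = s := f.injective h2.choose_spec
  simp only [Matrix.mulVec, dotProduct, hA, Matrix.of_apply, Pi.zero_apply] at h1
  rw [← h1]
  apply Finset.sum_congr rfl
  intro j _
  rw [dif_pos h2, h3]

/-- a root of a polynomial with semi-constant coefficients is a constant -/
lemma deriv_root {B : Type*} [CommRing B] [IsDomain B] [CharZero B] (δ : Derivation ℤ B B) (c0 x : B)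
    (hc0 : c0 ≠ 0) (hx : δ x ≠ 0) (F : Polynomial B)
    (hF : ∀ i, c0 * δ (F.coeff i) = δ c0 * F.coeff i) (h0 : F.eval x = 0) : F = 0 := by
  by_contra hne
  have hstep : ∀ G : Polynomial B, (∀ i, c0 * δ (G.coeff i) = δ c0 * G.coeff i) → G.eval x = 0 →
      G.derivative.eval x = 0 := by
    intro G hG hG0
    have h1 : δ (G.eval x) = (∑ i ∈ G.support, δ (G.coeff i) * x ^ i) + G.derivative.eval x * δ x := by
      rw [Polynomial.eval_eq_sum, Polynomial.sum_def, map_sum, Polynomial.derivative_eval,
        Polynomial.sum_def, Finset.sum_mul, ← Finset.sum_add_distrib]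
      apply Finset.sum_congr rfl
      intro i _
      rw [Derivation.leibniz, Derivation.leibniz_pow]
      simp only [smul_eq_mul, nsmul_eq_mul]
      ring
    rw [hG0, map_zero] at h1
    have h2 : c0 * (∑ i ∈ G.support, δ (G.coeff i) * x ^ i) = 0 := by
      rw [Finset.mul_sum]
      have : ∀ i ∈ G.support, c0 * (δ (G.coeff i) * x ^ i) = δ c0 * (G.coeff i * x ^ i) := by
        intro i _
        rw [← mul_assoc, hG i]
        ring
      rw [Finset.sum_congr rfl this, ← Finset.mul_sum]
      have h3 : ∑ i ∈ G.support, G.coeff i * x ^ i = G.eval x := by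
        rw [Polynomial.eval_eq_sum, Polynomial.sum_def]
      rw [h3, hG0, mul_zero]
    have h4 : c0 * (G.derivative.eval x * δ x) = 0 := by
      have : c0 * ((∑ i ∈ G.support, δ (G.coeff i) * x ^ i) + G.derivative.eval x * δ x) = 0 := by
        rw [← h1, mul_zero]
      rw [mul_add, h2, zero_add] at this
      exact this
    have h5 := (mul_eq_zero.1 h4).resolve_left hc0
    exact (mul_eq_zero.1 h5).resolve_right hx
  have hall : ∀ m : ℕ, (∀ i, c0 * δ ((Polynomial.derivative^[m] F).coeff i) =
      δ c0 * (Polynomial.derivative^[m] F).coeff i) ∧ (Polynomial.derivative^[m] F).eval x = 0 := by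
    intro m
    induction m with
    | zero => exact ⟨hF, h0⟩
    | succ m ih =>
      rw [Function.iterate_succ_apply']
      refine ⟨fun i => ?_, hstep _ ih.1 ih.2⟩
      rw [Polynomial.coeff_derivative]
      have h1 := ih.1 (i + 1)
      rw [Derivation.leibniz]
      have h2 : δ ((i : B) + 1) = 0 := by
        have : ((i : B) + 1) = ((i + 1 : ℕ) : B) := by push_cast; ring
        rw [this]
        exact Derivation.map_natCast δ _
      rw [h2]
      simp only [smul_eq_mul, mul_zero, zero_add]
      calc c0 * (((i : B) + 1) * δ ((Polynomial.derivative^[m] F).coeff (i + 1)))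
          = ((i : B) + 1) * (c0 * δ ((Polynomial.derivative^[m] F).coeff (i + 1))) := by ring
        _ = _ := by rw [h1]; ring
  have h1 : F.natDegree < F.rootMultiplicity x := by
    rw [Polynomial.lt_rootMultiplicity_iff_isRoot_iterate_derivative hne]
    intro m _
    exact (hall m).2
  have h2 := Polynomial.natDegree_le_of_dvd (Polynomial.pow_rootMultiplicity_dvd F x) hne
  rw [Polynomial.natDegree_pow, Polynomial.natDegree_X_sub_C, mul_one] at h2
  omega

open Classical in
theorem poly_indep {J ι : Type*} [Fintype J] [Fintype ι] (D : ℕ) (w : J → K)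
    (hw : LinearIndependent κ w) (t : ι → K) (ht : LinearIndependent κ t)
    (hcard : Fintype.card ι * (D + 1) ≤ Fintype.card J)
    (c : ι × Fin (D + 1) → MvPolynomial J κ)
    (hc : ∑ s, MvPolynomial.map (algebraMap κ K) (c s) *
      (MvPolynomial.C (t s.1) * (∑ j, MvPolynomial.C (w j) * MvPolynomial.X j) ^ (s.2 : ℕ)) = 0) :
    c = 0 := by
  by_contra hne
  obtain ⟨s0, hs0⟩ := Function.ne_iff.1 hne
  have hinj : Function.Injective (MvPolynomial.map (σ := J) (algebraMap κ K)) :=
    MvPolynomial.map_injective _ (algebraMap κ K).injective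
  have hK : CharZero K := charZero_of_injective_algebraMap (algebraMap κ K).injective
  -- the derivation
  have hlt : Fintype.card {s : ι × Fin (D + 1) // s ≠ s0} < Fintype.card J := by
    have h1 : Fintype.card {s : ι × Fin (D + 1) // s ≠ s0} < Fintype.card (ι × Fin (D + 1)) :=
      Fintype.card_subtype_lt (x := s0) (by simp)
    rw [Fintype.card_prod, Fintype.card_fin] at h1
    exact lt_of_lt_of_le h1 hcard
  obtain ⟨v, hv0, hv⟩ := exists_kernel hlt
    (fun (s : {s : ι × Fin (D + 1) // s ≠ s0}) (j : J) => c s0 * pderiv j (c s.1) - c s.1 * pderiv j (c s0))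
  have hv' : ∀ s, c s0 * (∑ j, v j * pderiv j (c s)) = c s * (∑ j, v j * pderiv j (c s0)) := by
    intro s
    by_cases h : s = s0
    · rw [h]
    · have h1 := hv ⟨s, h⟩
      simp only at h1
      have h2 : ∑ j, (c s0 * pderiv j (c s) - c s * pderiv j (c s0)) * v j =
          c s0 * (∑ j, v j * pderiv j (c s)) - c s * (∑ j, v j * pderiv j (c s0)) := by
        rw [Finset.mul_sum, Finset.mul_sum, ← Finset.sum_sub_distrib]
        apply Finset.sum_congr rfl
        intro j _
        ring
      rw [h2] at h1
      exact sub_eq_zero.1 h1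
  set δK : Derivation K (MvPolynomial J K) (MvPolynomial J K) :=
    ∑ j, (MvPolynomial.map (algebraMap κ K) (v j)) • pderiv j with hδK
  have hδ_apply : ∀ p, δK p = ∑ j, MvPolynomial.map (algebraMap κ K) (v j) * pderiv j p := by
    intro p
    rw [hδK]
    have : ∀ (s : Finset J), (∑ j ∈ s, (MvPolynomial.map (algebraMap κ K) (v j)) • pderiv j :
        Derivation K (MvPolynomial J K) (MvPolynomial J K)) p =
        ∑ j ∈ s, MvPolynomial.map (algebraMap κ K) (v j) * pderiv j p := by
      intro s
      induction s using Finset.induction_on with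
      | empty => simp
      | insert a s ha ih =>
        rw [Finset.sum_insert ha, Finset.sum_insert ha, Derivation.add_apply, ih,
          Derivation.smul_apply, smul_eq_mul]
    exact this _
  have hδ_map : ∀ p : MvPolynomial J κ, δK (MvPolynomial.map (algebraMap κ K) p) =
      MvPolynomial.map (algebraMap κ K) (∑ j, v j * pderiv j p) := by
    intro p
    rw [hδ_apply, map_sum]
    apply Finset.sum_congr rfl
    intro j _
    rw [map_mul, pderiv_map]
  set x : MvPolynomial J K := ∑ j, MvPolynomial.C (w j) * MvPolynomial.X j with hx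
  have hδx : δK x = ∑ j, MvPolynomial.map (algebraMap κ K) (v j) * MvPolynomial.C (w j) := by
    rw [hδ_apply]
    apply Finset.sum_congr rfl
    intro j _
    congr 1
    rw [hx, map_sum, Finset.sum_eq_single j]
    · rw [pderiv_C_mul, pderiv_X_self, mul_one]
    · intro b _ hb
      rw [pderiv_C_mul, pderiv_X_of_ne hb, mul_zero]
    · intro h
      exact absurd (Finset.mem_univ _) h
  have hδx0 : δK x ≠ 0 := by
    intro h
    apply hv0
    funext j
    ext d
    have h1 := congrArg (MvPolynomial.coeff d) (hδx ▸ h : ∑ j, MvPolynomial.map (algebraMap κ K) (v j) *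
      MvPolynomial.C (w j) = 0)
    rw [MvPolynomial.coeff_sum, MvPolynomial.coeff_zero] at h1
    have h2 : ∑ j, (v j).coeff d • w j = 0 := by
      rw [← h1]
      apply Finset.sum_congr rfl
      intro j _
      rw [mul_comm, MvPolynomial.coeff_C_mul, MvPolynomial.coeff_map, Algebra.smul_def, mul_comm]
    have h3 := Fintype.linearIndependent_iff.1 hw _ h2 j
    rw [h3]
    rfl
  -- the coefficients
  set u : ℕ → MvPolynomial J K := fun i => if h : i < D + 1 then
    ∑ l, MvPolynomial.map (algebraMap κ K) (c (l, ⟨i, h⟩)) * MvPolynomial.C (t l) else 0 with hu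
  set F : Polynomial (MvPolynomial J K) := ∑ i ∈ Finset.range (D + 1), Polynomial.monomial i (u i) with hF
  have hcoeff : ∀ i, F.coeff i = u i := by
    intro i
    rw [hF, Polynomial.finsetSum_coeff]
    by_cases h : i < D + 1
    · rw [Finset.sum_eq_single i]
      · rw [Polynomial.coeff_monomial_same]
      · intro b _ hb
        rw [Polynomial.coeff_monomial_of_ne _ hb.symm]
      · intro h'
        exact absurd (Finset.mem_range.2 h) h'
    · have h0 : u i = 0 := by
        rw [hu]
        simp only
        rw [dif_neg h]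
      rw [h0]
      apply Finset.sum_eq_zero
      intro b hb
      rw [Finset.mem_range] at hb
      rw [Polynomial.coeff_monomial_of_ne]
      omega
  have heval : F.eval x = 0 := by
    rw [hF, Polynomial.eval_finsetSum, ← hc, Fintype.sum_prod_type_right, ← Fin.sum_univ_eq_sum_range
      (fun i => Polynomial.eval x (Polynomial.monomial i (u i))) (D + 1)]
    apply Finset.sum_congr rfl
    intro i _
    rw [Polynomial.eval_monomial, hu]
    simp only
    rw [dif_pos i.2, Finset.sum_mul]
    apply Finset.sum_congr rfl
    intro l _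
    ring
  set c0 : MvPolynomial J K := MvPolynomial.map (algebraMap κ K) (c s0) with hc0
  have hc0' : c0 ≠ 0 := by
    rw [hc0]
    intro h
    apply hs0
    rw [Pi.zero_apply]
    apply hinj
    rw [h, map_zero]
  have hsemi : ∀ i, c0 * δK (F.coeff i) = δK c0 * F.coeff i := by
    intro i
    rw [hcoeff, hu]
    simp only
    split_ifs with h
    · rw [map_sum, Finset.mul_sum, Finset.mul_sum]
      apply Finset.sum_congr rfl
      intro l _
      rw [Derivation.leibniz, hδ_map, hc0, hδ_map]
      have h1 : δK (MvPolynomial.C (t l)) = 0 := Derivation.map_algebraMap δK (t l)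
      rw [h1]
      simp only [smul_eq_mul, mul_zero, zero_add]
      have h2 := congrArg (MvPolynomial.map (algebraMap κ K)) (hv' (l, ⟨i, h⟩))
      rw [map_mul, map_mul] at h2
      calc _ = MvPolynomial.C (t l) * (MvPolynomial.map (algebraMap κ K) (c s0) *
            MvPolynomial.map (algebraMap κ K) (∑ j, v j * pderiv j (c (l, ⟨i, h⟩)))) := by ring
        _ = _ := by rw [h2]; ring
    · simp
  have hF0 : F = 0 := deriv_root (δK.restrictScalars ℤ) c0 x hc0' hδx0 F hsemi heval
  apply hs0
  have h1 : u s0.2 = 0 := by rw [← hcoeff, hF0, Polynomial.coeff_zero]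
  rw [hu] at h1
  simp only at h1
  rw [dif_pos s0.2.2] at h1
  ext d
  have h2 := congrArg (MvPolynomial.coeff d) h1
  rw [MvPolynomial.coeff_sum, MvPolynomial.coeff_zero] at h2
  have h3 : ∑ l, (c (l, s0.2)).coeff d • t l = 0 := by
    rw [← h2]
    apply Finset.sum_congr rfl
    intro l _
    rw [mul_comm, MvPolynomial.coeff_C_mul, MvPolynomial.coeff_map, Algebra.smul_def, mul_comm]
  have h4 := Fintype.linearIndependent_iff.1 ht _ h3 s0.1
  simpa using h4

end Pool.Agent.W245.BR
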