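import Mathlib
import Pool.Agent.W245.BR.Lin

set_option autoImplicit false
set_option linter.unusedVariables false
set_option linter.unusedSectionVars false
set_option linter.unusedSimpArgs false

/-!
# Specialisation
-/

open Module MvPolynomial

noncomputable section

namespace Pool.Agent.W245.BR

variable {κ K : Type*} [Field κ] [CharZero κ] [Field K] [Algebra κ K]

/-- a linear functional applied to the coefficients -/
def lam {σ : Type*} (l : K →ₗ[κ] κ) (p : MvPolynomial σ K) : MvPolynomial σ κ :=
  ∑ d ∈ p.support, monomial d (l (p.coeff d))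

lemma coeff_lam {σ : Type*} (l : K →ₗ[κ] κ) (p : MvPolynomial σ K) (d : σ →₀ ℕ) :
    (lam l p).coeff d = l (p.coeff d) := by
  classical
  unfold lam
  rw [MvPolynomial.coeff_sum]
  by_cases h : d ∈ p.support
  · rw [Finset.sum_eq_single d]
    · rw [MvPolynomial.coeff_monomial, if_pos rfl]
    · intro b _ hb
      rw [MvPolynomial.coeff_monomial, if_neg hb]
    · intro h'
      exact absurd h h'
  · rw [notMem_support_iff.1 h, map_zero]
    apply Finset.sum_eq_zero
    intro b hb
    rw [MvPolynomial.coeff_monomial, if_neg]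
    intro h'
    rw [h'] at hb
    exact h hb

lemma lam_add {σ : Type*} (l : K →ₗ[κ] κ) (p q : MvPolynomial σ K) : lam l (p + q) = lam l p + lam l q := by
  ext d
  rw [coeff_lam, MvPolynomial.coeff_add, map_add, MvPolynomial.coeff_add, coeff_lam, coeff_lam]

lemma lam_zero {σ : Type*} (l : K →ₗ[κ] κ) : lam l (0 : MvPolynomial σ K) = 0 := by
  ext d
  rw [coeff_lam, MvPolynomial.coeff_zero, map_zero, MvPolynomial.coeff_zero]

lemma lam_sum {σ ι : Type*} (l : K →ₗ[κ] κ) (s : Finset ι) (f : ι → MvPolynomial σ K) :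
    lam l (∑ i ∈ s, f i) = ∑ i ∈ s, lam l (f i) := by
  classical
  induction s using Finset.induction_on with
  | empty => simp [lam_zero]
  | insert a s ha ih => rw [Finset.sum_insert ha, Finset.sum_insert ha, lam_add, ih]

lemma lam_map_mul {σ : Type*} (l : K →ₗ[κ] κ) (q : MvPolynomial σ κ) (p : MvPolynomial σ K) :
    lam l (MvPolynomial.map (algebraMap κ K) q * p) = q * lam l p := by
  classical
  ext d
  rw [coeff_lam, MvPolynomial.coeff_mul, MvPolynomial.coeff_mul, map_sum]
  apply Finset.sum_congr rfl
  intro x _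
  rw [coeff_lam, MvPolynomial.coeff_map, ← Algebra.smul_def, map_smul, smul_eq_mul]

lemma eval_lam {σ : Type*} (l : K →ₗ[κ] κ) (p : MvPolynomial σ K) (m : σ → κ) :
    MvPolynomial.eval m (lam l p) = l (MvPolynomial.eval (fun i => algebraMap κ K (m i)) p) := by
  classical
  rw [MvPolynomial.eval_eq (fun i => algebraMap κ K (m i)) p, map_sum]
  unfold lam
  rw [map_sum]
  apply Finset.sum_congr rfl
  intro d _
  rw [MvPolynomial.eval_monomial]
  have h1 : p.coeff d * ∏ i ∈ d.support, algebraMap κ K (m i) ^ d i =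
      (∏ i ∈ d.support, m i ^ d i) • p.coeff d := by
    rw [Algebra.smul_def, map_prod, mul_comm]
    congr 1
    apply Finset.prod_congr rfl
    intro i _
    rw [map_pow]
  rw [h1, map_smul, smul_eq_mul, mul_comm]
  rfl

lemma support_lam {σ : Type*} (l : K →ₗ[κ] κ) (p : MvPolynomial σ K) : (lam l p).support ⊆ p.support := by
  intro d hd
  rw [MvPolynomial.mem_support_iff] at hd ⊢
  rw [coeff_lam] at hd
  intro h
  rw [h, map_zero] at hd
  exact hd rfl

lemma totalDegree_lam_le {σ : Type*} (l : K →ₗ[κ] κ) (p : MvPolynomial σ K) :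
    (lam l p).totalDegree ≤ p.totalDegree :=
  Finset.sup_mono (support_lam l p)

/-- functionals with a nonzero determinant -/
theorem exists_det {σ : Type*} : ∀ (n : ℕ) (b : Fin n → MvPolynomial σ K),
    (∀ c : Fin n → MvPolynomial σ κ, ∑ s, MvPolynomial.map (algebraMap κ K) (c s) * b s = 0 → c = 0) →
    ∃ l : Fin n → (K →ₗ[κ] κ), (Matrix.of fun a s => lam (l a) (b s)).det ≠ 0 := by
  intro n
  induction n with
  | zero =>
    intro b _
    refine ⟨Fin.elim0, ?_⟩
    rw [Matrix.det_fin_zero]
    exact one_ne_zero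
  | succ n ih =>
    intro b hb
    have h1 : ∀ c : Fin n → MvPolynomial σ κ,
        ∑ s, MvPolynomial.map (algebraMap κ K) (c s) * b s.succ = 0 → c = 0 := by
      intro c hc
      have h2 := hb (Fin.cons 0 c) (by
        rw [Fin.sum_univ_succ]
        simp only [Fin.cons_zero, map_zero, zero_mul, Fin.cons_succ, zero_add]
        exact hc)
      funext s
      have := congrFun h2 s.succ
      simpa using this
    obtain ⟨l, hl⟩ := ih (fun s => b s.succ) h1
    -- the cofactors
    set M : Fin (n + 1) → MvPolynomial σ κ := fun j =>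
      (-1) ^ (j : ℕ) * (Matrix.of fun (a : Fin n) (s : Fin n) => lam (l a) (b (j.succAbove s))).det with hM
    have hM0 : M 0 ≠ 0 := by
      rw [hM]
      simp only [Fin.val_zero, pow_zero, one_mul, Fin.zero_succAbove]
      exact hl
    set E : MvPolynomial σ K := ∑ s, MvPolynomial.map (algebraMap κ K) (M s) * b s with hE
    have hE0 : E ≠ 0 := by
      intro h
      apply hM0
      have := congrFun (hb M h) 0
      simpa using this
    obtain ⟨d, hd⟩ : ∃ d, E.coeff d ≠ 0 := by
      by_contra h
      push Not at h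
      apply hE0
      ext d
      rw [h d, MvPolynomial.coeff_zero]
    obtain ⟨l0, hl0⟩ : ∃ l0 : K →ₗ[κ] κ, l0 (E.coeff d) ≠ 0 := by
      by_contra h
      push Not at h
      exact hd ((Module.forall_dual_apply_eq_zero_iff κ _).1 h)
    refine ⟨Fin.cons l0 l, ?_⟩
    rw [Matrix.det_succ_row_zero]
    have h3 : ∑ j : Fin (n + 1), (-1) ^ (j : ℕ) *
        (Matrix.of fun (a : Fin (n + 1)) (s : Fin (n + 1)) =>
          lam ((Fin.cons l0 l : Fin (n + 1) → (K →ₗ[κ] κ)) a) (b s)) 0 j *
        ((Matrix.of fun (a : Fin (n + 1)) (s : Fin (n + 1)) =>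
          lam ((Fin.cons l0 l : Fin (n + 1) → (K →ₗ[κ] κ)) a) (b s)).submatrix Fin.succ j.succAbove).det
        = lam l0 E := by
      rw [hE, lam_sum]
      apply Finset.sum_congr rfl
      intro j _
      rw [lam_map_mul, hM]
      simp only [Matrix.of_apply, Fin.cons_zero]
      have h4 : (Matrix.of fun (a : Fin (n + 1)) (s : Fin (n + 1)) =>
          lam ((Fin.cons l0 l : Fin (n + 1) → (K →ₗ[κ] κ)) a) (b s)).submatrix Fin.succ j.succAbove =
          Matrix.of fun (a : Fin n) (s : Fin n) => lam (l a) (b (j.succAbove s)) := by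
        ext a s : 2
        simp [Matrix.submatrix_apply]
      rw [h4]
      ring
    rw [h3]
    intro h
    apply hl0
    rw [← coeff_lam, h, MvPolynomial.coeff_zero]

/-- the determinant controls linear independence of the specialisations -/
theorem spec_of_det {σ S : Type*} [Fintype S] [DecidableEq S] (b : S → MvPolynomial σ K)
    (l : S → (K →ₗ[κ] κ)) (m : σ → κ)
    (h : MvPolynomial.eval m (Matrix.of fun a s => lam (l a) (b s)).det ≠ 0) :
    LinearIndependent κ (fun s => MvPolynomial.eval (fun i => algebraMap κ K (m i)) (b s)) := by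
  rw [Fintype.linearIndependent_iff]
  intro c hc
  have h1 : (Matrix.of fun a s => MvPolynomial.eval m (lam (l a) (b s)) : Matrix S S κ).mulVec c = 0 := by
    funext a
    simp only [Matrix.mulVec, dotProduct, Matrix.of_apply, Pi.zero_apply]
    have h2 := congrArg (l a) hc
    rw [map_sum, map_zero] at h2
    rw [← h2]
    apply Finset.sum_congr rfl
    intro s _
    rw [eval_lam, map_smul, smul_eq_mul, mul_comm]
  have h3 : (Matrix.of fun a s => MvPolynomial.eval m (lam (l a) (b s)) : Matrix S S κ).det ≠ 0 := by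
    intro h0
    apply h
    rw [← h0, RingHom.map_det]
    congr 1
  have h4 := Matrix.eq_zero_of_mulVec_eq_zero h3 h1
  intro s
  exact congrFun h4 s

/-- a generic polynomial, from one good point -/
theorem generic_of_point {σ S : Type*} [Fintype S] [DecidableEq S] (b : S → MvPolynomial σ K) (δ : ℕ)
    (hδ : ∀ s, (b s).totalDegree ≤ δ) (m : σ → κ)
    (h : LinearIndependent κ (fun s => MvPolynomial.eval (fun i => algebraMap κ K (m i)) (b s))) :
    ∃ F : MvPolynomial σ κ, F ≠ 0 ∧ F.totalDegree ≤ Fintype.card S * δ ∧ ∀ m' : σ → κ,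
      MvPolynomial.eval m' F ≠ 0 →
      LinearIndependent κ (fun s => MvPolynomial.eval (fun i => algebraMap κ K (m' i)) (b s)) := by
  obtain ⟨l, hl⟩ : ∃ l : S → (K →ₗ[κ] κ), ∀ a s,
      l a (MvPolynomial.eval (fun i => algebraMap κ K (m i)) (b s)) = if a = s then 1 else 0 := by
    obtain ⟨g, hg⟩ := LinearMap.exists_leftInverse_of_injective
      (Finsupp.linearCombination κ (fun s => MvPolynomial.eval (fun i => algebraMap κ K (m i)) (b s)))
      (LinearMap.ker_eq_bot.2 h)
    refine ⟨fun a => (Finsupp.lapply a).comp g, fun a s => ?_⟩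
    have h1 := LinearMap.congr_fun hg (Finsupp.single s 1)
    rw [LinearMap.comp_apply, Finsupp.linearCombination_single, one_smul, LinearMap.id_apply] at h1
    rw [LinearMap.comp_apply, h1, Finsupp.lapply_apply, Finsupp.single_apply]
    simp [eq_comm]
  refine ⟨(Matrix.of fun a s => lam (l a) (b s)).det, ?_, ?_, fun m' hm' => spec_of_det b l m' hm'⟩
  · intro h0
    have h1 := congrArg (MvPolynomial.eval m) h0
    rw [RingHom.map_det, map_zero] at h1
    have h2 : (MvPolynomial.eval m).mapMatrix (Matrix.of fun a s => lam (l a) (b s)) = 1 := by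
      ext a s
      rw [RingHom.mapMatrix_apply, Matrix.map_apply, Matrix.of_apply, eval_lam, hl, Matrix.one_apply]
    rw [h2, Matrix.det_one] at h1
    exact one_ne_zero h1
  · rw [Matrix.det_apply]
    apply totalDegree_finsetSum_le
    intro g _
    refine (totalDegree_smul_le _ _).trans ?_
    refine (totalDegree_finsetProd _ _).trans ?_
    refine (Finset.sum_le_card_nsmul _ _ δ fun s _ => ?_).trans ?_
    · exact (totalDegree_lam_le _ _).trans (hδ _)
    · simp

end Pool.Agent.W245.BR
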