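import Mathlib
import Pool.Agent.W245.BR.Lin2

set_option autoImplicit false
set_option linter.unusedVariables false
set_option linter.unusedSectionVars false
set_option linter.unusedSimpArgs false

/-!
# Generic combinations satisfy no relation of bounded degree, over an arbitrary field
-/

open Module MvPolynomial

noncomputable section

namespace Pool.Agent.W245.BR

open Pool.Agent.W245.EB Pool.Agent.W245.PB

variable {κ K : Type*} [Field κ] [CharZero κ] [Field K] [Algebra κ K]

/-- a nonzero polynomial does not vanish at some integral point -/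
lemma exists_int {J : Type*} (F : MvPolynomial J κ) (hF : F ≠ 0) :
    ∃ m : J → ℤ, MvPolynomial.eval (fun j => ((m j : ℤ) : κ)) F ≠ 0 := by
  by_contra h
  push Not at h
  apply hF
  apply MvPolynomial.funext_set (fun _ => Set.range ((↑) : ℤ → κ))
    (fun _ => Set.infinite_range_of_injective Int.cast_injective)
  intro x hx
  rw [map_zero]
  have h1 : ∀ j, ∃ n : ℤ, (n : κ) = x j := fun j => hx j (Set.mem_univ j)
  choose n hn using h1
  have h2 : (fun j => ((n j : ℤ) : κ)) = x := funext hn
  rw [← h2]
  exact h n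

open Classical in
/-- one variable -/
theorem exists_one {J ι : Type*} [Fintype J] [Fintype ι] (D : ℕ) (w : J → K)
    (hw : LinearIndependent κ w) (t : ι → K) (ht : LinearIndependent κ t)
    (hcard : Fintype.card ι * (D + 1) ≤ Fintype.card J) :
    ∃ m : J → ℤ, LinearIndependent κ (fun s : ι × Fin (D + 1) =>
      t s.1 * (∑ j, ((m j : ℤ) : κ) • w j) ^ (s.2 : ℕ)) := by
  set x : MvPolynomial J K := ∑ j, MvPolynomial.C (w j) * MvPolynomial.X j with hx
  let e := (Fintype.equivFin (ι × Fin (D + 1))).symm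
  obtain ⟨l, hl⟩ := exists_det (κ := κ) (Fintype.card (ι × Fin (D + 1)))
    (fun a => MvPolynomial.C (t (e a).1) * x ^ ((e a).2 : ℕ)) (by
      intro c hc
      have h1 := poly_indep D w hw t ht hcard (fun s => c (e.symm s)) (by
        rw [← hc, ← e.sum_comp]
        simp [hx])
      funext a
      have := congrFun h1 (e a)
      simpa using this)
  obtain ⟨m, hm⟩ := exists_int _ hl
  refine ⟨m, ?_⟩
  have h2 := spec_of_det _ l _ hm
  have h3 := h2.comp e.symm e.symm.injective
  convert h3 using 2 with s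
  simp only [Function.comp_apply, Equiv.apply_symm_apply, map_mul, MvPolynomial.eval_C, map_pow, hx, map_sum,
    MvPolynomial.eval_X]
  congr 2
  apply Finset.sum_congr rfl
  intro j _
  rw [Algebra.smul_def, mul_comm]

/-- several variables: one good integral point -/
theorem exists_point {J ι : Type} [Fintype J] (D : ℕ) (w : J → K) (hw : LinearIndependent κ w) :
    ∀ (k : ℕ) (ι : Type) [Fintype ι] (t : ι → K) (ht : LinearIndependent κ t)
    (hcard : Fintype.card ι * (D + 1) ^ k ≤ Fintype.card J),
    ∃ m : Fin k → J → ℤ, LinearIndependent κ (fun s : ι × (Fin k → Fin (D + 1)) =>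
      t s.1 * ∏ i, (∑ j, ((m i j : ℤ) : κ) • w j) ^ (s.2 i : ℕ)) := by
  intro k
  induction k with
  | zero =>
    intro ι _ t ht hcard
    refine ⟨Fin.elim0, ?_⟩
    have h1 : (fun s : ι × (Fin 0 → Fin (D + 1)) =>
      t s.1 * ∏ i, (∑ j, (((Fin.elim0 : Fin 0 → J → ℤ) i j : ℤ) : κ) • w j) ^ (s.2 i : ℕ)) = fun s => t s.1 := by
      funext s
      simp
    rw [h1]
    have h2 : Function.Injective (fun s : ι × (Fin 0 → Fin (D + 1)) => s.1) := by
      intro a b h
      exact Prod.ext h (Subsingleton.elim _ _)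
    exact ht.comp _ h2
  | succ k ih =>
    intro ι _ t ht hcard
    have h1 : Fintype.card ι * (D + 1) ≤ Fintype.card J := by
      refine le_trans ?_ hcard
      apply Nat.mul_le_mul_left
      calc D + 1 = (D + 1) ^ 1 := (pow_one _).symm
        _ ≤ (D + 1) ^ (k + 1) := Nat.pow_le_pow_right (by omega) (by omega)
    obtain ⟨m0, hm0⟩ := exists_one D w hw t ht h1
    obtain ⟨m, hm⟩ := ih (ι × Fin (D + 1)) _ hm0 (by
      rw [Fintype.card_prod, Fintype.card_fin, mul_assoc, ← pow_succ']
      exact hcard)
    refine ⟨Fin.cons m0 m, ?_⟩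
    let e : (ι × (Fin (k + 1) → Fin (D + 1))) → ((ι × Fin (D + 1)) × (Fin k → Fin (D + 1))) :=
      fun s => ((s.1, s.2 0), fun i => s.2 i.succ)
    have he : Function.Injective e := by
      intro a b h
      simp only [e, Prod.mk.injEq] at h
      refine Prod.ext h.1.1 ?_
      funext i
      refine Fin.cases h.1.2 (fun i => congrFun h.2 i) i
    have h3 := hm.comp e he
    convert h3 using 2 with s
    simp only [Function.comp_apply, e, Fin.prod_univ_succ, Fin.cons_zero, Fin.cons_succ]
    ring

/-- from linear independence of the products to the absence of relations -/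
lemma noRelS_of {J : Type} [Fintype J] (W : Submodule κ K) (hW : Module.Finite κ W) {k D : ℕ} (x : Fin k → K)
    (b : Basis (Fin (finrank κ W)) κ W)
    (h : LinearIndependent κ (fun s : Fin (finrank κ W) × (Fin k → Fin (D + 1)) =>
      (b s.1 : K) * ∏ i, x i ^ (s.2 i : ℕ))) : NoRelS W D x := by
  intro Q hQ1 hQ2 hQ3
  have h1 := eq_sum_ex (D := fun _ : Fin k => D) Q hQ1
  have h2 : ∀ e : Ex (fun _ : Fin k => D), Q.coeff (ex e) = ∑ l, (b.repr ⟨Q.coeff (ex e), hQ2 _⟩ l) • (b l : K) := by
    intro e
    have h3 := b.sum_repr ⟨Q.coeff (ex e), hQ2 (ex e)⟩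
    have h4 := congrArg (Submodule.subtype W) h3
    rw [map_sum] at h4
    simp only [map_smul, Submodule.subtype_apply] at h4
    exact h4.symm
  have h5 : ∑ s : Fin (finrank κ W) × (Fin k → Fin (D + 1)),
      (b.repr ⟨Q.coeff (ex (D := fun _ : Fin k => D) s.2), hQ2 _⟩ s.1) •
        ((b s.1 : K) * ∏ i, x i ^ (s.2 i : ℕ)) = 0 := by
    rw [Fintype.sum_prod_type_right, ← hQ3]
    conv_rhs => rw [h1, map_sum]
    apply Finset.sum_congr rfl
    intro e _
    rw [MvPolynomial.eval_monomial, h2 e, Finset.sum_mul]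
    apply Finset.sum_congr rfl
    intro l _
    rw [smul_mul_assoc]
    congr 2
    rw [Finsupp.prod_fintype _ _ (fun i => pow_zero _)]
    rfl
  have h6 := Fintype.linearIndependent_iff.1 h _ h5
  rw [h1]
  apply Finset.sum_eq_zero
  intro e _
  rw [h2 e]
  have h7 : ∑ l, (b.repr ⟨Q.coeff (ex e), hQ2 _⟩ l) • (b l : K) = 0 := by
    apply Finset.sum_eq_zero
    intro l _
    rw [h6 (l, e), zero_smul]
  rw [h7, map_zero]

open Classical in
/-- **Generic combinations.** -/
theorem lin_generic {J : Type} [Fintype J] (w : J → K) (k D N : ℕ) (W : Submodule κ K)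
    (hW : Module.Finite κ W) (hN : finrank κ W ≤ N)
    (hdim : N * (D + 1) ^ k ≤ finrank κ (Submodule.span κ (Set.range w))) :
    ∃ F : MvPolynomial (Fin k × J) κ, F ≠ 0 ∧ F.totalDegree ≤ N * (D + 1) ^ k * (k * D) ∧
      ∀ m : Fin k → J → κ, MvPolynomial.eval (fun p => m p.1 p.2) F ≠ 0 →
        NoRelS W D (fun i => ∑ j, algebraMap κ K (m i j) * w j) := by
  obtain ⟨ν, a, ha, hspan, hli⟩ := exists_linearIndependent' κ w
  have hfν : Finite ν := Finite.of_injective a ha
  have hν : Fintype ν := Fintype.ofFinite ν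
  have hcard : finrank κ (Submodule.span κ (Set.range w)) = Fintype.card ν := by
    rw [← hspan]
    exact finrank_span_eq_card hli
  let b : Basis (Fin (finrank κ W)) κ W := Module.finBasis κ W
  have hb : LinearIndependent κ (fun i => (b i : K)) :=
    b.linearIndependent.map' W.subtype (Submodule.ker_subtype W)
  let e := Fintype.equivFin ν
  obtain ⟨m, hm⟩ := exists_point (κ := κ) (J := Fin (Fintype.card ν)) (ι := Unit) D (fun j => w (a (e.symm j)))
    (hli.comp e.symm e.symm.injective) k (Fin (finrank κ W)) _ hb (by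
      rw [Fintype.card_fin, Fintype.card_fin, ← hcard]
      exact (Nat.mul_le_mul_right _ hN).trans hdim)
  -- the polynomials
  set bb : Fin (finrank κ W) × (Fin k → Fin (D + 1)) → MvPolynomial (Fin k × J) K := fun s =>
    MvPolynomial.C (b s.1 : K) * ∏ i, (∑ j, MvPolynomial.C (w j) * MvPolynomial.X (i, j)) ^ (s.2 i : ℕ) with hbb
  have heval : ∀ (m' : Fin k × J → κ) s, MvPolynomial.eval (fun p => algebraMap κ K (m' p)) (bb s) =
      (b s.1 : K) * ∏ i, (∑ j, algebraMap κ K (m' (i, j)) * w j) ^ (s.2 i : ℕ) := by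
    intro m' s
    rw [hbb]
    simp only [map_mul, MvPolynomial.eval_C, map_prod, map_pow, map_sum, MvPolynomial.eval_X]
    congr 2
    funext i
    congr 2
    funext j
    rw [mul_comm]
  set M : Fin k × J → κ := fun p => if h : ∃ l, a l = p.2 then ((m p.1 (e h.choose) : ℤ) : κ) else 0 with hM
  have hMx : ∀ i, ∑ j, algebraMap κ K (M (i, j)) * w j = ∑ j, ((m i j : ℤ) : κ) • w (a (e.symm j)) := by
    intro i
    rw [← e.sum_comp]
    simp only [Equiv.symm_apply_apply]
    have h1 : ∀ l, M (i, a l) = ((m i (e l) : ℤ) : κ) := by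
      intro l
      rw [hM]
      have h2 : ∃ l', a l' = a l := ⟨l, rfl⟩
      simp only
      rw [dif_pos h2, ha h2.choose_spec]
    have h3 : ∑ l, ((m i (e l) : ℤ) : κ) • w (a l) = ∑ j ∈ Finset.univ.image a, algebraMap κ K (M (i, j)) * w j := by
      rw [Finset.sum_image (fun x _ y _ h => ha h)]
      apply Finset.sum_congr rfl
      intro l _
      rw [h1, Algebra.smul_def]
    rw [h3]
    symm
    apply Finset.sum_subset (Finset.subset_univ _)
    intro j _ hj
    have h4 : ¬ ∃ l, a l = j := fun ⟨l, hl⟩ => hj (Finset.mem_image.2 ⟨l, Finset.mem_univ _, hl⟩)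
    rw [hM]
    simp only
    rw [dif_neg h4, map_zero, zero_mul]
  have hpt : LinearIndependent κ (fun s => MvPolynomial.eval (fun i => algebraMap κ K (M i)) (bb s)) := by
    convert hm using 2 with s
    rw [heval]
    congr 2
    funext i
    rw [hMx]
  have hdeg : ∀ s, (bb s).totalDegree ≤ k * D := by
    intro s
    rw [hbb]
    refine (totalDegree_mul _ _).trans ?_
    rw [totalDegree_C, zero_add]
    refine (totalDegree_finsetProd _ _).trans ?_
    refine (Finset.sum_le_card_nsmul _ _ D fun i _ => ?_).trans ?_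
    · refine (totalDegree_pow _ _).trans ?_
      have h1 : (∑ j, MvPolynomial.C (w j) * MvPolynomial.X (i, j) : MvPolynomial (Fin k × J) K).totalDegree ≤ 1 := by
        apply totalDegree_finsetSum_le
        intro j _
        refine (totalDegree_mul _ _).trans ?_
        rw [totalDegree_C, zero_add, totalDegree_X]
      calc (s.2 i : ℕ) * _ ≤ D * 1 := Nat.mul_le_mul (Nat.lt_succ_iff.1 (s.2 i).2) h1
        _ = D := mul_one _
    · simp
  obtain ⟨F, h0, h1, h2⟩ := generic_of_point bb (k * D) hdeg M hpt
  refine ⟨F, h0, h1.trans ?_, fun m' hm' => ?_⟩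
  · rw [Fintype.card_prod, Fintype.card_fin, Fintype.card_fun, Fintype.card_fin, Fintype.card_fin]
    exact Nat.mul_le_mul_right _ (Nat.mul_le_mul_right _ hN)
  · have h3 := h2 (fun p => m' p.1 p.2) hm'
    apply noRelS_of (J := J) W hW _ b
    convert h3 using 2 with s
    rw [heval]

end Pool.Agent.W245.BR
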