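import Pool.Agent.W245.BR.Main

set_option autoImplicit false

/-!
# The theorem of Ball and Rivoal for `riemannZeta`
-/

open Module

noncomputable section

namespace Pool.Agent.W245.BR

open Pool.Agent.H337R2

lemma zr_eq (e : ℕ) (he : 2 ≤ e) : ((zr e : ℝ) : ℂ) = riemannZeta e := by
  rw [zeta_nat_eq_tsum_of_gt_one (by omega), zr, Complex.ofReal_tsum]
  have h1 : Summable (fun n : ℕ => 1 / (n : ℂ) ^ e) := by
    rw [← Complex.ofReal_one]
    have h2 : Summable (fun n : ℕ => (1 : ℝ) / (n : ℝ) ^ e) := Real.summable_one_div_nat_pow.2 (by omega)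
    have h3 := Complex.ofRealCLM.summable h2
    refine h3.congr fun n => ?_
    simp
  rw [h1.tsum_eq_zero_add]
  rw [Nat.cast_zero, zero_pow (by omega), div_zero, zero_add]
  apply tsum_congr
  intro n
  push_cast
  rfl

/-- the numbers `ζ(3), ζ(5), …` -/
def oz (j : ℕ) : ℂ := riemannZeta (2 * (j : ℂ) + 3)

lemma oz_eq (j : ℕ) : oz j = ((zr (2 * (j + 1) + 1) : ℝ) : ℂ) := by
  rw [zr_eq _ (by omega), oz]
  congr 1
  push_cast
  ring

theorem zeta_dim : ∃ c : ℝ, 0 < c ∧ ∀ s : ℕ, c * Real.log ((s : ℝ) + 1) ≤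
    (finrank ℚ (Submodule.span ℚ (Set.range fun j : Fin s => oz j)) : ℝ) + 1 := by
  obtain ⟨c, hc, h⟩ := ball_rivoal
  refine ⟨c, hc, fun s => ?_⟩
  have h1 := h (s + 1) (by omega)
  push_cast at h1
  refine h1.trans ?_
  norm_cast
  -- the real spaces
  let T : ℝ →ₗ[ℚ] ℂ := (Algebra.linearMap ℝ ℂ).restrictScalars ℚ
  have hT : Function.Injective T := Complex.ofReal_injective
  have h2 : Submodule.span ℚ (Set.range fun i : Fin (s + 1) => if i.1 = 0 then (1 : ℝ) else zr (2 * i.1 + 1)) ≤
      Submodule.span ℚ {(1 : ℝ)} ⊔ Submodule.span ℚ (Set.range fun j : Fin s => zr (2 * ((j : ℕ) + 1) + 1)) := by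
    rw [Submodule.span_le]
    rintro _ ⟨i, rfl⟩
    simp only
    split_ifs with h0
    · exact (le_sup_left : Submodule.span ℚ {(1 : ℝ)} ≤ _) (Submodule.subset_span rfl)
    · refine (le_sup_right : Submodule.span ℚ (Set.range fun j : Fin s => zr (2 * ((j : ℕ) + 1) + 1)) ≤ _)
        (Submodule.subset_span ⟨⟨i.1 - 1, by omega⟩, ?_⟩)
      simp only
      congr 2
      omega
  have h3 : (Submodule.span ℚ (Set.range fun j : Fin s => zr (2 * ((j : ℕ) + 1) + 1))).map T =
      Submodule.span ℚ (Set.range fun j : Fin s => oz j) := by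
    rw [Submodule.map_span, ← Set.range_comp]
    congr 2
    funext j
    exact (oz_eq j).symm
  have h4 : finrank ℚ (Submodule.span ℚ (Set.range fun j : Fin s => oz j)) =
      finrank ℚ (Submodule.span ℚ (Set.range fun j : Fin s => zr (2 * ((j : ℕ) + 1) + 1))) := by
    rw [← h3]
    exact (LinearEquiv.finrank_eq (Submodule.equivMapOfInjective T hT _)).symm
  rw [h4]
  have h5 : Module.Finite ℚ (Submodule.span ℚ {(1 : ℝ)}) :=
    FiniteDimensional.span_of_finite ℚ (Set.finite_singleton _)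
  have h6 : Module.Finite ℚ (Submodule.span ℚ (Set.range fun j : Fin s => zr (2 * ((j : ℕ) + 1) + 1))) :=
    FiniteDimensional.span_of_finite ℚ (Set.finite_range _)
  calc _ ≤ finrank ℚ ↥(Submodule.span ℚ {(1 : ℝ)} ⊔
          Submodule.span ℚ (Set.range fun j : Fin s => zr (2 * ((j : ℕ) + 1) + 1))) :=
        Submodule.finrank_mono h2
    _ ≤ finrank ℚ (Submodule.span ℚ {(1 : ℝ)}) +
          finrank ℚ (Submodule.span ℚ (Set.range fun j : Fin s => zr (2 * ((j : ℕ) + 1) + 1))) :=
        Submodule.finrank_add_le_finrank_add_finrank _ _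
    _ ≤ 1 + _ := by
        apply Nat.add_le_add_right
        exact (finrank_span_singleton (one_ne_zero : (1 : ℝ) ≠ 0)).le
    _ = _ := by ring

theorem zeta_tail (J R : ℕ) : ∃ w : Fin R → ℂ, (∀ j, w j ∈ {z : ℂ | ∃ i : ℕ, J ≤ i ∧ z = oz i}) ∧
    LinearIndependent ℚ w := by
  classical
  obtain ⟨c, hc, h⟩ := zeta_dim
  obtain ⟨s, hs⟩ : ∃ s : ℕ, ((R + J + 1 : ℕ) : ℝ) ≤ c * Real.log ((s : ℝ) + 1) := by
    have h1 : Filter.Tendsto (fun s : ℕ => c * Real.log ((s : ℝ) + 1)) Filter.atTop Filter.atTop := by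
      apply Filter.Tendsto.const_mul_atTop hc
      apply Real.tendsto_log_atTop.comp
      exact Filter.tendsto_atTop_add_const_right _ _ tendsto_natCast_atTop_atTop
    exact (h1.eventually_ge_atTop _).exists
  have h1 : R + J ≤ finrank ℚ (Submodule.span ℚ (Set.range fun j : Fin s => oz j)) := by
    have h2 := hs.trans (h s)
    have h3 : ((R + J : ℕ) : ℝ) ≤ (finrank ℚ (Submodule.span ℚ (Set.range fun j : Fin s => oz j)) : ℝ) := by
      push_cast at h2 ⊢
      linarith
    exact_mod_cast h3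
  obtain ⟨ν, a, ha, hspan, hli⟩ := exists_linearIndependent' ℚ (fun j : Fin s => oz j)
  have hfν : Finite ν := Finite.of_injective a ha
  have hν : Fintype ν := Fintype.ofFinite ν
  have hcard : finrank ℚ (Submodule.span ℚ (Set.range fun j : Fin s => oz j)) = Fintype.card ν := by
    rw [← hspan]
    exact finrank_span_eq_card hli
  have h2 : R ≤ (Finset.univ.filter (fun l : ν => J ≤ (a l : ℕ))).card := by
    have h3 : (Finset.univ.filter (fun l : ν => ¬ J ≤ (a l : ℕ))).card ≤ J := by
      calc _ ≤ (Finset.range J).card := by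
            apply Finset.card_le_card_of_injOn (fun l => ((a l : Fin s) : ℕ))
            · intro l hl
              have : ¬ J ≤ (a l : ℕ) := (Finset.mem_filter.1 hl).2
              simp only [Finset.coe_range, Set.mem_Iio]
              omega
            · intro l _ l' _ hll
              exact ha (Fin.ext hll)
        _ = J := Finset.card_range J
    have h4 := Finset.card_filter_add_card_filter_not (s := (Finset.univ : Finset ν)) (fun l : ν => J ≤ (a l : ℕ))
    rw [Finset.card_univ, ← hcard] at h4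
    omega
  obtain ⟨T, hT1, hT2⟩ := Finset.exists_subset_card_eq h2
  let e := T.equivFinOfCardEq hT2
  refine ⟨fun j => oz (a (e.symm j).1), fun j => ⟨(a (e.symm j).1 : ℕ), ?_, rfl⟩, ?_⟩
  · exact (Finset.mem_filter.1 (hT1 (e.symm j).2)).2
  · exact hli.comp (fun j => (e.symm j).1) (fun i j hij => e.symm.injective (Subtype.ext hij))

end Pool.Agent.W245.BR
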