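import Mathlib
import Pool.Agent.W245.EB.Step
import Pool.Agent.W245.BR.Lin3

set_option autoImplicit false
set_option linter.unusedVariables false
set_option linter.unusedSectionVars false
set_option linter.unusedSimpArgs false

/-!
# Sequences chosen one after the other, without relations of bounded degree
-/

open Module MvPolynomial

noncomputable section

namespace Pool.Agent.W245.BR

open Pool.Agent.W245.EB Pool.Agent.W245.PB

/-- the result of the construction: `t i` is taken from the set `S i`, and the spaces `V i` are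
contained in the coefficient spaces -/
structure QChain (S : ℕ → Set ℂ) (V : ℕ → Submodule ℚ ℂ) where
  t : ℕ → ℂ
  A : ℕ → Submodule ℚ ℂ
  ht : ∀ i, t i ∈ S i
  mono : Monotone A
  fin : ∀ i, Module.Finite ℚ (A i)
  one : ∀ i, (1 : ℂ) ∈ A i
  hV : ∀ i, V i ≤ A i
  htA : ∀ i, t i ∈ A (i + 1)
  noRel : ∀ i, NoRelTot (A i ^ (2 * i + 3)) (i + 1) (fun _ : Fin 1 => t i)

theorem exists_qchain (S : ℕ → Set ℂ) (V : ℕ → Submodule ℚ ℂ) (hV : ∀ i, Module.Finite ℚ (V i))
    (hS : ∀ (i D : ℕ) (U : Submodule ℚ ℂ), Module.Finite ℚ U →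
      ∃ t ∈ S i, NoRelTot U D (fun _ : Fin 1 => t)) : Nonempty (QChain S V) := by
  classical
  have hstep : ∀ (i : ℕ) (A : Submodule ℚ ℂ), ∃ t ∈ S i,
      (Module.Finite ℚ A → NoRelTot (A ^ (2 * i + 3)) (i + 1) (fun _ : Fin 1 => t)) := by
    intro i A
    by_cases h : Module.Finite ℚ A
    · have h1 : Module.Finite ℚ (A ^ (2 * i + 3) : Submodule ℚ ℂ) :=
        Module.Finite.iff_fg.2 ((Module.Finite.iff_fg.1 h).pow _)
      obtain ⟨t, ht, h5⟩ := hS i (i + 1) _ h1
      exact ⟨t, ht, fun _ => h5⟩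
    · obtain ⟨t, ht, _⟩ := hS i 0 ⊥ inferInstance
      exact ⟨t, ht, fun h' => absurd h' h⟩
  choose t ht hno using hstep
  obtain ⟨P, hP0, hPs⟩ : ∃ P : ℕ → Submodule ℚ ℂ, P 0 = Submodule.span ℚ {(1 : ℂ)} ⊔ V 0 ∧
      ∀ i, P (i + 1) = P i ⊔ (V (i + 1) ⊔ Submodule.span ℚ {t i (P i)}) :=
    ⟨fun i => Nat.rec (Submodule.span ℚ {(1 : ℂ)} ⊔ V 0)
      (fun i Q => Q ⊔ (V (i + 1) ⊔ Submodule.span ℚ {t i Q})) i, rfl, fun i => rfl⟩
  have hPfin : ∀ i, Module.Finite ℚ (P i) := by
    intro i
    induction i with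
    | zero =>
      rw [hP0]
      have h1 : Module.Finite ℚ (Submodule.span ℚ {(1 : ℂ)}) :=
        FiniteDimensional.span_of_finite ℚ (Set.finite_singleton _)
      have h2 := hV 0
      exact Submodule.finite_sup _ _
    | succ i ih =>
      rw [hPs]
      have h1 : Module.Finite ℚ (Submodule.span ℚ {t i (P i)}) :=
        FiniteDimensional.span_of_finite ℚ (Set.finite_singleton _)
      have h2 := hV (i + 1)
      have h3 : Module.Finite ℚ (V (i + 1) ⊔ Submodule.span ℚ {t i (P i)} : Submodule ℚ ℂ) :=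
        Submodule.finite_sup _ _
      exact Submodule.finite_sup _ _
  have hPmono : Monotone P := by
    apply monotone_nat_of_le_succ
    intro i
    rw [hPs]
    exact le_sup_left
  have hVP : ∀ i, V i ≤ P i := by
    intro i
    cases i with
    | zero => rw [hP0]; exact le_sup_right
    | succ i =>
      rw [hPs]
      exact le_sup_left.trans le_sup_right
  exact ⟨{
    t := fun i => t i (P i)
    A := P
    ht := fun i => ht i (P i)
    mono := hPmono
    fin := hPfin
    one := fun i => hPmono (Nat.zero_le i) (by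
      rw [hP0]
      exact (le_sup_left : _ ≤ Submodule.span ℚ {(1 : ℂ)} ⊔ V 0) (Submodule.subset_span rfl))
    hV := hVP
    htA := fun i => by
      rw [hPs]
      exact (le_sup_right.trans le_sup_right :
        Submodule.span ℚ {t i (P i)} ≤ P i ⊔ (V (i + 1) ⊔ Submodule.span ℚ {t i (P i)}))
        (Submodule.subset_span rfl)
    noRel := fun i => hno i (P i) (hPfin i) }⟩

namespace QChain

variable {S : ℕ → Set ℂ} {V : ℕ → Submodule ℚ ℂ} (c : QChain S V)

lemma le_pow (i a : ℕ) (ha : 1 ≤ a) : c.A i ≤ c.A i ^ a := by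
  have := pow_mono_of_one (c.one i) ha
  rwa [pow_one] at this

lemma notMem (i : ℕ) : c.t i ∉ c.A i := by
  intro h
  have h1 : (MvPolynomial.X 0 - MvPolynomial.C (c.t i) : MvPolynomial (Fin 1) ℂ) = 0 := by
    apply c.noRel i
    · refine (totalDegree_sub _ _).trans (max_le ?_ ?_)
      · rw [totalDegree_X]; omega
      · rw [totalDegree_C]; omega
    · intro s
      rw [coeff_sub, MvPolynomial.coeff_X, coeff_C]
      apply Submodule.sub_mem
      · split_ifs
        · exact c.le_pow i _ (by omega) (c.one i)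
        · exact Submodule.zero_mem _
      · split_ifs
        · exact c.le_pow i _ (by omega) h
        · exact Submodule.zero_mem _
    · simp
  have h2 := congrArg (MvPolynomial.eval (fun _ => c.t i + 1)) h1
  simp at h2

lemma indep : LinearIndependent ℚ c.t := by
  rw [linearIndependent_iff_finset_linearIndependent]
  have key : ∀ K : ℕ, LinearIndependent ℚ (fun i : Fin K => c.t i) ∧
      ∀ i : Fin K, c.t i ∈ c.A K := by
    intro K
    induction K with
    | zero => exact ⟨linearIndependent_empty_type, fun i => i.elim0⟩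
    | succ K ih =>
      constructor
      · have h1 : (fun i : Fin (K + 1) => c.t i) = Fin.snoc (fun i : Fin K => c.t i) (c.t K) := by
          funext i
          refine Fin.lastCases ?_ (fun j => ?_) i
          · simp
          · simp
        rw [h1, linearIndependent_finSnoc]
        refine ⟨ih.1, fun h => c.notMem K ?_⟩
        refine (Submodule.span_le.2 ?_ : Submodule.span ℚ _ ≤ c.A K) h
        rintro _ ⟨i, rfl⟩
        exact ih.2 i
      · intro i
        refine Fin.lastCases ?_ (fun j => ?_) i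
        · simpa using c.htA K
        · simpa using c.mono (Nat.le_succ K) (ih.2 j)
  intro s
  obtain ⟨K, hK⟩ : ∃ K, ∀ i ∈ s, i < K := ⟨s.sup id + 1, fun i hi =>
    Nat.lt_succ_of_le (Finset.le_sup (f := id) hi)⟩
  exact (key K).1.comp (fun i : s => (⟨i.1, hK i.1 i.2⟩ : Fin K)) (fun i j hij => by
    have := congrArg Fin.val hij
    exact Subtype.ext this)

/-- the space spanned by `t D, ..., t (D + j - 1)` -/
def X (D j : ℕ) : Submodule ℚ ℂ := Submodule.span ℚ (c.t '' Set.Ico D (D + j))

lemma X_succ (D j : ℕ) : c.X D (j + 1) = c.X D j ⊔ Submodule.span ℚ {c.t (D + j)} := by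
  rw [X, X, ← Submodule.span_union]
  congr 1
  ext x
  simp only [Set.mem_image, Set.mem_Ico, Set.mem_union, Set.mem_singleton_iff]
  constructor
  · rintro ⟨i, hi, rfl⟩
    by_cases h : i < D + j
    · exact Or.inl ⟨i, ⟨hi.1, h⟩, rfl⟩
    · exact Or.inr (by congr 1; omega)
  · rintro (⟨i, hi, rfl⟩ | rfl)
    · exact ⟨i, ⟨hi.1, by omega⟩, rfl⟩
    · exact ⟨D + j, ⟨by omega, by omega⟩, rfl⟩

lemma X_le (D j : ℕ) : c.X D j ≤ c.A (D + j) := by
  rw [X, Submodule.span_le]
  rintro _ ⟨i, hi, rfl⟩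
  exact c.mono (by have := hi.2; omega) (c.htA i)

lemma X_fin (D j : ℕ) : Module.Finite ℚ (c.X D j) :=
  FiniteDimensional.span_of_finite ℚ ((Set.finite_Ico _ _).image _)

theorem nr (D : ℕ) : ∀ j, NR (c.A D ^ (D + 1)) D (c.X D j) := by
  intro j
  induction j with
  | zero =>
    have : c.X D 0 = ⊥ := by
      rw [X]
      simp
    rw [this]
    exact nr_bot _ _
  | succ j ih =>
    rw [X_succ]
    have h1 : Module.Finite ℚ (Submodule.span ℚ {c.t (D + j)}) :=
      FiniteDimensional.span_of_finite ℚ (Set.finite_singleton _)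
    have h2 := c.X_fin D j
    have h3 : c.A D ^ (D + 1) ≤ c.A (D + j) ^ (D + 1) :=
      pow_le_pow_left' (c.mono (Nat.le_add_right _ _)) _
    refine nr_append (A := c.A (D + j)) (a := D + 1) (N := 2 * (D + j) + 3) (c.one _) h3 (by omega)
      h2 h1 (c.X_le D j) ih ?_
    have h4 := nr_of_family (c.noRel (D + j))
    have h5 : Set.range (fun _ : Fin 1 => c.t (D + j)) = {c.t (D + j)} := by
      ext x
      simp [eq_comm]
    rw [h5] at h4
    exact h4.mono le_rfl (by omega)

/-- **the main property** -/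
theorem nr_top (D : ℕ) : NR (c.A D ^ (D + 1)) D (Submodule.span ℚ (c.t '' Set.Ici D)) := by
  intro k x hx hi
  have h1 : ∀ i, ∃ j, x i ∈ c.X D j := by
    intro i
    have h2 := hx i
    refine Submodule.span_induction (p := fun y _ => ∃ j, y ∈ c.X D j) ?_ ?_ ?_ ?_ h2
    · rintro _ ⟨a, ha, rfl⟩
      refine ⟨a - D + 1, Submodule.subset_span ⟨a, ⟨ha, ?_⟩, rfl⟩⟩
      have := Set.mem_Ici.1 ha
      omega
    · exact ⟨0, Submodule.zero_mem _⟩
    · rintro a b _ _ ⟨j, hj⟩ ⟨j', hj'⟩
      refine ⟨max j j', Submodule.add_mem _ ?_ ?_⟩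
      · refine Submodule.span_mono (Set.image_mono (Set.Ico_subset_Ico_right ?_)) hj
        have := le_max_left j j'
        omega
      · refine Submodule.span_mono (Set.image_mono (Set.Ico_subset_Ico_right ?_)) hj'
        have := le_max_right j j'
        omega
    · rintro a b _ ⟨j, hj⟩
      exact ⟨j, Submodule.smul_mem _ _ hj⟩
  choose j hj using h1
  have h2 : ∀ i, x i ∈ c.X D (∑ l, j l) := by
    intro i
    refine Submodule.span_mono (Set.image_mono (Set.Ico_subset_Ico_right ?_)) (hj i)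
    have : j i ≤ ∑ l, j l := Finset.single_le_sum (fun _ _ => Nat.zero_le _) (Finset.mem_univ i)
    omega
  exact c.nr D _ k x h2 hi

end QChain


/-- supply of numbers by a set of numbers with infinite dimensional span -/
lemma exists_of_rankQ (T : Set ℂ)
    (h : ∀ R : ℕ, ∃ w : Fin R → ℂ, (∀ j, w j ∈ T) ∧ LinearIndependent ℚ w) (D : ℕ)
    (U : Submodule ℚ ℂ) (hU : Module.Finite ℚ U) :
    ∃ t ∈ (AddSubgroup.closure T : Set ℂ), NoRelTot U D (fun _ : Fin 1 => t) := by
  obtain ⟨w, hw1, hw2⟩ := h (finrank ℚ U * (D + 1) ^ 1)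
  obtain ⟨F, h0, _, h2⟩ := lin_generic (κ := ℚ) (K := ℂ) w 1 D (finrank ℚ U) U hU le_rfl (by
    rw [finrank_span_eq_card hw2, Fintype.card_fin])
  obtain ⟨m, hm⟩ := exists_int F h0
  refine ⟨∑ j, (m (0, j) : ℂ) * w j, ?_, ?_⟩
  · apply sum_mem
    intro j _
    rw [← zsmul_eq_mul]
    exact zsmul_mem (AddSubgroup.subset_closure (hw1 j)) _
  · have h3 := h2 (fun i j => ((m (i, j) : ℤ) : ℚ)) hm
    intro Q hQ1 hQ2 hQ3
    apply h3 Q
    · intro i
      exact (MvPolynomial.degreeOf_le_totalDegree Q i).trans hQ1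
    · exact hQ2
    · have h4 : (fun i : Fin 1 => ∑ j, algebraMap ℚ ℂ ((m (i, j) : ℤ) : ℚ) * w j) =
          fun _ => ∑ j, (m (0, j) : ℂ) * w j := by
        funext i
        have hi : i = 0 := Subsingleton.elim _ _
        subst hi
        apply Finset.sum_congr rfl
        intro j _
        simp
      rw [h4]
      exact hQ3

end Pool.Agent.W245.BR
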