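import Pool.Agent.W245.BR.Stm

/-!
# BR-BK: integrality of the partial fraction coefficients
-/

set_option autoImplicit false

open Polynomial Pool.Agent.H337R2 Filter Topology Pool.Agent.W165.OZ

namespace Pool.Agent.W245.BR

noncomputable section

namespace BK

/-- the power series `f` such that `D ^ j * f_j` is an integer for all `j` -/
def AA (D : ℕ) : Subring (PowerSeries ℚ) where
  carrier := {f | ∀ j, ∃ z : ℤ, (D : ℚ) ^ j * PowerSeries.coeff j f = z}
  mul_mem' := by
    intro f g hf hg j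
    choose zf hzf using hf
    choose zg hzg using hg
    refine ⟨∑ p ∈ Finset.HasAntidiagonal.antidiagonal j, zf p.1 * zg p.2, ?_⟩
    rw [PowerSeries.coeff_mul, Finset.mul_sum]
    push_cast
    refine Finset.sum_congr rfl fun p hp => ?_
    rw [← hzf, ← hzg, ← Finset.HasAntidiagonal.mem_antidiagonal.1 hp, pow_add]
    ring
  one_mem' := by
    intro j
    rw [PowerSeries.coeff_one]
    split_ifs with h
    · exact ⟨1, by simp [h]⟩
    · exact ⟨0, by simp⟩
  add_mem' := by
    intro f g hf hg j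
    obtain ⟨a, ha⟩ := hf j
    obtain ⟨b, hb⟩ := hg j
    exact ⟨a + b, by rw [map_add, mul_add, ha, hb]; push_cast; ring⟩
  zero_mem' := by
    intro j
    exact ⟨0, by simp⟩
  neg_mem' := by
    intro f hf j
    obtain ⟨a, ha⟩ := hf j
    exact ⟨-a, by rw [map_neg, mul_neg, ha]; push_cast; ring⟩

theorem mem_AA {D : ℕ} {f : PowerSeries ℚ} :
    f ∈ AA D ↔ ∀ j, ∃ z : ℤ, (D : ℚ) ^ j * PowerSeries.coeff j f = z := Iff.rfl

theorem C_mem (D : ℕ) (z : ℤ) : PowerSeries.C (z : ℚ) ∈ AA D := by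
  intro j
  rw [PowerSeries.coeff_C]
  split_ifs with h
  · exact ⟨z, by simp [h]⟩
  · exact ⟨0, by simp⟩

/-- `c * X` with `D * c` an integer -/
theorem CX_mem (D : ℕ) (c : ℚ) (hc : ∃ z : ℤ, (D : ℚ) * c = z) :
    PowerSeries.C c * PowerSeries.X ∈ AA D := by
  intro j
  rw [PowerSeries.coeff_C_mul, PowerSeries.coeff_X]
  split_ifs with h
  · obtain ⟨z, hz⟩ := hc
    exact ⟨z, by rw [h, pow_one, mul_one, hz]⟩
  · exact ⟨0, by simp⟩

theorem X_mem (D : ℕ) : PowerSeries.X ∈ AA D := by
  have h := CX_mem D 1 ⟨D, by simp⟩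
  simpa using h

/-- the numbers up to `n` divide `Dl n 1` -/
theorem dvd_Dl {n l : ℕ} (h1 : 1 ≤ l) (h2 : l ≤ n) : l ∣ Dl n 1 := by
  have hl : l ≠ 0 := by omega
  conv_lhs => rw [← Nat.prod_factorization_pow_eq_self hl]
  unfold Dl
  rw [Finsupp.prod]
  refine (Finset.prod_dvd_prod_of_dvd _ (fun p => p ^ Nat.log p (1 * n)) fun p hp => ?_).trans
    (Finset.prod_dvd_prod_of_subset _ _ _ ?_)
  · refine pow_dvd_pow _ ?_
    rw [Nat.support_factorization, Nat.mem_primeFactors] at hp
    rw [one_mul]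
    exact Nat.le_log_of_pow_le hp.1.one_lt
      ((Nat.le_of_dvd (by omega) (Nat.ordProj_dvd l p)).trans h2)
  · intro p hp
    rw [Nat.support_factorization, Nat.mem_primeFactors] at hp
    rw [Finset.mem_filter, Finset.mem_range]
    exact ⟨by have := Nat.le_of_dvd (by omega) hp.2.1; omega, hp.1⟩

theorem int_of_dvd {n : ℕ} {a : ℤ} (ha : a ≠ 0) (h : a.natAbs ≤ n) :
    ∃ z : ℤ, (Dl n 1 : ℚ) * ((a : ℚ)⁻¹) = z := by
  have h1 : a.natAbs ∣ Dl n 1 := dvd_Dl (by omega) h
  have h2 : a ∣ (Dl n 1 : ℤ) := Int.natAbs_dvd.1 (Int.natCast_dvd_natCast.2 h1)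
  obtain ⟨z, hz⟩ := h2
  refine ⟨z, ?_⟩
  have h3 : (a : ℚ) ≠ 0 := by exact_mod_cast ha
  have h4 : (Dl n 1 : ℚ) = a * z := by exact_mod_cast hz
  rw [h4]
  field_simp

/-- `a / (X + a)` -/
theorem iv_mem {n : ℕ} {a : ℤ} (ha : a ≠ 0) (h : a.natAbs ≤ n) :
    PowerSeries.C (a : ℚ) * iv (a : ℚ) ∈ AA (Dl n 1) := by
  obtain ⟨z, hz⟩ := int_of_dvd ha h
  intro j
  refine ⟨(-1) ^ j * z ^ j, ?_⟩
  have h3 : (a : ℚ) ≠ 0 := by exact_mod_cast ha
  rw [PowerSeries.coeff_C_mul]
  simp only [iv, PowerSeries.coeff_mk]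
  push_cast
  rw [← hz, mul_pow, inv_pow, pow_succ]
  field_simp

/-- product of `N` consecutive linear factors -/
def QN (a : ℤ) (N : ℕ) : PowerSeries ℚ :=
  ∏ j ∈ Finset.range N, (PowerSeries.X + PowerSeries.C ((a : ℚ) + ((j : ℚ) + 1)))

/-- bricks -/
theorem brick {n : ℕ} : ∀ m : ℕ, m ≤ n → ∀ a : ℤ,
    PowerSeries.C ((m.factorial : ℚ)⁻¹) * QN a m ∈ AA (Dl n 1) := by
  intro m
  induction m with
  | zero =>
    intro _ a
    simp only [QN, Finset.range_zero, Finset.prod_empty, mul_one, Nat.factorial_zero, Nat.cast_one,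
      inv_one, map_one]
    exact (AA (Dl n 1)).one_mem
  | succ m ih =>
    intro hm a
    have ih' := ih (by omega)
    have hfac : ((m + 1 : ℕ).factorial : ℚ)⁻¹ = ((m : ℚ) + 1)⁻¹ * (m.factorial : ℚ)⁻¹ := by
      rw [Nat.factorial_succ]
      push_cast
      rw [mul_inv]
    -- the start
    have hstart : PowerSeries.C (((m + 1 : ℕ).factorial : ℚ)⁻¹) * QN (-((m : ℤ) + 1)) (m + 1) ∈
        AA (Dl n 1) := by
      have h1 : QN (-((m : ℤ) + 1)) (m + 1) =
          (∏ l ∈ Finset.range m, (PowerSeries.X - PowerSeries.C ((l : ℚ) + 1))) *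
            PowerSeries.X := by
        unfold QN
        rw [Finset.prod_range_succ]
        congr 1
        · rw [← Finset.prod_range_reflect]
          refine Finset.prod_congr rfl fun j hj => ?_
          rw [Finset.mem_range] at hj
          have h2 : ((m - 1 - j : ℕ) : ℚ) = (m : ℚ) - 1 - j := by
            rw [Nat.cast_sub (by omega), Nat.cast_sub (by omega)]
            simp
          have e : (PowerSeries.X - PowerSeries.C ((j : ℚ) + 1) : PowerSeries ℚ) =
              PowerSeries.X + PowerSeries.C (-((j : ℚ) + 1)) := by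
            rw [map_neg, sub_eq_add_neg]
          rw [h2, e]
          push_cast
          congr 2
          ring
        · push_cast
          have : -((m : ℚ) + 1) + ((m : ℚ) + 1) = 0 := by ring
          rw [this, map_zero, add_zero]
      have h2 : PowerSeries.C (((m + 1 : ℕ).factorial : ℚ)⁻¹) * QN (-((m : ℤ) + 1)) (m + 1) =
          (PowerSeries.C ((((m + 1 : ℕ) : ℤ) : ℚ)⁻¹) * PowerSeries.X) *
            ∏ l ∈ Finset.range m, (PowerSeries.C ((((l + 1 : ℕ) : ℤ) : ℚ)⁻¹) * PowerSeries.X -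
              PowerSeries.C ((1 : ℤ) : ℚ)) := by
        have h3 : ∏ l ∈ Finset.range m, (PowerSeries.C ((((l + 1 : ℕ) : ℤ) : ℚ)⁻¹) *
            PowerSeries.X - PowerSeries.C ((1 : ℤ) : ℚ)) =
            PowerSeries.C ((m.factorial : ℚ)⁻¹) *
              ∏ l ∈ Finset.range m, (PowerSeries.X - PowerSeries.C ((l : ℚ) + 1)) := by
          rw [← Finset.prod_range_add_one_eq_factorial]
          push_cast
          rw [← Finset.prod_inv_distrib, map_prod, ← Finset.prod_mul_distrib]
          refine Finset.prod_congr rfl fun l _ => ?_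
          rw [mul_sub, ← map_mul, inv_mul_cancel₀ (by positivity), map_one]
        rw [h3, h1, hfac, map_mul]
        push_cast
        ring
      rw [h2]
      refine (AA (Dl n 1)).mul_mem (CX_mem _ _ (int_of_dvd (by omega) (by omega))) ?_
      refine (AA (Dl n 1)).prod_mem fun l hl => ?_
      rw [Finset.mem_range] at hl
      exact (AA (Dl n 1)).sub_mem (CX_mem _ _ (int_of_dvd (by omega) (by omega))) (C_mem _ _)
    -- the step
    have hstep : ∀ b : ℤ, PowerSeries.C (((m + 1 : ℕ).factorial : ℚ)⁻¹) * QN (b + 1) (m + 1) -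
        PowerSeries.C (((m + 1 : ℕ).factorial : ℚ)⁻¹) * QN b (m + 1) =
        PowerSeries.C ((m.factorial : ℚ)⁻¹) * QN (b + 1) m := by
      intro b
      have h1 : QN (b + 1) (m + 1) = QN (b + 1) m *
          (PowerSeries.X + PowerSeries.C ((b : ℚ) + 1 + ((m : ℚ) + 1))) := by
        unfold QN
        rw [Finset.prod_range_succ]
        push_cast
        rfl
      have h2 : QN b (m + 1) = QN (b + 1) m * (PowerSeries.X + PowerSeries.C ((b : ℚ) + 1)) := by
        unfold QN
        rw [Finset.prod_range_succ']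
        congr 1
        · refine Finset.prod_congr rfl fun j _ => ?_
          push_cast
          congr 2
          ring
        · simp
      rw [h1, h2, ← mul_sub, ← mul_sub]
      have h3 : (PowerSeries.X + PowerSeries.C ((b : ℚ) + 1 + ((m : ℚ) + 1))) -
          (PowerSeries.X + PowerSeries.C ((b : ℚ) + 1)) = PowerSeries.C ((m : ℚ) + 1) := by
        rw [map_add PowerSeries.C ((b : ℚ) + 1)]
        ring
      rw [h3, hfac, mul_comm (QN (b + 1) m), ← mul_assoc, ← map_mul]
      congr 2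
      field_simp
    -- all `a`
    have hall : ∀ i : ℤ, PowerSeries.C (((m + 1 : ℕ).factorial : ℚ)⁻¹) *
        QN (-((m : ℤ) + 1) + i) (m + 1) ∈ AA (Dl n 1) := by
      intro i
      induction i using Int.induction_on with
      | zero => rw [add_zero]; exact hstart
      | succ i ih2 =>
        have h := hstep (-((m : ℤ) + 1) + i)
        rw [sub_eq_iff_eq_add] at h
        rw [← add_assoc, h]
        exact (AA (Dl n 1)).add_mem (ih' _) ih2
      | pred i ih2 =>
        have h := hstep (-((m : ℤ) + 1) + (-i - 1))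
        have e1 : -((m : ℤ) + 1) + (-i - 1) + 1 = -((m : ℤ) + 1) + -i := by ring
        rw [e1] at h
        rw [sub_eq_iff_eq_add, ← sub_eq_iff_eq_add'] at h
        rw [← h]
        exact (AA (Dl n 1)).sub_mem ih2 (ih' _)
    have h := hall (a + ((m : ℤ) + 1))
    have e1 : -((m : ℤ) + 1) + (a + ((m : ℤ) + 1)) = a := by ring
    rwa [e1] at h

/-- products of bricks -/
theorem bricks {n : ℕ} (r : ℕ) (a : ℤ) : ∃ f ∈ AA (Dl n 1),
    QN a (r * n) = PowerSeries.C ((n.factorial : ℚ)) ^ r * f := by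
  induction r with
  | zero =>
    refine ⟨1, (AA (Dl n 1)).one_mem, ?_⟩
    simp [QN]
  | succ r ih =>
    obtain ⟨f, hf, h⟩ := ih
    refine ⟨f * (PowerSeries.C ((n.factorial : ℚ)⁻¹) * QN (a + (r * n : ℕ)) n),
      (AA (Dl n 1)).mul_mem hf (brick n le_rfl _), ?_⟩
    have h1 : QN a ((r + 1) * n) = QN a (r * n) * QN (a + (r * n : ℕ)) n := by
      unfold QN
      rw [add_mul, one_mul, Finset.prod_range_add]
      congr 1
      refine Finset.prod_congr rfl fun j _ => ?_
      push_cast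
      congr 2
      ring
    have h2 : PowerSeries.C ((n.factorial : ℚ)) * PowerSeries.C ((n.factorial : ℚ)⁻¹) =
        (1 : PowerSeries ℚ) := by
      rw [← map_mul, mul_inv_cancel₀ (by exact_mod_cast Nat.factorial_ne_zero n), map_one]
    rw [h1, h, pow_succ]
    calc PowerSeries.C ((n.factorial : ℚ)) ^ r * f * QN (a + (r * n : ℕ)) n
        = PowerSeries.C ((n.factorial : ℚ)) ^ r * (PowerSeries.C ((n.factorial : ℚ)) *
          PowerSeries.C ((n.factorial : ℚ)⁻¹)) * (f * QN (a + (r * n : ℕ)) n) := by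
          rw [h2]; ring
      _ = _ := by ring

/-- the product of the differences -/
theorem prod_diff (k t : ℕ) : ∏ m ∈ (Finset.range (k + 1 + t)).erase k, ((m : ℤ) - k) =
    (-1) ^ k * (k.factorial * t.factorial : ℕ) := by
  have h1 : ∏ m ∈ (Finset.range (k + 1 + t)).erase k, ((m : ℤ) - k) =
      ∏ m ∈ Finset.range (k + 1 + t), (if m = k then 1 else ((m : ℤ) - k)) := by
    rw [← Finset.mul_prod_erase (Finset.range (k + 1 + t)) _
      (Finset.mem_range.2 (by omega : k < k + 1 + t)), if_pos rfl, one_mul]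
    refine Finset.prod_congr rfl fun m hm => ?_
    rw [if_neg (Finset.ne_of_mem_erase hm)]
  rw [h1, Finset.prod_range_add, Finset.prod_range_succ, if_pos rfl, mul_one]
  have h2 : ∏ m ∈ Finset.range k, (if m = k then 1 else ((m : ℤ) - k)) =
      (-1) ^ k * (k.factorial : ℤ) := by
    rw [← Finset.prod_range_add_one_eq_factorial, ← Finset.prod_range_reflect]
    push_cast
    rw [← Finset.card_range k, ← Finset.prod_const, Finset.card_range, ← Finset.prod_mul_distrib]
    refine Finset.prod_congr rfl fun m hm => ?_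
    rw [Finset.mem_range] at hm
    rw [if_neg (by omega)]
    have : ((k - 1 - m : ℕ) : ℤ) = (k : ℤ) - 1 - m := by omega
    rw [this]
    ring
  have h3 : ∏ x ∈ Finset.range t, (if k + 1 + x = k then 1 else (((k + 1 + x : ℕ) : ℤ) - k)) =
      (t.factorial : ℤ) := by
    rw [← Finset.prod_range_add_one_eq_factorial]
    push_cast
    refine Finset.prod_congr rfl fun m hm => ?_
    rw [if_neg (by omega)]
    ring
  rw [h2, h3]
  push_cast
  ring

/-- the inverse factors -/
theorem W_mem {n k : ℕ} (hk : k < n) :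
    PowerSeries.C (n.factorial : ℚ) * ∏ m ∈ (Finset.range n).erase k, iv (-(k : ℚ) + m) ∈
      AA (Dl n 1) := by
  obtain ⟨t, rfl⟩ : ∃ t, n = k + 1 + t := ⟨n - (k + 1), by omega⟩
  set n := k + 1 + t with hn
  -- the integer quotient
  have hq : ∃ z : ℤ, (n.factorial : ℚ) = z * ∏ m ∈ (Finset.range n).erase k, ((m : ℚ) - k) := by
    have h1 := prod_diff k t
    have h2 : k.factorial * t.factorial ∣ n.factorial := by
      refine (Nat.factorial_mul_factorial_dvd_factorial_add k t).trans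
        (Nat.factorial_dvd_factorial (by omega))
    obtain ⟨c, hc⟩ := h2
    refine ⟨(-1) ^ k * c, ?_⟩
    have h3 : ∏ m ∈ (Finset.range n).erase k, ((m : ℚ) - k) =
        ((∏ m ∈ (Finset.range (k + 1 + t)).erase k, ((m : ℤ) - k) : ℤ) : ℚ) := by
      push_cast
      rfl
    rw [h3, h1, hc]
    push_cast
    have h4 : ((-1 : ℚ)) ^ k * (-1) ^ k = 1 := by
      rw [← mul_pow]
      norm_num
    calc (k.factorial : ℚ) * t.factorial * c = ((-1 : ℚ) ^ k * (-1) ^ k) *
          (k.factorial * t.factorial * c) := by rw [h4]; ring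
      _ = _ := by ring
  obtain ⟨z, hz⟩ := hq
  have h5 : PowerSeries.C (n.factorial : ℚ) * ∏ m ∈ (Finset.range n).erase k, iv (-(k : ℚ) + m) =
      PowerSeries.C (z : ℚ) * ∏ m ∈ (Finset.range n).erase k,
        (PowerSeries.C ((((m : ℤ) - k : ℤ)) : ℚ) * iv ((((m : ℤ) - k : ℤ)) : ℚ)) := by
    rw [hz, map_mul, map_prod, mul_assoc, ← Finset.prod_mul_distrib]
    congr 1
    refine Finset.prod_congr rfl fun m _ => ?_
    push_cast
    rw [show -(k : ℚ) + m = (m : ℚ) - k by ring]
  rw [h5]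
  refine (AA (Dl n 1)).mul_mem (C_mem _ _) ((AA (Dl n 1)).prod_mem fun m hm => ?_)
  rw [Finset.mem_erase, Finset.mem_range] at hm
  exact iv_mem (by omega) (by omega)

/-- the numerator -/
theorem TS_Zn (n r k : ℕ) : TS (-(k : ℚ)) ((Zn n r).comp (yp n)) =
    QN (-(k : ℤ) - (r * n : ℕ) - 1) (r * n) * QN ((n : ℤ) - 1 - k) (r * n) := by
  have h1 : (Zn n r).comp (yp n) = ∏ j ∈ Finset.range (r * n),
      ((X + C (-((j : ℚ) + 1))) * (X + C (((n : ℚ) - 1) + ((j : ℚ) + 1)))) := by
    unfold Zn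
    rw [Polynomial.prod_comp]
    have h2 : Finset.Icc 1 (r * n) = (Finset.range (r * n)).image (fun j => j + 1) := by
      ext x
      simp only [Finset.mem_Icc, Finset.mem_image, Finset.mem_range]
      constructor
      · rintro ⟨a, b⟩
        exact ⟨x - 1, by omega, by omega⟩
      · rintro ⟨y, a, b⟩
        omega
    rw [h2, Finset.prod_image (fun a _ b _ h => Nat.succ_injective h)]
    refine Finset.prod_congr rfl fun j _ => ?_
    rw [Polynomial.sub_comp, Polynomial.X_comp, Polynomial.C_comp]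
    unfold yp
    push_cast
    simp only [map_mul, map_add, map_sub, map_neg, map_one]
    ring
  rw [h1, map_prod, Finset.prod_congr rfl fun j _ => by rw [map_mul, TS_lin, TS_lin],
    Finset.prod_mul_distrib]
  congr 1
  · unfold QN
    rw [← Finset.prod_range_reflect]
    refine Finset.prod_congr rfl fun j hj => ?_
    rw [Finset.mem_range] at hj
    have h3 : ((r * n - 1 - j : ℕ) : ℚ) = ((r * n : ℕ) : ℚ) - 1 - j := by
      rw [Nat.cast_sub (by omega), Nat.cast_sub (by omega)]
      simp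
    rw [h3]
    push_cast
    congr 2
    ring
  · unfold QN
    refine Finset.prod_congr rfl fun j _ => ?_
    push_cast
    congr 2
    ring

end BK

open BK

theorem t_bk : S_BK := by
  intro n h r k i hn hr hk h1i hi
  have hF : TS (-(k : ℚ)) (Pn n h r) * VV ((sP n).erase k) (mP h) (-(k : ℚ)) ∈ AA (Dl n 1) := by
    obtain ⟨f1, hf1, e1⟩ := bricks (n := n) r (-(k : ℤ) - (r * n : ℕ) - 1)
    obtain ⟨f2, hf2, e2⟩ := bricks (n := n) r ((n : ℤ) - 1 - k)
    have e3 : TS (-(k : ℚ)) (Pn n h r) = PowerSeries.C (n.factorial : ℚ) ^ (2 * h - 2 * r) *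
        ((PowerSeries.C ((2 : ℤ) : ℚ) * PowerSeries.X +
          PowerSeries.C (((n : ℤ) - 1 - 2 * k : ℤ) : ℚ)) *
          ((PowerSeries.C (n.factorial : ℚ) ^ r * f1) *
            (PowerSeries.C (n.factorial : ℚ) ^ r * f2))) := by
      unfold Pn num
      rw [map_mul, map_mul, TS_C, TS_Zn, e1, e2, map_pow, map_add, map_mul, TS_X, TS_C, TS_C]
      congr 2
      push_cast
      rw [mul_add, add_assoc, ← map_mul, ← map_add]
      congr 2
      ring
    have e4 : VV ((sP n).erase k) (mP h) (-(k : ℚ)) =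
        (∏ m ∈ (Finset.range n).erase k, iv (-(k : ℚ) + m)) ^ (2 * h) := by
      unfold VV
      rw [Finset.prod_pow]
    have e5 : TS (-(k : ℚ)) (Pn n h r) * VV ((sP n).erase k) (mP h) (-(k : ℚ)) =
        (PowerSeries.C ((2 : ℤ) : ℚ) * PowerSeries.X +
          PowerSeries.C (((n : ℤ) - 1 - 2 * k : ℤ) : ℚ)) * (f1 * f2) *
          (PowerSeries.C (n.factorial : ℚ) *
            ∏ m ∈ (Finset.range n).erase k, iv (-(k : ℚ) + m)) ^ (2 * h) := by
      have e6 : PowerSeries.C (n.factorial : ℚ) ^ (2 * h) = PowerSeries.C (n.factorial : ℚ) ^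
          (2 * h - 2 * r) * (PowerSeries.C (n.factorial : ℚ) ^ r *
            PowerSeries.C (n.factorial : ℚ) ^ r) := by
        rw [← pow_add, ← pow_add]
        congr 1
        omega
      rw [e3, e4, mul_pow, e6]
      ring
    rw [e5]
    refine (AA (Dl n 1)).mul_mem ((AA (Dl n 1)).mul_mem ?_ ((AA (Dl n 1)).mul_mem hf1 hf2))
      ((AA (Dl n 1)).pow_mem (W_mem hk) _)
    exact (AA (Dl n 1)).add_mem ((AA (Dl n 1)).mul_mem (C_mem _ _) (X_mem _)) (C_mem _ _)
  obtain ⟨z, hz⟩ := hF (2 * h - i)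
  refine ⟨z, ?_⟩
  rw [← hz]
  unfold pa pfc
  rw [if_pos (show i ≤ mP h k from hi)]

end

end Pool.Agent.W245.BR
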