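import Pool.Agent.W245.BR.Stm
import Pool.Agent.W165.OZ.DL

/-!
# Size of the coefficients
-/

open Polynomial Pool.Agent.H337R2 Filter Topology Pool.Agent.W165.OZ

namespace Pool.Agent.W245.BR

noncomputable section

namespace CFB

lemma hs_nonneg (i m : ℕ) : 0 ≤ hs i m := by
  unfold hs
  exact Finset.sum_nonneg fun l _ => by positivity

lemma hs_le (i m : ℕ) : hs i m ≤ m := by
  unfold hs
  calc ∑ l ∈ Finset.range m, 1 / ((l : ℚ) + 1) ^ i ≤ ∑ _l ∈ Finset.range m, (1 : ℚ) := by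
        refine Finset.sum_le_sum fun l _ => ?_
        have h1 : (1 : ℚ) ≤ ((l : ℚ) + 1) ^ i := one_le_pow₀ (by
          have : (0 : ℚ) ≤ l := Nat.cast_nonneg l
          linarith)
        rw [div_le_one (by positivity)]
        exact h1
    _ = m := by simp

lemma ev_log : ∃ n1 : ℕ, 1 ≤ n1 ∧ ∀ n ≥ n1,
    Real.sqrt (n : ℝ) * Real.log (n : ℝ) ≤ 1 / 10 * (n : ℝ) := by
  have h1 : (fun x : ℝ => Real.log x) =o[atTop] fun x : ℝ => x ^ (1 / 2 : ℝ) :=
    isLittleO_log_rpow_atTop (by norm_num)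
  have h2 := h1.def (show (0 : ℝ) < 1 / 10 by norm_num)
  have h3 := tendsto_natCast_atTop_atTop (R := ℝ) |>.eventually h2
  obtain ⟨n1, hn1⟩ := eventually_atTop.1 (h3.and (eventually_ge_atTop 1))
  refine ⟨max n1 1, le_max_right _ _, fun n hn => ?_⟩
  obtain ⟨h4, h5⟩ := hn1 n ((le_max_left _ _).trans hn)
  have hn0 : (1 : ℝ) ≤ n := by exact_mod_cast h5
  rw [Real.norm_of_nonneg (Real.log_nonneg hn0), Real.norm_of_nonneg (by positivity),
    ← Real.sqrt_eq_rpow] at h4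
  have h6 : Real.sqrt (n : ℝ) * Real.sqrt (n : ℝ) = n := Real.mul_self_sqrt (by positivity)
  calc Real.sqrt (n : ℝ) * Real.log (n : ℝ) ≤
        Real.sqrt (n : ℝ) * (1 / 10 * Real.sqrt (n : ℝ)) :=
        mul_le_mul_of_nonneg_left h4 (Real.sqrt_nonneg _)
    _ = 1 / 10 * (Real.sqrt (n : ℝ) * Real.sqrt (n : ℝ)) := by ring
    _ = 1 / 10 * (n : ℝ) := by rw [h6]

lemma Dl_pos (n B : ℕ) : 0 < Dl n B := by
  unfold Dl
  refine Finset.prod_pos fun p hp => ?_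
  rw [Finset.mem_filter] at hp
  exact pow_pos hp.2.pos _

lemma D_le : ∃ n1 : ℕ, 1 ≤ n1 ∧ ∀ n ≥ n1, ∀ h : ℕ,
    ((Dl n 1 : ℕ) : ℝ) ^ (2 * h) ≤ Real.exp (3 * h * n) := by
  obtain ⟨n1, hn1, H⟩ := ev_log
  refine ⟨n1, hn1, fun n hn h => ?_⟩
  have h1 := t_dl n 1 (hn1.trans hn) le_rfl
  have h2 := H n hn
  have hpos : (0 : ℝ) < ((Dl n 1 : ℕ) : ℝ) := by exact_mod_cast Dl_pos n 1
  rw [Nat.cast_one, one_mul] at h1
  have h4 : Real.log 4 ≤ 7 / 5 := by
    have : Real.log 4 = 2 * Real.log 2 := by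
      rw [show (4 : ℝ) = 2 ^ 2 by norm_num, Real.log_pow]; norm_num
    rw [this]
    have := Real.log_two_lt_d9
    linarith
  have hn0 : (0 : ℝ) ≤ n := Nat.cast_nonneg n
  have h5 : Real.log ((Dl n 1 : ℕ) : ℝ) ≤ 3 / 2 * n := by nlinarith
  have h6 : ((Dl n 1 : ℕ) : ℝ) ≤ Real.exp (3 / 2 * n) := by
    rw [← Real.exp_log hpos]
    exact Real.exp_le_exp.2 h5
  calc ((Dl n 1 : ℕ) : ℝ) ^ (2 * h) ≤ Real.exp (3 / 2 * n) ^ (2 * h) :=
        pow_le_pow_left₀ hpos.le h6 _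
    _ = Real.exp (3 * h * n) := by
        rw [← Real.exp_nat_mul]
        congr 1
        push_cast
        ring

end CFB

open CFB in
theorem t_cfb (hSIZ : S_SIZ) : S_CFB := by
  intro h r hr hrh
  have hh : 1 ≤ h := le_trans (Nat.mul_pos hr hr) hrh
  obtain ⟨n0, h0⟩ := hSIZ h r hr hrh
  obtain ⟨n1, hn1, H1⟩ := D_le
  refine ⟨max n0 n1, fun n hn => ?_⟩
  have hn0 : n0 ≤ n := (le_max_left _ _).trans hn
  have hn1' : n1 ≤ n := (le_max_right _ _).trans hn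
  have hn2 : 1 ≤ n := hn1.trans hn1'
  have hD := H1 n hn1' h
  have hDnn : (0 : ℝ) ≤ ((Dl n 1 : ℕ) : ℝ) ^ (2 * h) := by positivity
  have hpa := h0 n hn0
  have hne : (n : ℝ) ≤ Real.exp n := by
    have := Real.add_one_le_exp (n : ℝ)
    linarith
  have hh' : (1 : ℝ) ≤ h := by exact_mod_cast hh
  have hn' : (1 : ℝ) ≤ n := by exact_mod_cast hn2
  have hhn : (n : ℝ) ≤ h * n := by nlinarith
  constructor
  · intro i hi1 hi2
    unfold Ac rhoP
    push_cast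
    rw [abs_mul, abs_of_nonneg hDnn]
    have h1 : |∑ k ∈ sP n, ((pa (sP n) (mP h) (Pn n h r) k i : ℚ) : ℝ)| ≤
        n * Real.exp (30 * h * n) := by
      calc |∑ k ∈ sP n, ((pa (sP n) (mP h) (Pn n h r) k i : ℚ) : ℝ)|
          ≤ ∑ k ∈ sP n, |((pa (sP n) (mP h) (Pn n h r) k i : ℚ) : ℝ)| :=
            Finset.abs_sum_le_sum_abs _ _
        _ ≤ ∑ _k ∈ sP n, Real.exp (30 * h * n) :=
            Finset.sum_le_sum fun k hk => hpa k i (Finset.mem_range.1 hk) hi1 hi2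
        _ = n * Real.exp (30 * h * n) := by simp
    calc ((Dl n 1 : ℕ) : ℝ) ^ (2 * h) * |∑ k ∈ sP n, ((pa (sP n) (mP h) (Pn n h r) k i : ℚ) : ℝ)|
        ≤ Real.exp (3 * h * n) * (Real.exp n * Real.exp (30 * h * n)) := by
          apply mul_le_mul hD _ (abs_nonneg _) (Real.exp_pos _).le
          exact h1.trans (mul_le_mul_of_nonneg_right hne (Real.exp_pos _).le)
      _ = Real.exp (3 * h * n + (n + 30 * h * n)) := by rw [Real.exp_add, Real.exp_add]
      _ ≤ Real.exp (40 * h * n) := Real.exp_le_exp.2 (by nlinarith)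
  · unfold Bc
    push_cast
    rw [abs_mul, abs_of_nonneg hDnn]
    have h2h : (2 * h : ℝ) ≤ Real.exp (2 * (h * n)) := by
      have := Real.add_one_le_exp (2 * (h * n) : ℝ)
      nlinarith
    have hterm : ∀ i ∈ Finset.Icc 1 (2 * h), ∀ k ∈ sP n,
        |((pa (sP n) (mP h) (Pn n h r) k i : ℚ) : ℝ) * ((hs i (k + 1) : ℚ) : ℝ)| ≤
          Real.exp (30 * h * n) * n := by
      intro i hi k hk
      rw [Finset.mem_Icc] at hi
      have hk' := Finset.mem_range.1 hk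
      rw [abs_mul]
      have h3 : (0 : ℝ) ≤ ((hs i (k + 1) : ℚ) : ℝ) := by exact_mod_cast hs_nonneg i (k + 1)
      have h4 : ((hs i (k + 1) : ℚ) : ℝ) ≤ n := by
        have h5 := hs_le i (k + 1)
        have h6 : (((k + 1 : ℕ)) : ℚ) ≤ n := by exact_mod_cast hk'
        exact_mod_cast h5.trans h6
      rw [abs_of_nonneg h3]
      exact mul_le_mul (hpa k i hk' hi.1 hi.2) h4 h3 (Real.exp_pos _).le
    have h1 : |∑ i ∈ Finset.Icc 1 (2 * h), ∑ k ∈ sP n,
        ((pa (sP n) (mP h) (Pn n h r) k i : ℚ) : ℝ) * ((hs i (k + 1) : ℚ) : ℝ)| ≤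
        (2 * h) * (n * (Real.exp (30 * h * n) * n)) := by
      calc |∑ i ∈ Finset.Icc 1 (2 * h), ∑ k ∈ sP n,
            ((pa (sP n) (mP h) (Pn n h r) k i : ℚ) : ℝ) * ((hs i (k + 1) : ℚ) : ℝ)|
          ≤ ∑ i ∈ Finset.Icc 1 (2 * h), |∑ k ∈ sP n,
            ((pa (sP n) (mP h) (Pn n h r) k i : ℚ) : ℝ) * ((hs i (k + 1) : ℚ) : ℝ)| :=
            Finset.abs_sum_le_sum_abs _ _
        _ ≤ ∑ _i ∈ Finset.Icc 1 (2 * h), (n * (Real.exp (30 * h * n) * n)) := by
            refine Finset.sum_le_sum fun i hi => ?_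
            calc |∑ k ∈ sP n,
                  ((pa (sP n) (mP h) (Pn n h r) k i : ℚ) : ℝ) * ((hs i (k + 1) : ℚ) : ℝ)|
                ≤ ∑ k ∈ sP n,
                  |((pa (sP n) (mP h) (Pn n h r) k i : ℚ) : ℝ) * ((hs i (k + 1) : ℚ) : ℝ)| :=
                  Finset.abs_sum_le_sum_abs _ _
              _ ≤ ∑ _k ∈ sP n, (Real.exp (30 * h * n) * n) :=
                  Finset.sum_le_sum fun k hk => hterm i hi k hk
              _ = n * (Real.exp (30 * h * n) * n) := by simp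
        _ = (2 * h) * (n * (Real.exp (30 * h * n) * n)) := by simp
    have hE := Real.exp_pos (30 * h * n : ℝ)
    have h7 : (2 * h : ℝ) * (n * (Real.exp (30 * h * n) * n)) ≤
        Real.exp (2 * (h * n)) * (Real.exp n * (Real.exp (30 * h * n) * Real.exp n)) := by
      gcongr
    calc ((Dl n 1 : ℕ) : ℝ) ^ (2 * h) * |∑ i ∈ Finset.Icc 1 (2 * h), ∑ k ∈ sP n,
            ((pa (sP n) (mP h) (Pn n h r) k i : ℚ) : ℝ) * ((hs i (k + 1) : ℚ) : ℝ)|
        ≤ Real.exp (3 * h * n) *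
            (Real.exp (2 * (h * n)) * (Real.exp n * (Real.exp (30 * h * n) * Real.exp n))) := by
          apply mul_le_mul hD _ (abs_nonneg _) (Real.exp_pos _).le
          exact h1.trans h7
      _ = Real.exp (3 * h * n + (2 * (h * n) + (n + (30 * h * n + n)))) := by
          rw [Real.exp_add, Real.exp_add, Real.exp_add, Real.exp_add]
      _ ≤ Real.exp (40 * h * n) := Real.exp_le_exp.2 (by nlinarith)

end

end Pool.Agent.W245.BR
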