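import Pool.Agent.W245.BR.Stm
import Pool.Agent.W165.OZ.DL

set_option autoImplicit false
set_option linter.all false

/-!
# The theorem of Ball and Rivoal: the end of the proof
-/

open Polynomial Pool.Agent.H337R2 Filter Topology Pool.Agent.W165.OZ

namespace Pool.Agent.W245.BR

noncomputable section

namespace FIN

/-- the numbers -/
def xi (h : ℕ) (i : Fin h) : ℝ := if i.1 = 0 then (1 : ℝ) else zr (2 * i.1 + 1)

/-- the coefficients -/
def pc (h r n : ℕ) (i : Fin h) : ℤ := if i.1 = 0 then -⌊Bc n h r⌋ else ⌊Ac n h r (2 * i.1 + 1)⌋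

theorem pc_cast (hINT : S_INT) (n h r : ℕ) (hn : 1 ≤ n) (hr : r ≤ h) (i : Fin h) :
    (pc h r n i : ℝ) = if i.1 = 0 then -((Bc n h r : ℚ) : ℝ) else ((Ac n h r (2 * i.1 + 1) : ℚ) : ℝ) := by
  obtain ⟨h1, h2⟩ := hINT n h r hn hr
  unfold pc
  split_ifs with hi
  · obtain ⟨z, hz⟩ := h2
    rw [hz, Int.floor_intCast]
    push_cast
    rfl
  · have hi2 := i.2
    obtain ⟨z, hz⟩ := h1 (2 * i.1 + 1) (by omega) (by omega)
    rw [hz, Int.floor_intCast]
    push_cast
    rfl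

theorem Od_eq (h' : ℕ) : Od (h' + 1) = (Finset.range h').image (fun j => 2 * j + 3) := by
  ext i
  unfold Od
  simp only [Finset.mem_filter, Finset.mem_Icc, Finset.mem_image, Finset.mem_range]
  constructor
  · rintro ⟨⟨h1, h2⟩, ⟨k, hk⟩, h3⟩
    exact ⟨k - 1, by omega, by omega⟩
  · rintro ⟨j, hj, rfl⟩
    exact ⟨⟨by omega, by omega⟩, ⟨j + 1, by ring⟩, by omega⟩

theorem form (hSUM : S_SUM) (hINT : S_INT) (n h r : ℕ) (hn : 2 ≤ n) (hr : r < h) :
    ∑ i, (pc h r n i : ℝ) * xi h i = ((Dl n 1 : ℕ) : ℝ) ^ (2 * h) * Sn n h r := by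
  rw [(hSUM n h r hn hr).2]
  have e1 : ∑ i : Fin h, (pc h r n i : ℝ) * xi h i = ∑ i : Fin h, (fun j : ℕ =>
      if j = 0 then -((Bc n h r : ℚ) : ℝ) else ((Ac n h r (2 * j + 1) : ℚ) : ℝ) * zr (2 * j + 1)) i := by
    refine Finset.sum_congr rfl fun i _ => ?_
    rw [pc_cast hINT n h r (by omega) hr.le]
    unfold xi
    simp only
    split_ifs with hi
    · ring
    · rfl
  rw [e1, ← Finset.sum_range (fun j : ℕ =>
      if j = 0 then -((Bc n h r : ℚ) : ℝ) else ((Ac n h r (2 * j + 1) : ℚ) : ℝ) * zr (2 * j + 1))]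
  obtain ⟨h', rfl⟩ : ∃ h', h = h' + 1 := ⟨h - 1, by omega⟩
  rw [Finset.sum_range_succ', Od_eq, Finset.sum_image (by intro a _ b _ hab; simp only at hab; omega)]
  simp only [Nat.add_eq_zero_iff, one_ne_zero, and_false, if_false, if_true]
  rw [← sub_eq_add_neg]
  congr 1

theorem log_sqrt (n : ℕ) (hn : 2560000 ≤ n) : Real.sqrt n * Real.log n ≤ n / 10 := by
  set x : ℝ := Real.sqrt (Real.sqrt n) with hx
  have hn0 : (0 : ℝ) ≤ (n : ℝ) := Nat.cast_nonneg n
  have h1 : x ^ 2 = Real.sqrt n := Real.sq_sqrt (Real.sqrt_nonneg _)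
  have h2 : Real.sqrt n ^ 2 = n := Real.sq_sqrt hn0
  have h4 : x ^ 4 = (n : ℝ) := by
    rw [show x ^ 4 = (x ^ 2) ^ 2 by ring, h1, h2]
  have hx40 : 40 ≤ x := by
    rw [hx]
    apply Real.le_sqrt_of_sq_le
    apply Real.le_sqrt_of_sq_le
    calc ((40 : ℝ) ^ 2) ^ 2 = ((2560000 : ℕ) : ℝ) := by norm_num
      _ ≤ (n : ℝ) := by exact_mod_cast hn
  have hlog : Real.log n ≤ 4 * x := by
    rw [← h4, Real.log_pow]
    have := Real.log_le_sub_one_of_pos (show 0 < x by linarith)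
    push_cast
    linarith
  calc Real.sqrt n * Real.log n ≤ Real.sqrt n * (4 * x) :=
        mul_le_mul_of_nonneg_left hlog (Real.sqrt_nonneg _)
    _ = 4 * x ^ 3 := by rw [← h1]; ring
    _ ≤ x ^ 4 / 10 := by
        have : 0 ≤ x ^ 3 := by positivity
        nlinarith
    _ = n / 10 := by rw [h4]

theorem Dl_le (hDM : S_DM) (n : ℕ) (hn : 2560000 ≤ n) : ((Dl n 1 : ℕ) : ℝ) ≤ Real.exp (3 / 2 * n) := by
  have h1 := t_dl n 1 (by omega) le_rfl
  have h0 : (0 : ℝ) < ((Dl n 1 : ℕ) : ℝ) := by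
    have := (hDM n).1
    exact_mod_cast this
  rw [← Real.log_le_iff_le_exp h0]
  have h2 := log_sqrt n hn
  simp only [Nat.cast_one, one_mul] at h1
  have h3 : Real.log 4 ≤ 1.3864 := by
    have : (4 : ℝ) = 2 ^ 2 := by norm_num
    rw [this, Real.log_pow]
    have := Real.log_two_lt_d9
    push_cast
    linarith
  have hn0 : (0 : ℝ) ≤ (n : ℝ) := Nat.cast_nonneg n
  have h4 : (n : ℝ) * Real.log 4 ≤ n * 1.3864 := mul_le_mul_of_nonneg_left h3 hn0
  linarith

theorem one_le_rank (h : ℕ) (hh : 1 ≤ h) : 1 ≤ Module.finrank ℚ (Submodule.span ℚ (Set.range (xi h))) := by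
  haveI : Module.Finite ℚ (Submodule.span ℚ (Set.range (xi h))) :=
    Module.Finite.span_of_finite ℚ (Set.finite_range _)
  have h1 : (1 : ℝ) ∈ Submodule.span ℚ (Set.range (xi h)) :=
    Submodule.subset_span ⟨⟨0, hh⟩, by simp [xi]⟩
  haveI : Nontrivial (Submodule.span ℚ (Set.range (xi h))) :=
    ⟨⟨⟨1, h1⟩, 0, fun hc => one_ne_zero (congrArg Subtype.val hc)⟩⟩
  exact Module.finrank_pos

end FIN

open FIN in
theorem t_br (hNC : S_NC) (hSUM : S_SUM) (hDM : S_DM) (hINT : S_INT) (hCFB : S_CFB)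
    (hPOS : S_POS) (hUP : S_UP) (hRAT : S_RAT) : S_BR := by
  refine ⟨1 / 80, by norm_num, fun h hh => ?_⟩
  change 1 / 80 * Real.log h ≤ (Module.finrank ℚ (Submodule.span ℚ (Set.range (xi h))) : ℝ)
  have hrk : (1 : ℝ) ≤ (Module.finrank ℚ (Submodule.span ℚ (Set.range (xi h))) : ℝ) := by
    exact_mod_cast one_le_rank h hh
  rcases le_or_gt (Real.log h) 80 with hlog | hlog
  · linarith
  set r : ℕ := Nat.sqrt h with hr
  have hrr : r * r ≤ h := Nat.sqrt_le h
  have hrr' : h < (r + 1) * (r + 1) := Nat.lt_succ_sqrt h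
  have hh0 : (0 : ℝ) < (h : ℝ) := by exact_mod_cast hh
  have hr1 : 1 ≤ r := by
    rcases Nat.eq_zero_or_pos r with h0 | h0
    · rw [h0] at hrr'
      omega
    · exact h0
  have hr0 : (0 : ℝ) < (r : ℝ) := by exact_mod_cast hr1
  have hlr : Real.log h ≤ 2 * Real.log 2 + 2 * Real.log r := by
    have h1 : (h : ℝ) ≤ (2 * r) ^ 2 := by
      have : h ≤ (2 * r) ^ 2 := by nlinarith
      exact_mod_cast this
    have h2 := Real.log_le_log hh0 h1
    rw [Real.log_pow, Real.log_mul (by norm_num) hr0.ne'] at h2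
    push_cast at h2
    linarith
  have hl2 := Real.log_two_lt_d9
  have hlr' : 39 < Real.log r := by linarith
  have hr40 : 40 ≤ r := by
    have h1 : Real.exp 39 < r := by
      rw [← Real.lt_log_iff_exp_lt hr0]
      exact hlr'
    have h2 := Real.add_one_le_exp (39 : ℝ)
    have h3 : (39 : ℝ) < r := by linarith
    have : 39 < r := by exact_mod_cast h3
    omega
  have hr3 : 3 * r + 3 ≤ h := by nlinarith
  have hrh : r < h := by omega
  obtain ⟨n1, hn1⟩ := hCFB h r hr1 hrr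
  obtain ⟨n2, hn2⟩ := hUP h r (by omega) hrr
  obtain ⟨c, hc, hc'⟩ := hRAT h r hr1 hr3
  have hDpos : ∀ n, (0 : ℝ) < ((Dl n 1 : ℕ) : ℝ) := by
    intro n
    have := (hDM n).1
    exact_mod_cast this
  have key := hNC h (xi h) (fun n => pc h r n) (h * (Real.log r - 4)) (40 * h) c
    (max (max n1 n2) 2560000) (mul_pos hh0 (by linarith)) (by positivity) hc ?_ ?_ ?_ ?_
  · have h1 : (h : ℝ) * (Real.log r - 4) ≤ h * (40 *
        ((Module.finrank ℚ (Submodule.span ℚ (Set.range (xi h))) : ℝ) - 1)) := by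
      linarith
    have h2 := le_of_mul_le_mul_left h1 hh0
    linarith
  · intro n hn i
    have hn1' : n1 ≤ n := le_trans (le_trans (le_max_left _ _) (le_max_left _ _)) hn
    have hn3 : 2560000 ≤ n := le_trans (le_max_right _ _) hn
    obtain ⟨hA, hB⟩ := hn1 n hn1'
    show |((pc h r n i : ℤ) : ℝ)| ≤ _
    rw [pc_cast hINT n h r (by omega) hrh.le]
    have hi := i.2
    split_ifs with h0
    · rw [abs_neg]
      exact hB
    · exact hA _ (by omega) (by omega)
  · intro n hn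
    have hn3 : 2560000 ≤ n := le_trans (le_max_right _ _) hn
    rw [form hSUM hINT n h r (by omega) hrh]
    exact mul_pos (pow_pos (hDpos n) _) (hc' n (by omega)).1
  · intro n hn
    have hn2' : n2 ≤ n := le_trans (le_trans (le_max_right _ _) (le_max_left _ _)) hn
    have hn3 : 2560000 ≤ n := le_trans (le_max_right _ _) hn
    rw [form hSUM hINT n h r (by omega) hrh]
    have h1 : ((Dl n 1 : ℕ) : ℝ) ^ (2 * h) ≤ Real.exp (3 * h * n) := by
      calc ((Dl n 1 : ℕ) : ℝ) ^ (2 * h) ≤ Real.exp (3 / 2 * n) ^ (2 * h) :=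
            pow_le_pow_left₀ (hDpos n).le (Dl_le hDM n hn3) _
        _ = Real.exp (3 * h * n) := by
            rw [← Real.exp_nat_mul]
            congr 1
            push_cast
            ring
    calc ((Dl n 1 : ℕ) : ℝ) ^ (2 * h) * Sn n h r
        ≤ Real.exp (3 * h * n) * Real.exp (-(h * n * (Real.log r - 1))) :=
          mul_le_mul h1 (hn2 n hn2') (hc' n (by omega)).1.le (Real.exp_pos _).le
      _ = Real.exp (-(h * (Real.log r - 4) * n)) := by
          rw [← Real.exp_add]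
          congr 1
          ring
  · intro n hn _
    have hn3 : 2560000 ≤ n := le_trans (le_max_right _ _) hn
    rw [form hSUM hINT n h r (by omega) hrh, form hSUM hINT (n + 1) h r (by omega) hrh]
    have h1 : ((Dl n 1 : ℕ) : ℝ) ^ (2 * h) ≤ ((Dl (n + 1) 1 : ℕ) : ℝ) ^ (2 * h) := by
      apply pow_le_pow_left₀ (hDpos n).le
      exact_mod_cast (hDM n).2
    calc c / (n : ℝ) ^ 2 * (((Dl n 1 : ℕ) : ℝ) ^ (2 * h) * Sn n h r)
        = ((Dl n 1 : ℕ) : ℝ) ^ (2 * h) * (c / (n : ℝ) ^ 2 * Sn n h r) := by ring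
      _ ≤ ((Dl (n + 1) 1 : ℕ) : ℝ) ^ (2 * h) * Sn (n + 1) h r := by
          apply mul_le_mul h1 (hc' n (by omega)).2
          · exact mul_nonneg (by positivity) (hc' n (by omega)).1.le
          · positivity

end

end Pool.Agent.W245.BR
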