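import Pool.Agent.W245.BR.Stm

/-!
Task BR-HN: integrality of harmonic sums, monotonicity of `Dl n 1`, integrality of the linear forms.
-/

open Polynomial Pool.Agent.H337R2 Filter Topology Pool.Agent.W165.OZ

namespace Pool.Agent.W245.BR

namespace HN

lemma Dl_pos' (n B : ℕ) : 0 < Dl n B := by
  unfold Dl
  exact Finset.prod_pos fun p hp => Nat.pow_pos (Finset.mem_filter.1 hp).2.pos

/-- every `l ≤ n` divides `Dl n 1` -/
lemma dvd_Dl (n l : ℕ) (h1 : 1 ≤ l) (hl : l ≤ n) : l ∣ Dl n 1 := by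
  have hl0 : l ≠ 0 := by omega
  have e2 : l = ∏ p ∈ l.primeFactors, p ^ l.factorization p :=
    (Nat.prod_factorization_pow_eq_self hl0).symm
  rw [e2]
  unfold Dl
  have hsub : l.primeFactors ⊆ (Finset.range (n + 1)).filter Nat.Prime := by
    intro p hp
    have hp1 := Nat.prime_of_mem_primeFactors hp
    have hp2 := Nat.le_of_dvd (by omega) (Nat.dvd_of_mem_primeFactors hp)
    rw [Finset.mem_filter, Finset.mem_range]
    exact ⟨by omega, hp1⟩
  refine dvd_trans ?_ (Finset.prod_dvd_prod_of_subset _ _ _ hsub)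
  refine Finset.prod_dvd_prod_of_dvd _ _ fun p hp => ?_
  apply pow_dvd_pow
  have hp1 := Nat.prime_of_mem_primeFactors hp
  apply Nat.le_log_of_pow_le hp1.one_lt
  have h3 : p ^ l.factorization p ∣ l := Nat.ordProj_dvd l p
  have h4 := Nat.le_of_dvd (by omega) h3
  omega

/-- integers -/
def II (x : ℚ) : Prop := ∃ z : ℤ, x = z

lemma II.mul {x y : ℚ} (hx : II x) (hy : II y) : II (x * y) := by
  obtain ⟨a, rfl⟩ := hx
  obtain ⟨b, rfl⟩ := hy
  exact ⟨a * b, by push_cast; ring⟩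

lemma II.sum {ι : Type*} (s : Finset ι) {f : ι → ℚ} (h : ∀ i ∈ s, II (f i)) : II (∑ i ∈ s, f i) := by
  classical
  induction s using Finset.induction_on with
  | empty => exact ⟨0, by simp⟩
  | insert a s ha ih =>
    obtain ⟨x, hx⟩ := h a (Finset.mem_insert_self a s)
    obtain ⟨y, hy⟩ := ih fun i hi => h i (Finset.mem_insert_of_mem hi)
    exact ⟨x + y, by rw [Finset.sum_insert ha, hx, hy]; push_cast; ring⟩

lemma II.nat (a : ℕ) : II (a : ℚ) := ⟨a, by simp⟩

lemma II.pow {x : ℚ} (hx : II x) (k : ℕ) : II (x ^ k) := by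
  obtain ⟨a, rfl⟩ := hx
  exact ⟨a ^ k, by push_cast; ring⟩

end HN

open HN

theorem t_hn : S_HN := by
  intro n i m hm
  change II _
  unfold hs
  rw [Finset.mul_sum]
  refine II.sum _ fun l hl => ?_
  have hl' := Finset.mem_range.1 hl
  obtain ⟨c, hc⟩ := dvd_Dl n (l + 1) (by omega) (by omega)
  have h0 : ((l : ℚ) + 1) ≠ 0 := by positivity
  have e : (Dl n 1 : ℚ) ^ i * (1 / ((l : ℚ) + 1) ^ i) = (c : ℚ) ^ i := by
    rw [hc]
    push_cast
    rw [mul_pow]
    field_simp
  rw [e]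
  exact (II.nat c).pow i

theorem t_dm : S_DM := by
  intro n
  refine ⟨Dl_pos' n 1, ?_⟩
  unfold Dl
  have hsub : (Finset.range (n + 1)).filter Nat.Prime ⊆
      (Finset.range (n + 1 + 1)).filter Nat.Prime := by
    intro p hp
    rw [Finset.mem_filter, Finset.mem_range] at *
    exact ⟨by omega, hp.2⟩
  calc ∏ p ∈ (Finset.range (n + 1)).filter Nat.Prime, p ^ Nat.log p (1 * n)
      ≤ ∏ p ∈ (Finset.range (n + 1)).filter Nat.Prime, p ^ Nat.log p (1 * (n + 1)) := by
        refine Finset.prod_le_prod' fun p hp => ?_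
        exact Nat.pow_le_pow_right (Finset.mem_filter.1 hp).2.pos (Nat.log_mono_right (by omega))
    _ ≤ ∏ p ∈ (Finset.range (n + 1 + 1)).filter Nat.Prime, p ^ Nat.log p (1 * (n + 1)) := by
        refine Finset.prod_le_prod_of_subset_of_one_le' hsub fun p hp _ => ?_
        exact Nat.pow_pos (Finset.mem_filter.1 hp).2.pos

theorem t_int (hBK : S_BK) (hHN : S_HN) : S_INT := by
  intro n h r hn hr
  constructor
  · intro i hi1 hi2
    change II _
    unfold Ac rhoP
    rw [Finset.mul_sum]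
    refine II.sum _ fun k hk => ?_
    have hk' := Finset.mem_range.1 hk
    have e : (Dl n 1 : ℚ) ^ (2 * h) * pa (sP n) (mP h) (Pn n h r) k i =
        (Dl n 1 : ℚ) ^ i * ((Dl n 1 : ℚ) ^ (2 * h - i) * pa (sP n) (mP h) (Pn n h r) k i) := by
      rw [← mul_assoc, ← pow_add]
      congr 2
      omega
    rw [e]
    exact ((II.nat _).pow i).mul (hBK n h r k i hn hr hk' hi1 hi2)
  · change II _
    unfold Bc
    rw [Finset.mul_sum]
    refine II.sum _ fun i hi => ?_
    rw [Finset.mem_Icc] at hi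
    rw [Finset.mul_sum]
    refine II.sum _ fun k hk => ?_
    have hk' := Finset.mem_range.1 hk
    have e : (Dl n 1 : ℚ) ^ (2 * h) * (pa (sP n) (mP h) (Pn n h r) k i * hs i (k + 1)) =
        ((Dl n 1 : ℚ) ^ (2 * h - i) * pa (sP n) (mP h) (Pn n h r) k i) *
          ((Dl n 1 : ℚ) ^ i * hs i (k + 1)) := by
      have e1 : (Dl n 1 : ℚ) ^ (2 * h) = (Dl n 1 : ℚ) ^ (2 * h - i) * (Dl n 1 : ℚ) ^ i := by
        rw [← pow_add]
        congr 1
        omega
      rw [e1]
      ring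
    rw [e]
    exact II.mul (hBK n h r k i hn hr hk' hi.1 hi.2) (hHN n i (k + 1) hk')

end Pool.Agent.W245.BR
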