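import Pool.Agent.W245.BR.Stm

/-!
# Part MON: `t ^ 2 R(t)` decreases for `t ≥ 4 r n`
-/

namespace Pool.Agent.W245.BR

namespace MON

lemma tA (m : ℕ) (t : ℝ) : (∏ j ∈ Finset.Icc 1 m, (t + 1 - (j : ℝ))) * (t - m) =
    t * ∏ j ∈ Finset.Icc 1 m, (t - (j : ℝ)) := by
  induction m with
  | zero => simp
  | succ m ih =>
    rw [Finset.prod_Icc_succ_top (by omega), Finset.prod_Icc_succ_top (by omega)]
    push_cast
    have e : t + 1 - ((m : ℝ) + 1) = t - m := by ring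
    rw [e, ih]
    ring

lemma tB (m : ℕ) (s : ℝ) : (∏ j ∈ Finset.Icc 1 m, (s + 1 + (j : ℝ))) * (s + 1) =
    (s + 1 + m) * ∏ j ∈ Finset.Icc 1 m, (s + (j : ℝ)) := by
  induction m with
  | zero => simp
  | succ m ih =>
    rw [Finset.prod_Icc_succ_top (by omega), Finset.prod_Icc_succ_top (by omega)]
    push_cast
    calc (∏ j ∈ Finset.Icc 1 m, (s + 1 + (j : ℝ))) * (s + 1 + ((m : ℝ) + 1)) * (s + 1)
        = ((∏ j ∈ Finset.Icc 1 m, (s + 1 + (j : ℝ))) * (s + 1)) * (s + 1 + ((m : ℝ) + 1)) := by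
          ring
      _ = (s + 1 + ((m : ℝ) + 1)) * ((∏ j ∈ Finset.Icc 1 m, (s + (j : ℝ))) *
            (s + ((m : ℝ) + 1))) := by rw [ih]; ring

lemma tD (n : ℕ) (t : ℝ) : (∏ k ∈ Finset.range n, (t + 1 + (k : ℝ))) * t =
    (t + n) * ∏ k ∈ Finset.range n, (t + (k : ℝ)) := by
  induction n with
  | zero => simp
  | succ n ih =>
    rw [Finset.prod_range_succ, Finset.prod_range_succ]
    push_cast
    calc (∏ k ∈ Finset.range n, (t + 1 + (k : ℝ))) * (t + 1 + (n : ℝ)) * t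
        = ((∏ k ∈ Finset.range n, (t + 1 + (k : ℝ))) * t) * (t + 1 + (n : ℝ)) := by ring
      _ = (t + ((n : ℝ) + 1)) * ((∏ k ∈ Finset.range n, (t + (k : ℝ))) * (t + (n : ℝ))) := by
          rw [ih]; ring

/-- `(1+x)^n ≤ (1+nx)^2` for `0 ≤ n x ≤ 1` -/
lemma pow_le (n : ℕ) (x : ℝ) (hx : 0 ≤ x) (h : n * x ≤ 1) : (1 + x) ^ n ≤ (1 + n * x) ^ 2 := by
  have h1 : (1 + x) ^ n ≤ Real.exp (n * x) := by
    rw [Real.exp_nat_mul]
    exact pow_le_pow_left₀ (by positivity) (by linarith [Real.add_one_le_exp x]) n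
  set y := (n : ℝ) * x with hy
  have hy0 : 0 ≤ y := by positivity
  have h2 : Real.exp (y / 2) ≤ 1 + y := by
    have h3 : 1 - y / 2 ≤ Real.exp (-(y / 2)) := by linarith [Real.add_one_le_exp (-(y / 2))]
    have h4 : Real.exp (y / 2) * Real.exp (-(y / 2)) = 1 := by
      rw [← Real.exp_add]; simp
    have h5 : 0 < Real.exp (y / 2) := Real.exp_pos _
    have h6 : Real.exp (y / 2) * (1 - y / 2) ≤ 1 :=
      (mul_le_mul_of_nonneg_left h3 h5.le).trans h4.le
    have h7 : 1 ≤ (1 + y) * (1 - y / 2) := by nlinarith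
    have h8 : 0 < 1 - y / 2 := by linarith
    exact le_of_mul_le_mul_right (h6.trans h7) h8
  calc (1 + x) ^ n ≤ Real.exp y := h1
    _ = Real.exp (y / 2) ^ 2 := by rw [← Real.exp_nat_mul]; congr 1; push_cast; ring
    _ ≤ (1 + y) ^ 2 := pow_le_pow_left₀ (Real.exp_pos _).le h2 2

end MON

open MON

theorem t_mon : S_MON := by
  intro n h r t hn hr hh ht
  have hn' : (1 : ℝ) ≤ n := by exact_mod_cast hn
  have hr' : (1 : ℝ) ≤ r := by exact_mod_cast hr
  have hm1 : 1 ≤ r * n := Nat.mul_pos hr hn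
  set m : ℕ := r * n with hm
  have hmr : (m : ℝ) = r * n := by rw [hm]; push_cast; ring
  have hm1' : (1 : ℝ) ≤ m := by exact_mod_cast hm1
  have htm : 4 * (m : ℝ) ≤ t := by rw [hmr]; linarith
  have hnm : (n : ℝ) ≤ m := by rw [hmr]; nlinarith
  have ht0 : 0 < t := by linarith
  have htm0 : 0 < t - m := by linarith
  have htn0 : 0 < t + n := by linarith
  set x : ℝ := 1 / t with hx
  have hx0 : 0 < x := by positivity
  have hxt : x * t = 1 := by rw [hx]; field_simp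
  set A : ℝ := ∏ j ∈ Finset.Icc 1 m, (t - (j : ℝ)) with hA
  set B : ℝ := ∏ j ∈ Finset.Icc 1 m, (t + ((n : ℝ) - 1) + (j : ℝ)) with hB
  set D : ℝ := ∏ k ∈ Finset.range n, (t + (k : ℝ)) with hD
  have hApos : 0 < A := by
    refine Finset.prod_pos fun j hj => ?_
    have h1 : (j : ℝ) ≤ m := by exact_mod_cast (Finset.mem_Icc.1 hj).2
    linarith
  have hBpos : 0 < B := by
    refine Finset.prod_pos fun j hj => ?_
    have h1 : (0 : ℝ) ≤ j := Nat.cast_nonneg j
    linarith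
  have hDpos : 0 < D := by
    refine Finset.prod_pos fun j hj => ?_
    have h1 : (0 : ℝ) ≤ j := Nat.cast_nonneg j
    linarith
  have hA1 : ∏ j ∈ Finset.Icc 1 m, (t + 1 - (j : ℝ)) = t / (t - m) * A := by
    have := tA m t
    field_simp
    linarith
  have hB1 : ∏ j ∈ Finset.Icc 1 m, (t + 1 + ((n : ℝ) - 1) + (j : ℝ)) =
      (t + n + m) / (t + n) * B := by
    have h1 := tB m (t + ((n : ℝ) - 1))
    have e1 : t + ((n : ℝ) - 1) + 1 = t + n := by ring
    have e2 : t + 1 + ((n : ℝ) - 1) = t + n := by ring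
    rw [e1] at h1
    rw [e2]
    field_simp
    linarith
  have hD1 : ∏ k ∈ Finset.range n, (t + 1 + (k : ℝ)) = (t + n) / t * D := by
    have := tD n t
    field_simp
    linarith
  have hR : Rr n h r t = (n.factorial : ℝ) ^ (2 * h - 2 * r) * (2 * t + ((n : ℝ) - 1)) *
      (A * B) / D ^ (2 * h) := by
    unfold Rr
    rw [Finset.prod_mul_distrib]
  have hR1 : Rr n h r (t + 1) = (n.factorial : ℝ) ^ (2 * h - 2 * r) *
      (2 * (t + 1) + ((n : ℝ) - 1)) * (t / (t - m) * A * ((t + n + m) / (t + n) * B)) /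
      ((t + n) / t * D) ^ (2 * h) := by
    unfold Rr
    rw [Finset.prod_mul_distrib, ← hm, hA1, hB1, hD1]
  rw [hR, hR1]
  -- the factors
  have p2 : 2 * (t + 1) + ((n : ℝ) - 1) ≤ (1 + x) * (2 * t + ((n : ℝ) - 1)) := by
    have h1 : 0 ≤ x * ((n : ℝ) - 1) := mul_nonneg hx0.le (by linarith)
    have h6 : (1 + x) * (2 * t + ((n : ℝ) - 1)) = 2 * t + ((n : ℝ) - 1) + 2 * (x * t) +
      x * ((n : ℝ) - 1) := by ring
    rw [h6, hxt]
    linarith
  have p3 : t / (t - m) ≤ (1 + x) ^ (2 * m) := by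
    have h1 : 1 + ((2 * m : ℕ) : ℝ) * x ≤ (1 + x) ^ (2 * m) :=
      one_add_mul_le_pow (by linarith) _
    refine le_trans ?_ h1
    rw [div_le_iff₀ htm0]
    push_cast
    have h3 : (m : ℝ) * x * 2 ≤ 1 := by
      have h4 : (m : ℝ) * x ≤ t / 4 * x := mul_le_mul_of_nonneg_right (by linarith) hx0.le
      have h5 : t / 4 * x = (x * t) / 4 := by ring
      rw [h5, hxt] at h4
      linarith
    have h2 : (m : ℝ) * x * 2 * m ≤ 1 * m := mul_le_mul_of_nonneg_right h3 (by linarith)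
    have h6 : (1 + 2 * (m : ℝ) * x) * (t - m) = t - m + 2 * m * (x * t) - m * x * 2 * m := by ring
    rw [h6, hxt]
    linarith
  have p4 : (t + n + m) / (t + n) ≤ (1 + x) ^ m := by
    have h1 : 1 + (m : ℝ) * x ≤ (1 + x) ^ m := one_add_mul_le_pow (by linarith) _
    refine le_trans ?_ h1
    rw [div_le_iff₀ htn0]
    have h2 : (0 : ℝ) ≤ m * x * n := by positivity
    have h6 : (1 + (m : ℝ) * x) * (t + n) = t + n + m * (x * t) + m * x * n := by ring
    rw [h6, hxt]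
    linarith
  have p5 : (1 + x) ^ (3 * m + 3) ≤ ((t + n) / t) ^ (2 * h) := by
    have h1 : (n : ℝ) * x ≤ 1 := by
      have h4 : (n : ℝ) * x ≤ t * x := mul_le_mul_of_nonneg_right (by linarith) hx0.le
      rw [mul_comm t x, hxt] at h4
      exact h4
    have h2 := pow_le n x hx0.le h1
    have e : (t + n) / t = 1 + n * x := by
      rw [hx]; field_simp
    rw [e, pow_mul]
    calc (1 + x) ^ (3 * m + 3) ≤ (1 + x) ^ (n * h) := by
          apply pow_le_pow_right₀ (by linarith)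
          have h3 : n * (3 * r + 3) ≤ n * h := Nat.mul_le_mul_left n hh
          have h4 : n * (3 * r + 3) = 3 * m + 3 * n := by rw [hm]; ring
          omega
      _ = ((1 + x) ^ n) ^ h := pow_mul _ _ _
      _ ≤ ((1 + n * x) ^ 2) ^ h := by gcongr
  have hc0 : 0 ≤ (n.factorial : ℝ) ^ (2 * h - 2 * r) := by positivity
  set c : ℝ := (n.factorial : ℝ) ^ (2 * h - 2 * r) with hc
  have hs0 : 0 ≤ 2 * t + ((n : ℝ) - 1) := by linarith
  have q1 : (t + 1) ^ 2 = t ^ 2 * (1 + x) ^ 2 := by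
    have : t * (1 + x) = t + x * t := by ring
    rw [← mul_pow, this, hxt]
  have h1x : 0 < 1 + x := by linarith
  have hE : 0 < (t + n) / t := by positivity
  rw [mul_pow ((t + n) / t) D]
  have key : (t + 1) ^ 2 * (c * (2 * (t + 1) + ((n : ℝ) - 1)) *
      (t / (t - m) * A * ((t + n + m) / (t + n) * B))) ≤
      (t ^ 2 * (c * (2 * t + ((n : ℝ) - 1)) * (A * B))) * ((t + n) / t) ^ (2 * h) := by
    calc (t + 1) ^ 2 * (c * (2 * (t + 1) + ((n : ℝ) - 1)) *
        (t / (t - m) * A * ((t + n + m) / (t + n) * B)))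
        ≤ (t ^ 2 * (1 + x) ^ 2) * (c * ((1 + x) * (2 * t + ((n : ℝ) - 1))) *
            ((1 + x) ^ (2 * m) * A * ((1 + x) ^ m * B))) := by
          rw [q1]
          gcongr
      _ = (t ^ 2 * (c * (2 * t + ((n : ℝ) - 1)) * (A * B))) * (1 + x) ^ (3 * m + 3) := by
          have : (1 + x) ^ (3 * m + 3) = (1 + x) ^ 2 * (1 + x) * (1 + x) ^ (2 * m) * (1 + x) ^ m := by
            rw [← pow_succ, ← pow_add, ← pow_add]
            congr 1
            ring
          rw [this]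
          ring
      _ ≤ (t ^ 2 * (c * (2 * t + ((n : ℝ) - 1)) * (A * B))) * ((t + n) / t) ^ (2 * h) := by
          gcongr
  rw [← mul_div_assoc, ← mul_div_assoc, div_le_div_iff₀ (by positivity) (by positivity)]
  calc (t + 1) ^ 2 * (c * (2 * (t + 1) + ((n : ℝ) - 1)) *
      (t / (t - m) * A * ((t + n + m) / (t + n) * B))) * D ^ (2 * h)
      ≤ (t ^ 2 * (c * (2 * t + ((n : ℝ) - 1)) * (A * B))) * ((t + n) / t) ^ (2 * h) *
          D ^ (2 * h) := by gcongr
    _ = t ^ 2 * (c * (2 * t + ((n : ℝ) - 1)) * (A * B)) * (((t + n) / t) ^ (2 * h) *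
          D ^ (2 * h)) := by ring

end Pool.Agent.W245.BR
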