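import Pool.Agent.W245.BR.Stm

/-!
Project BR (owner helper245), part BR-RAT (helper612): the sums do not decrease too fast.
-/

set_option autoImplicit false

open Filter Topology

namespace Pool.Agent.W245.BR

namespace RAT

theorem Rr_zero (n h r t : ℕ) (h1 : 1 ≤ t) (h2 : t ≤ r * n) : Rr n h r (t : ℝ) = 0 := by
  unfold Rr
  rw [Finset.prod_eq_zero (Finset.mem_Icc.2 ⟨h1, h2⟩) (by rw [sub_self, zero_mul]), mul_zero,
    zero_div]

theorem summ : Summable (fun u : ℕ => 1 / ((u : ℝ) + 2) ^ 2) := by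
  have h1 := (Real.summable_one_div_nat_pow (p := 2)).2 (by norm_num)
  have h2 := (summable_nat_add_iff 2).2 h1
  refine h2.congr fun u => ?_
  push_cast
  rfl

end RAT

open RAT

theorem t_rat (hSUM : S_SUM) (hPOS : S_POS) (hMON : S_MON) (hRT : S_RT) : S_RAT := by
  intro h r hr hh
  obtain ⟨c, hc, hRT'⟩ := hRT h r hr (by omega)
  obtain ⟨S2, hS2⟩ : ∃ S2, S2 = ∑' u : ℕ, 1 / ((u : ℝ) + 2) ^ 2 := ⟨_, rfl⟩
  have hS2p : 0 < S2 := by
    rw [hS2]
    exact summ.tsum_pos (fun u => by positivity) 0 (by norm_num)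
  have hr0 : (0 : ℝ) < r := by exact_mod_cast hr
  refine ⟨c / (25 * (r : ℝ) ^ 2 * S2), by positivity, fun n hn => ?_⟩
  have hn0 : (0 : ℝ) < n := by
    have : 0 < n := by omega
    exact_mod_cast this
  have hrn : 2 ≤ r * n := by nlinarith
  obtain ⟨hs1, -⟩ := hSUM n h r hn (by omega)
  obtain ⟨hs2, -⟩ := hSUM (n + 1) h r (by omega) (by omega)
  obtain ⟨p1, p2⟩ := hPOS n h r (by omega) hr
  obtain ⟨q1, q2⟩ := hPOS (n + 1) h r (by omega) hr
  have hle : ∀ t : ℕ, 2 ≤ t → Rr n h r (t : ℝ) ≤ Sn n h r := by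
    intro t ht
    have h3 := hs1.le_tsum (t - 2) (fun j _ => p1 j)
    rw [Nat.cast_sub ht] at h3
    have h4 : (t : ℝ) - ((2 : ℕ) : ℝ) + 2 = t := by push_cast; ring
    rw [h4] at h3
    exact h3
  have hle' : ∀ t : ℕ, 2 ≤ t → Rr (n + 1) h r (t : ℝ) ≤ Sn (n + 1) h r := by
    intro t ht
    have h3 := hs2.le_tsum (t - 2) (fun j _ => q1 j)
    rw [Nat.cast_sub ht] at h3
    have h4 : (t : ℝ) - ((2 : ℕ) : ℝ) + 2 = t := by push_cast; ring
    rw [h4] at h3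
    exact h3
  refine ⟨(p2 (r * n + 1) (Nat.lt_succ_self _)).trans_le (hle _ (by omega)), ?_⟩
  -- the maximum
  obtain ⟨t0, ht0, hmax⟩ := Finset.exists_max_image (Finset.Icc (r * n + 1) (4 * r * n + 1))
    (fun t : ℕ => (t : ℝ) ^ 2 * Rr n h r (t : ℝ)) ⟨r * n + 1, Finset.mem_Icc.2 ⟨le_rfl, by
      have : r * n ≤ 4 * r * n := by nlinarith
      omega⟩⟩
  obtain ⟨M, hM⟩ : ∃ M, M = (t0 : ℝ) ^ 2 * Rr n h r (t0 : ℝ) := ⟨_, rfl⟩
  rw [Finset.mem_Icc] at ht0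
  have hM0 : 0 ≤ M := by
    rw [hM]
    exact mul_nonneg (by positivity) (p2 t0 (by omega)).le
  have hmid : ∀ t : ℕ, r * n + 1 ≤ t → t ≤ 4 * r * n + 1 → (t : ℝ) ^ 2 * Rr n h r (t : ℝ) ≤ M := by
    intro t h3 h4
    rw [hM]
    exact hmax t (Finset.mem_Icc.2 ⟨h3, h4⟩)
  have hbig : ∀ i : ℕ, ((4 * r * n + 1 + i : ℕ) : ℝ) ^ 2 * Rr n h r ((4 * r * n + 1 + i : ℕ) : ℝ) ≤
      M := by
    intro i
    induction i with
    | zero =>
      apply hmid
      · have : r * n ≤ 4 * r * n := by nlinarith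
        omega
      · omega
    | succ i ih =>
      have h3 := hMON n h r ((4 * r * n + 1 + i : ℕ) : ℝ) (by omega) hr hh (by
        push_cast
        have : (0 : ℝ) ≤ i := Nat.cast_nonneg i
        linarith)
      have h4 : ((4 * r * n + 1 + (i + 1) : ℕ) : ℝ) = ((4 * r * n + 1 + i : ℕ) : ℝ) + 1 := by
        push_cast
        ring
      rw [h4]
      exact h3.trans ih
  have hall : ∀ t : ℕ, 2 ≤ t → (t : ℝ) ^ 2 * Rr n h r (t : ℝ) ≤ M := by
    intro t ht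
    rcases le_or_gt t (r * n) with h3 | h3
    · rw [Rr_zero n h r t (by omega) h3, mul_zero]
      exact hM0
    · rcases le_or_gt t (4 * r * n + 1) with h4 | h4
      · exact hmid t h3 h4
      · obtain ⟨i, rfl⟩ := Nat.exists_eq_add_of_lt h4
        have h5 := hbig (i + 1)
        exact h5
  have hsum : Sn n h r ≤ M * S2 := by
    rw [hS2, ← tsum_mul_left]
    refine hs1.tsum_le_tsum (fun u => ?_) (summ.mul_left M)
    have h3 := hall (u + 2) (by omega)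
    push_cast at h3
    rw [mul_one_div, le_div_iff₀ (by positivity)]
    linarith
  have hRT0 := hRT' n t0 (by omega) (by omega) ht0.2
  have h3 := hle' (t0 + r) (by omega)
  push_cast at h3
  have h4 : c * Rr n h r (t0 : ℝ) ≤ Sn (n + 1) h r := hRT0.trans h3
  have ht0r : (t0 : ℝ) ≤ 5 * r * n := by
    have h5 : t0 ≤ 5 * r * n := by nlinarith
    exact_mod_cast h5
  have hR0 : 0 ≤ Rr n h r (t0 : ℝ) := (p2 t0 (by omega)).le
  have h5 : M ≤ 25 * (r : ℝ) ^ 2 * (n : ℝ) ^ 2 * Rr n h r (t0 : ℝ) := by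
    rw [hM]
    apply mul_le_mul_of_nonneg_right _ hR0
    calc (t0 : ℝ) ^ 2 ≤ (5 * r * n) ^ 2 := pow_le_pow_left₀ (Nat.cast_nonneg _) ht0r 2
      _ = 25 * (r : ℝ) ^ 2 * (n : ℝ) ^ 2 := by ring
  calc c / (25 * (r : ℝ) ^ 2 * S2) / (n : ℝ) ^ 2 * Sn n h r ≤
      c / (25 * (r : ℝ) ^ 2 * S2) / (n : ℝ) ^ 2 * (M * S2) :=
        mul_le_mul_of_nonneg_left hsum (by positivity)
    _ ≤ c / (25 * (r : ℝ) ^ 2 * S2) / (n : ℝ) ^ 2 *
        ((25 * (r : ℝ) ^ 2 * (n : ℝ) ^ 2 * Rr n h r (t0 : ℝ)) * S2) :=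
        mul_le_mul_of_nonneg_left (mul_le_mul_of_nonneg_right h5 hS2p.le) (by positivity)
    _ = c * Rr n h r (t0 : ℝ) := by field_simp
    _ ≤ _ := h4

end Pool.Agent.W245.BR
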