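import Pool.Agent.W245.BR.Stm

/-!
# Comparison of `n` and `n + 1` for the rational functions of Ball and Rivoal
-/

open Polynomial Pool.Agent.H337R2 Filter Topology Pool.Agent.W165.OZ

namespace Pool.Agent.W245.BR

namespace RT

theorem icc (f : ℕ → ℝ) (m : ℕ) :
    ∏ j ∈ Finset.Icc 1 m, f j = ∏ i ∈ Finset.range m, f (i + 1) := by
  induction m with
  | zero => simp
  | succ m ih =>
    rw [Finset.prod_Icc_succ_top (by omega), ih, Finset.prod_range_succ]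

theorem pow_le (f : ℕ → ℝ) (a : ℝ) (m : ℕ) (ha : 0 ≤ a) (h : ∀ i < m, a ≤ f i) :
    a ^ m ≤ ∏ i ∈ Finset.range m, f i := by
  have : ∏ _i ∈ Finset.range m, a ≤ ∏ i ∈ Finset.range m, f i :=
    Finset.prod_le_prod (fun i _ => ha) (fun i hi => h i (Finset.mem_range.1 hi))
  simpa using this

theorem le_pow (f : ℕ → ℝ) (a : ℝ) (m : ℕ) (h0 : ∀ i < m, 0 ≤ f i) (h : ∀ i < m, f i ≤ a) :
    ∏ i ∈ Finset.range m, f i ≤ a ^ m := by
  have : ∏ i ∈ Finset.range m, f i ≤ ∏ _i ∈ Finset.range m, a :=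
    Finset.prod_le_prod (fun i hi => h0 i (Finset.mem_range.1 hi))
      (fun i hi => h i (Finset.mem_range.1 hi))
  simpa using this

/-- the first factors of the numerator -/
theorem fA (T : ℝ) (r m : ℕ) (hT : 0 < T) (hm : (m : ℝ) < T) :
    T ^ r * ∏ j ∈ Finset.Icc 1 m, (T - (j : ℝ)) ≤
      ∏ j ∈ Finset.Icc 1 (r + m), (T + r - (j : ℝ)) := by
  rw [icc (fun j => T - (j : ℝ)), icc (fun j => T + r - (j : ℝ)), Finset.prod_range_add]
  have h1 : T ^ r ≤ ∏ i ∈ Finset.range r, (T + r - ((i + 1 : ℕ) : ℝ)) := by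
    refine pow_le _ _ _ hT.le fun i hi => ?_
    have : ((i + 1 : ℕ) : ℝ) ≤ r := by exact_mod_cast hi
    linarith
  have h2 : ∏ i ∈ Finset.range m, (T + r - ((r + i + 1 : ℕ) : ℝ)) =
      ∏ i ∈ Finset.range m, (T - ((i + 1 : ℕ) : ℝ)) := by
    refine Finset.prod_congr rfl fun i _ => ?_
    push_cast
    ring
  rw [h2]
  refine mul_le_mul_of_nonneg_right h1 (Finset.prod_nonneg fun i hi => ?_)
  have : ((i + 1 : ℕ) : ℝ) ≤ m := by exact_mod_cast Finset.mem_range.1 hi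
  linarith

/-- the second factors of the numerator -/
theorem fB (T : ℝ) (r m n : ℕ) (hT : 0 < T) (hn : 1 ≤ n) :
    T ^ r * ∏ j ∈ Finset.Icc 1 m, (T + ((n : ℝ) - 1) + (j : ℝ)) ≤
      ∏ j ∈ Finset.Icc 1 (r + m), (T + r + (((n + 1 : ℕ) : ℝ) - 1) + (j : ℝ)) := by
  have hn' : (1 : ℝ) ≤ n := by exact_mod_cast hn
  rw [icc (fun j => T + ((n : ℝ) - 1) + (j : ℝ)),
    icc (fun j => T + r + (((n + 1 : ℕ) : ℝ) - 1) + (j : ℝ)), Finset.prod_range_add]
  refine mul_le_mul ?_ ?_ (Finset.prod_nonneg fun i _ => ?_) (Finset.prod_nonneg fun i _ => ?_)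
  · refine pow_le _ _ _ hT.le fun i hi => ?_
    push_cast
    have : (0 : ℝ) ≤ i := Nat.cast_nonneg i
    have : (0 : ℝ) ≤ r := Nat.cast_nonneg r
    linarith
  · refine Finset.prod_le_prod (fun i _ => ?_) fun i _ => ?_
    · push_cast
      have : (0 : ℝ) ≤ i := Nat.cast_nonneg i
      linarith
    · push_cast
      have : (0 : ℝ) ≤ r := Nat.cast_nonneg r
      linarith
  · push_cast
    have : (0 : ℝ) ≤ i := Nat.cast_nonneg i
    linarith
  · push_cast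
    have : (0 : ℝ) ≤ i := Nat.cast_nonneg i
    have : (0 : ℝ) ≤ r := Nat.cast_nonneg r
    linarith

/-- the denominator -/
theorem fD (T : ℝ) (r n : ℕ) (hT : 0 < T) (hn : (n : ℝ) ≤ T) (hr : (r : ℝ) ≤ T) :
    ∏ k ∈ Finset.range (n + 1), (T + r + (k : ℝ)) ≤
      3 ^ (r + 1) * T * ∏ k ∈ Finset.range n, (T + (k : ℝ)) := by
  have h1 : ∏ k ∈ Finset.range (r + (n + 1)), (T + (k : ℝ)) =
      (∏ k ∈ Finset.range r, (T + (k : ℝ))) * ∏ k ∈ Finset.range (n + 1), (T + r + (k : ℝ)) := by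
    rw [Finset.prod_range_add]
    congr 1
    refine Finset.prod_congr rfl fun i _ => ?_
    push_cast
    ring
  have h2 : ∏ k ∈ Finset.range (r + (n + 1)), (T + (k : ℝ)) =
      (∏ k ∈ Finset.range n, (T + (k : ℝ))) * ∏ k ∈ Finset.range (r + 1), (T + n + (k : ℝ)) := by
    rw [show r + (n + 1) = n + (r + 1) by ring, Finset.prod_range_add]
    congr 1
    refine Finset.prod_congr rfl fun i _ => ?_
    push_cast
    ring
  have h3 : T ^ r ≤ ∏ k ∈ Finset.range r, (T + (k : ℝ)) := by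
    refine pow_le _ _ _ hT.le fun i _ => ?_
    have : (0 : ℝ) ≤ i := Nat.cast_nonneg i
    linarith
  have h4 : ∏ k ∈ Finset.range (r + 1), (T + n + (k : ℝ)) ≤ (3 * T) ^ (r + 1) := by
    refine le_pow _ _ _ (fun i _ => by positivity) fun i hi => ?_
    have : (i : ℝ) ≤ r := by exact_mod_cast Nat.lt_succ_iff.1 hi
    linarith
  have h5 : (0 : ℝ) ≤ ∏ k ∈ Finset.range (n + 1), (T + r + (k : ℝ)) :=
    Finset.prod_nonneg fun i _ => by positivity
  have h6 : (0 : ℝ) ≤ ∏ k ∈ Finset.range n, (T + (k : ℝ)) :=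
    Finset.prod_nonneg fun i _ => by positivity
  have h7 : T ^ r * ∏ k ∈ Finset.range (n + 1), (T + r + (k : ℝ)) ≤
      T ^ r * (3 ^ (r + 1) * T * ∏ k ∈ Finset.range n, (T + (k : ℝ))) := by
    calc T ^ r * ∏ k ∈ Finset.range (n + 1), (T + r + (k : ℝ))
        ≤ (∏ k ∈ Finset.range r, (T + (k : ℝ))) *
          ∏ k ∈ Finset.range (n + 1), (T + r + (k : ℝ)) := mul_le_mul_of_nonneg_right h3 h5
      _ = (∏ k ∈ Finset.range n, (T + (k : ℝ))) *
          ∏ k ∈ Finset.range (r + 1), (T + n + (k : ℝ)) := by rw [← h1, h2]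
      _ ≤ (∏ k ∈ Finset.range n, (T + (k : ℝ))) * (3 * T) ^ (r + 1) :=
          mul_le_mul_of_nonneg_left h4 h6
      _ = T ^ r * (3 ^ (r + 1) * T * ∏ k ∈ Finset.range n, (T + (k : ℝ))) := by
          rw [mul_pow, pow_succ T]
          ring
  exact le_of_mul_le_mul_left h7 (pow_pos hT r)

end RT

open RT in
theorem t_rt : S_RT := by
  intro h r hr hrh
  refine ⟨((3 : ℝ) ^ (2 * h * (r + 1)))⁻¹ * (((4 * r + 1 : ℝ)) ^ (2 * h - 2 * r))⁻¹,
    by positivity, ?_⟩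
  intro n t hn h1 h2
  have hr' : (1 : ℝ) ≤ r := by exact_mod_cast hr
  have hn' : (1 : ℝ) ≤ n := by exact_mod_cast hn
  have ht : 1 ≤ t := by
    have := Nat.zero_le (r * n)
    omega
  have hTpos : (0 : ℝ) < t := by exact_mod_cast ht
  have hnt : (n : ℝ) ≤ t := by
    have : n ≤ t := by nlinarith
    exact_mod_cast this
  have hrt : (r : ℝ) ≤ t := by
    have : r ≤ t := by nlinarith
    exact_mod_cast this
  have hrnt : ((r * n : ℕ) : ℝ) < t := by exact_mod_cast h1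
  have hTle : (t : ℝ) ≤ (4 * r + 1) * ((n : ℝ) + 1) := by
    have : (t : ℝ) ≤ 4 * r * n + 1 := by exact_mod_cast h2
    nlinarith
  generalize hT : (t : ℝ) = T at *
  unfold Rr
  have eA := fA T r (r * n) hTpos hrnt
  have eB := fB T r (r * n) n hTpos hn
  have eD := fD T r n hTpos hnt hrt
  rw [show r * (n + 1) = r + r * n by ring]
  rw [Finset.prod_mul_distrib, Finset.prod_mul_distrib]
  have pA : 0 < ∏ j ∈ Finset.Icc 1 (r * n), (T - (j : ℝ)) := by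
    refine Finset.prod_pos fun j hj => ?_
    have : (j : ℝ) ≤ ((r * n : ℕ) : ℝ) := by exact_mod_cast (Finset.mem_Icc.1 hj).2
    linarith
  have pB : 0 < ∏ j ∈ Finset.Icc 1 (r * n), (T + ((n : ℝ) - 1) + (j : ℝ)) := by
    refine Finset.prod_pos fun j hj => ?_
    have : (0 : ℝ) ≤ j := Nat.cast_nonneg j
    linarith
  have pD : 0 < ∏ k ∈ Finset.range n, (T + (k : ℝ)) :=
    Finset.prod_pos fun i _ => by positivity
  have pD' : 0 < ∏ k ∈ Finset.range (n + 1), (T + r + (k : ℝ)) :=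
    Finset.prod_pos fun i _ => by positivity
  generalize hA : ∏ j ∈ Finset.Icc 1 (r * n), (T - (j : ℝ)) = A at *
  generalize hB : ∏ j ∈ Finset.Icc 1 (r * n), (T + ((n : ℝ) - 1) + (j : ℝ)) = B at *
  generalize hD : ∏ k ∈ Finset.range n, (T + (k : ℝ)) = D at *
  generalize hA' : ∏ j ∈ Finset.Icc 1 (r + r * n), (T + r - (j : ℝ)) = A' at *
  generalize hB' : ∏ j ∈ Finset.Icc 1 (r + r * n),
    (T + r + (((n + 1 : ℕ) : ℝ) - 1) + (j : ℝ)) = B' at *
  generalize hD' : ∏ k ∈ Finset.range (n + 1), (T + r + (k : ℝ)) = D' at *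
  rw [Nat.factorial_succ]
  have hfac : (0 : ℝ) < n.factorial := by exact_mod_cast Nat.factorial_pos n
  push_cast
  set F : ℝ := (n.factorial : ℝ) with hF
  set e : ℕ := 2 * h - 2 * r with he
  have heh : 2 * h = e + 2 * r := by omega
  have pL : 0 < 2 * T + ((n : ℝ) - 1) := by linarith
  have hL : 2 * T + ((n : ℝ) - 1) ≤ 2 * (T + r) + ((n : ℝ) + 1 - 1) := by linarith
  have hTn : T ^ e ≤ (4 * (r : ℝ) + 1) ^ e * ((n : ℝ) + 1) ^ e := by
    rw [← mul_pow]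
    exact pow_le_pow_left₀ hTpos.le hTle e
  have p3 : (0 : ℝ) < 3 ^ (2 * h * (r + 1)) := by positivity
  have p4 : (0 : ℝ) < (4 * (r : ℝ) + 1) ^ e := by positivity
  -- lower bound for the numerator
  have hN : ((n : ℝ) + 1) ^ e * F ^ e * (2 * T + ((n : ℝ) - 1)) * ((T ^ r * A) * (T ^ r * B)) ≤
      (((n : ℝ) + 1) * F) ^ e * (2 * (T + r) + ((n : ℝ) + 1 - 1)) * (A' * B') := by
    rw [mul_pow]
    refine mul_le_mul (mul_le_mul_of_nonneg_left hL (by positivity))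
      (mul_le_mul eA eB (by positivity) (le_trans (by positivity) eA)) (by positivity) ?_
    have : 0 ≤ 2 * (T + r) + ((n : ℝ) + 1 - 1) := by linarith
    positivity
  have hDen : D' ^ (2 * h) ≤ (3 ^ (r + 1) * T * D) ^ (2 * h) :=
    pow_le_pow_left₀ pD'.le eD _
  have hpos1 : 0 < D' ^ (2 * h) := pow_pos pD' _
  have hkey : (((3 : ℝ) ^ (2 * h * (r + 1)))⁻¹ * ((4 * (r : ℝ) + 1) ^ e)⁻¹) *
      (F ^ e * (2 * T + ((n : ℝ) - 1)) * (A * B) / D ^ (2 * h)) ≤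
      (((n : ℝ) + 1) ^ e * F ^ e * (2 * T + ((n : ℝ) - 1)) * ((T ^ r * A) * (T ^ r * B))) /
        (3 ^ (r + 1) * T * D) ^ (2 * h) := by
    have q1 : (3 ^ (r + 1) * T * D) ^ (2 * h) =
        3 ^ (2 * h * (r + 1)) * (T ^ e * T ^ (2 * r)) * D ^ (2 * h) := by
      rw [mul_pow, mul_pow, ← pow_mul, mul_comm (r + 1) (2 * h), ← pow_add, ← heh]
    rw [q1]
    have q2 : (((3 : ℝ) ^ (2 * h * (r + 1)))⁻¹ * ((4 * (r : ℝ) + 1) ^ e)⁻¹) *
      (F ^ e * (2 * T + ((n : ℝ) - 1)) * (A * B) / D ^ (2 * h)) =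
      (F ^ e * (2 * T + ((n : ℝ) - 1)) * (A * B)) /
        (3 ^ (2 * h * (r + 1)) * (4 * (r : ℝ) + 1) ^ e * D ^ (2 * h)) := by
      have : D ^ (2 * h) ≠ 0 := (pow_pos pD _).ne'
      field_simp
    rw [q2, div_le_div_iff₀ (by positivity) (by positivity)]
    have q3 : 0 ≤ F ^ e * (2 * T + ((n : ℝ) - 1)) * (A * B) * 3 ^ (2 * h * (r + 1)) *
        T ^ (2 * r) * D ^ (2 * h) := by positivity
    have q4 := mul_le_mul_of_nonneg_left hTn q3
    calc _ = F ^ e * (2 * T + ((n : ℝ) - 1)) * (A * B) * 3 ^ (2 * h * (r + 1)) *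
        T ^ (2 * r) * D ^ (2 * h) * T ^ e := by ring
      _ ≤ _ := q4
      _ = _ := by rw [two_mul r, pow_add]; ring
  refine le_trans hkey ?_
  have hnum0 : 0 ≤ ((n : ℝ) + 1) ^ e * F ^ e * (2 * T + ((n : ℝ) - 1)) *
      ((T ^ r * A) * (T ^ r * B)) := by positivity
  exact div_le_div₀ (le_trans hnum0 hN) hN hpos1 hDen

end Pool.Agent.W245.BR
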