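import Pool.Agent.W245.BR.Stm

/-!
# Size of the partial fraction coefficients
-/

open Polynomial Pool.Agent.H337R2 Filter Topology Pool.Agent.W165.OZ

namespace Pool.Agent.W245.BR

namespace SIZ

/-- The norm at radius `1 / 2` is at most `M`. -/
def Maj (f : PowerSeries ℚ) (M : ℚ) : Prop :=
  ∀ J : ℕ, ∑ j ∈ Finset.range J, |PowerSeries.coeff j f| / 2 ^ j ≤ M

theorem maj_nonneg {f : PowerSeries ℚ} {M : ℚ} (h : Maj f M) : 0 ≤ M := by simpa using h 0

theorem maj_mono {f : PowerSeries ℚ} {M M' : ℚ} (h : Maj f M) (hM : M ≤ M') : Maj f M' :=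
  fun J => (h J).trans hM

theorem maj_coeff {f : PowerSeries ℚ} {M : ℚ} (h : Maj f M) (j : ℕ) :
    |PowerSeries.coeff j f| ≤ 2 ^ j * M := by
  have h1 := h (j + 1)
  rw [Finset.sum_range_succ] at h1
  have h2 : 0 ≤ ∑ i ∈ Finset.range j, |PowerSeries.coeff i f| / 2 ^ i :=
    Finset.sum_nonneg fun i _ => by positivity
  have h3 : |PowerSeries.coeff j f| / 2 ^ j ≤ M := by linarith
  rw [div_le_iff₀ (by positivity)] at h3
  linarith

theorem maj_mul {f g : PowerSeries ℚ} {M M' : ℚ} (h : Maj f M) (h' : Maj g M') :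
    Maj (f * g) (M * M') := by
  intro J
  have h1 : ∑ j ∈ Finset.range J, |PowerSeries.coeff j (f * g)| / 2 ^ j ≤
      ∑ j ∈ Finset.range J, ∑ p ∈ (Finset.range J ×ˢ Finset.range J) with p.1 + p.2 = j,
        (|PowerSeries.coeff p.1 f| / 2 ^ p.1) * (|PowerSeries.coeff p.2 g| / 2 ^ p.2) := by
    refine Finset.sum_le_sum fun j hj => ?_
    have e : ((Finset.range J ×ˢ Finset.range J).filter fun p : ℕ × ℕ => p.1 + p.2 = j) =
        Finset.HasAntidiagonal.antidiagonal j := by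
      ext p
      simp only [Finset.mem_filter, Finset.mem_product, Finset.mem_range,
        Finset.HasAntidiagonal.mem_antidiagonal] at hj ⊢
      omega
    rw [e, PowerSeries.coeff_mul, div_le_iff₀ (by positivity), Finset.sum_mul]
    refine (Finset.abs_sum_le_sum_abs _ _).trans (Finset.sum_le_sum fun p hp => ?_)
    rw [Finset.HasAntidiagonal.mem_antidiagonal] at hp
    rw [abs_mul, ← hp, pow_add]
    refine le_of_eq ?_
    field_simp
  have h2 : ∑ j ∈ Finset.range J, ∑ p ∈ (Finset.range J ×ˢ Finset.range J) with p.1 + p.2 = j,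
        (|PowerSeries.coeff p.1 f| / 2 ^ p.1) * (|PowerSeries.coeff p.2 g| / 2 ^ p.2) ≤
      ∑ p ∈ (Finset.range J ×ˢ Finset.range J),
        (|PowerSeries.coeff p.1 f| / 2 ^ p.1) * (|PowerSeries.coeff p.2 g| / 2 ^ p.2) := by
    refine Finset.sum_fiberwise_le_sum_of_sum_fiber_nonneg fun y _ => ?_
    exact Finset.sum_nonneg fun p _ => by positivity
  refine h1.trans (h2.trans ?_)
  rw [← Finset.sum_mul_sum (Finset.range J) (Finset.range J)
    (fun a => |PowerSeries.coeff a f| / 2 ^ a) (fun b => |PowerSeries.coeff b g| / 2 ^ b)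
    |>.trans (Finset.sum_product' _ _ _).symm]
  exact mul_le_mul (h J) (h' J) (Finset.sum_nonneg fun i _ => by positivity) (maj_nonneg h)

theorem maj_add {f g : PowerSeries ℚ} {M M' : ℚ} (h : Maj f M) (h' : Maj g M') :
    Maj (f + g) (M + M') := by
  intro J
  refine le_trans ?_ (add_le_add (h J) (h' J))
  rw [← Finset.sum_add_distrib]
  refine Finset.sum_le_sum fun j _ => ?_
  rw [← add_div, map_add]
  exact div_le_div_of_nonneg_right (abs_add_le _ _) (by positivity)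

theorem maj_C (c : ℚ) : Maj (PowerSeries.C c) |c| := by
  intro J
  cases J with
  | zero => simp
  | succ J =>
    rw [Finset.sum_range_succ', Finset.sum_eq_zero, zero_add]
    · simp
    · intro i _
      rw [PowerSeries.coeff_C, if_neg (by omega)]
      simp

theorem maj_X : Maj PowerSeries.X (1 / 2) := by
  intro J
  refine (Finset.sum_le_sum_of_subset_of_nonneg (Finset.range_mono (Nat.le_add_right J 2))
    (fun i _ _ => by positivity)).trans ?_
  rw [Finset.sum_range_succ', Finset.sum_range_succ', Finset.sum_eq_zero, zero_add]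
  · simp
  · intro i _
    rw [PowerSeries.coeff_X, if_neg (by omega)]
    simp

theorem maj_lin (a : ℚ) : Maj (PowerSeries.X + PowerSeries.C a) (1 / 2 + |a|) :=
  maj_add maj_X (maj_C a)

theorem maj_one : Maj 1 1 := by
  have h := maj_C 1
  simpa using h

theorem maj_pow {f : PowerSeries ℚ} {M : ℚ} (h : Maj f M) (n : ℕ) : Maj (f ^ n) (M ^ n) := by
  induction n with
  | zero => simpa using maj_one
  | succ n ih =>
    rw [pow_succ, pow_succ]
    exact maj_mul ih h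

theorem maj_prod {ι : Type} (s : Finset ι) (f : ι → PowerSeries ℚ) (M : ι → ℚ)
    (h : ∀ i ∈ s, Maj (f i) (M i)) : Maj (∏ i ∈ s, f i) (∏ i ∈ s, M i) := by
  classical
  induction s using Finset.induction_on with
  | empty => simpa using maj_one
  | insert a s ha ih =>
    rw [Finset.prod_insert ha, Finset.prod_insert ha]
    exact maj_mul (h a (Finset.mem_insert_self a s))
      (ih fun i hi => h i (Finset.mem_insert_of_mem hi))

theorem maj_iv (a : ℚ) (ha : 1 / 2 < |a|) : Maj (iv a) (1 / (|a| - 1 / 2)) := by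
  intro J
  have ha0 : 0 < |a| := by linarith
  obtain ⟨q, hq⟩ : ∃ q : ℚ, q = 1 / (2 * |a|) := ⟨_, rfl⟩
  have hq0 : 0 < q := by rw [hq]; positivity
  have hq1 : q < 1 := by
    rw [hq, div_lt_one (by positivity)]
    linarith
  have e : ∑ j ∈ Finset.range J, |PowerSeries.coeff j (iv a)| / 2 ^ j =
      1 / |a| * ∑ j ∈ Finset.range J, q ^ j := by
    rw [Finset.mul_sum]
    refine Finset.sum_congr rfl fun j _ => ?_
    rw [iv, PowerSeries.coeff_mk, abs_div, abs_pow, abs_neg, abs_one, one_pow, abs_pow, hq,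
      div_pow, one_pow, mul_pow, pow_succ]
    field_simp
  have h1 : (1 - q) * ∑ j ∈ Finset.range J, q ^ j = 1 - q ^ J := mul_neg_geom_sum q J
  have h2 : ∑ j ∈ Finset.range J, q ^ j ≤ 1 / (1 - q) := by
    rw [le_div_iff₀ (by linarith)]
    have : 0 < q ^ J := by positivity
    linarith
  rw [e]
  calc 1 / |a| * ∑ j ∈ Finset.range J, q ^ j ≤ 1 / |a| * (1 / (1 - q)) :=
        mul_le_mul_of_nonneg_left h2 (by positivity)
    _ = 1 / (|a| - 1 / 2) := by
      rw [hq, one_div_mul_one_div]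
      congr 1
      field_simp

theorem comp_Zn (n r : ℕ) : (Zn n r).comp (yp n) = ∏ j ∈ Finset.Icc 1 (r * n),
    ((X + C (-(j : ℚ))) * (X + C ((n : ℚ) - 1 + j))) := by
  unfold Zn
  rw [Polynomial.prod_comp]
  refine Finset.prod_congr rfl fun j _ => ?_
  unfold yp
  rw [sub_comp, X_comp, C_comp]
  simp only [C_add, C_mul, C_sub, C_neg, C_1]
  ring

theorem maj_Pn (n h r k : ℕ) (hr : 1 ≤ r) (hk : k < n) : Maj (TS (-(k : ℚ)) (Pn n h r))
    ((n.factorial : ℚ) ^ (2 * h - 2 * r) * (3 * n) * (((r : ℚ) + 1) * n) ^ (2 * (r * n))) := by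
  have hk1 : (k : ℚ) + 1 ≤ n := by exact_mod_cast hk
  have hn1 : (1 : ℚ) ≤ n := by
    have : (0 : ℚ) ≤ k := Nat.cast_nonneg k
    linarith
  have hk0 : (0 : ℚ) ≤ k := Nat.cast_nonneg k
  have hr1 : (1 : ℚ) ≤ r := by exact_mod_cast hr
  unfold Pn num
  rw [map_mul, map_mul, TS_C, comp_Zn, map_prod, mul_assoc]
  refine maj_mul ?_ (maj_mul ?_ ?_)
  · have h1 := maj_C ((n.factorial : ℚ) ^ (2 * h - 2 * r))
    rwa [abs_of_nonneg (by positivity)] at h1
  · have h1 := maj_add (maj_mul (maj_C 2) (maj_lin (-(k : ℚ)))) (maj_C ((n : ℚ) - 1))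
    rw [map_add, map_mul, TS_C, TS_X, TS_C]
    refine maj_mono h1 ?_
    rw [abs_neg, abs_of_nonneg hk0, abs_of_nonneg (by norm_num : (0 : ℚ) ≤ 2),
      abs_of_nonneg (by linarith : (0 : ℚ) ≤ n - 1)]
    linarith
  · have h1 := maj_prod (Finset.Icc 1 (r * n))
      (fun j => TS (-(k : ℚ)) ((X + C (-(j : ℚ))) * (X + C ((n : ℚ) - 1 + j))))
      (fun _ => (((r : ℚ) + 1) * n) ^ 2) ?_
    · rw [Finset.prod_const, Nat.card_Icc, Nat.add_sub_cancel, ← pow_mul] at h1
      exact h1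
    · intro j hj
      rw [Finset.mem_Icc] at hj
      have hj1 : (j : ℚ) ≤ r * n := by exact_mod_cast hj.2
      have hj0 : (1 : ℚ) ≤ j := by exact_mod_cast hj.1
      rw [map_mul, TS_lin, TS_lin, sq]
      refine maj_mul (maj_mono (maj_lin _) ?_) (maj_mono (maj_lin _) ?_)
      · rw [abs_of_nonpos (by linarith)]
        linarith
      · rw [abs_of_nonneg (by linarith)]
        linarith

/-- `∏_{j < k} (j + 1 / 2)` is large. -/
theorem half_prod (k : ℕ) : (k.factorial : ℚ) ≤ (2 * k + 1) * ∏ j ∈ Finset.range k, ((j : ℚ) + 1 / 2) ∧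
    0 < ∏ j ∈ Finset.range k, ((j : ℚ) + 1 / 2) := by
  constructor
  · induction k with
    | zero => simp
    | succ k ih =>
      rw [Nat.factorial_succ, Finset.prod_range_succ]
      obtain ⟨P, hP⟩ : ∃ P : ℚ, P = ∏ j ∈ Finset.range k, ((j : ℚ) + 1 / 2) := ⟨_, rfl⟩
      have hP0 : 0 < P := by
        rw [hP]
        exact Finset.prod_pos fun j _ => by positivity
      rw [← hP] at ih ⊢
      push_cast
      have h1 : ((k : ℚ) + 1) * (k.factorial : ℚ) ≤ ((k : ℚ) + 1) * ((2 * k + 1) * P) :=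
        mul_le_mul_of_nonneg_left ih (by positivity)
      have h2 : 0 ≤ P * ((k : ℚ) + 1 / 2) := by positivity
      nlinarith
  · exact Finset.prod_pos fun j _ => by positivity

/-- The product over the other poles. -/
theorem erase_prod (n k : ℕ) (hk : k < n) :
    ∏ m ∈ (Finset.range n).erase k, (|(-(k : ℚ)) + m| - 1 / 2) =
      (∏ j ∈ Finset.range k, ((j : ℚ) + 1 / 2)) *
        ∏ j ∈ Finset.range (n - 1 - k), ((j : ℚ) + 1 / 2) := by
  obtain ⟨d, rfl⟩ : ∃ d, n = k + 1 + d := ⟨n - 1 - k, by omega⟩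
  have e : k + 1 + d - 1 - k = d := by omega
  rw [e]
  have h1 := Finset.mul_prod_erase (Finset.range (k + 1 + d))
    (fun m : ℕ => |(-(k : ℚ)) + m| - 1 / 2) (Finset.mem_range.2 hk)
  have h2 : ∏ m ∈ Finset.range (k + 1 + d), (|(-(k : ℚ)) + m| - 1 / 2) =
      ((∏ j ∈ Finset.range k, ((j : ℚ) + 1 / 2)) * (|(-(k : ℚ)) + k| - 1 / 2)) *
        ∏ j ∈ Finset.range d, ((j : ℚ) + 1 / 2) := by
    rw [Finset.prod_range_add, Finset.prod_range_succ]
    congr 1
    · congr 1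
      rw [← Finset.prod_range_reflect]
      refine Finset.prod_congr rfl fun j hj => ?_
      have hj' := Finset.mem_range.1 hj
      have h3 : ((k - 1 - j : ℕ) : ℚ) = (k : ℚ) - 1 - j := by
        rw [Nat.sub_sub, Nat.cast_sub (by omega)]
        push_cast
        ring
      have h4 : (j : ℚ) + 1 ≤ k := by exact_mod_cast hj'
      have h5 : (0 : ℚ) ≤ j := Nat.cast_nonneg j
      rw [h3, abs_of_nonpos (by linarith)]
      ring
    · refine Finset.prod_congr rfl fun j _ => ?_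
      have h5 : (0 : ℚ) ≤ j := Nat.cast_nonneg j
      push_cast
      rw [abs_of_nonneg (by linarith)]
      ring
  rw [h2] at h1
  have h6 : (|(-(k : ℚ)) + k| - 1 / 2) ≠ 0 := by norm_num
  have h7 : (|(-(k : ℚ)) + k| - 1 / 2) * ∏ m ∈ (Finset.range (k + 1 + d)).erase k,
      (|(-(k : ℚ)) + m| - 1 / 2) = (|(-(k : ℚ)) + k| - 1 / 2) *
      ((∏ j ∈ Finset.range k, ((j : ℚ) + 1 / 2)) * ∏ j ∈ Finset.range d, ((j : ℚ) + 1 / 2)) := by
    rw [h1]
    ring
  exact mul_left_cancel₀ h6 h7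

theorem maj_VV (n h k : ℕ) (hk : k < n) : Maj (VV ((sP n).erase k) (mP h) (-(k : ℚ)))
    ((1 / ∏ m ∈ (Finset.range n).erase k, (|(-(k : ℚ)) + m| - 1 / 2)) ^ (2 * h)) := by
  unfold VV
  have e : (1 / ∏ m ∈ (Finset.range n).erase k, (|(-(k : ℚ)) + m| - 1 / 2)) ^ (2 * h) =
      ∏ m ∈ (Finset.range n).erase k, (1 / (|(-(k : ℚ)) + m| - 1 / 2)) ^ (2 * h) := by
    rw [Finset.prod_pow, one_div, ← Finset.prod_inv_distrib]
    simp only [one_div]
  rw [e]
  refine maj_prod _ _ _ fun m hm => maj_pow (maj_iv _ ?_) _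
  have hne : m ≠ k := (Finset.mem_erase.1 hm).1
  rcases lt_or_gt_of_ne hne with h1 | h1
  · have h2 : (m : ℚ) + 1 ≤ k := by exact_mod_cast h1
    rw [abs_of_nonpos (by linarith)]
    linarith
  · have h2 : (k : ℚ) + 1 ≤ m := by exact_mod_cast h1
    rw [abs_of_nonneg (by linarith)]
    linarith

/-- The factorial divided by the product. -/
theorem fact_div (n k : ℕ) (hk : k < n) :
    0 < ∏ m ∈ (Finset.range n).erase k, (|(-(k : ℚ)) + m| - 1 / 2) ∧
    (n.factorial : ℚ) / ∏ m ∈ (Finset.range n).erase k, (|(-(k : ℚ)) + m| - 1 / 2) ≤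
      4 * n ^ 3 * 2 ^ n := by
  rw [erase_prod n k hk]
  obtain ⟨h1, h2⟩ := half_prod k
  obtain ⟨h3, h4⟩ := half_prod (n - 1 - k)
  refine ⟨mul_pos h2 h4, ?_⟩
  obtain ⟨P, hP⟩ : ∃ P : ℚ, P = ∏ j ∈ Finset.range k, ((j : ℚ) + 1 / 2) := ⟨_, rfl⟩
  obtain ⟨Q, hQ⟩ : ∃ Q : ℚ, Q = ∏ j ∈ Finset.range (n - 1 - k), ((j : ℚ) + 1 / 2) := ⟨_, rfl⟩
  rw [← hP] at h1 h2 ⊢
  rw [← hQ] at h3 h4 ⊢
  have hn1 : (1 : ℚ) ≤ n := by exact_mod_cast (by omega : 1 ≤ n)
  have h1' : (k.factorial : ℚ) ≤ (2 * n) * P := by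
    refine h1.trans (mul_le_mul_of_nonneg_right ?_ h2.le)
    exact_mod_cast (by omega : 2 * k + 1 ≤ 2 * n)
  have h3' : ((n - 1 - k).factorial : ℚ) ≤ (2 * n) * Q := by
    refine h3.trans (mul_le_mul_of_nonneg_right ?_ h4.le)
    exact_mod_cast (by omega : 2 * (n - 1 - k) + 1 ≤ 2 * n)
  have h5 : n.factorial ≤ n * 2 ^ n * (k.factorial * (n - 1 - k).factorial) := by
    have e1 : n.factorial = n * (n - 1).factorial := by
      obtain ⟨m, rfl⟩ : ∃ m, n = m + 1 := ⟨n - 1, by omega⟩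
      rw [Nat.factorial_succ, Nat.add_sub_cancel]
    have e2 := Nat.choose_mul_factorial_mul_factorial (n := n - 1) (k := k) (by omega)
    have e3 : (n - 1).choose k ≤ 2 ^ n :=
      (Nat.choose_le_two_pow (n - 1) k).trans (Nat.pow_le_pow_right (by norm_num) (by omega))
    rw [e1, ← e2]
    calc n * ((n - 1).choose k * k.factorial * (n - 1 - k).factorial)
        ≤ n * (2 ^ n * k.factorial * (n - 1 - k).factorial) := by gcongr
      _ = _ := by ring
  have h6 : (n.factorial : ℚ) ≤ n * 2 ^ n * (k.factorial * (n - 1 - k).factorial) := by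
    exact_mod_cast h5
  rw [div_le_iff₀ (mul_pos h2 h4)]
  calc (n.factorial : ℚ) ≤ n * 2 ^ n * (k.factorial * (n - 1 - k).factorial) := h6
    _ ≤ n * 2 ^ n * ((2 * n * P) * (2 * n * Q)) := by gcongr
    _ = _ := by ring

theorem bound (h r n k i : ℕ) (hr : 1 ≤ r) (hrh : r * r ≤ h) (hk : k < n) (hi : 1 ≤ i)
    (hi2 : i ≤ 2 * h) : ((|pa (sP n) (mP h) (Pn n h r) k i| : ℚ) : ℝ) ≤
      2 ^ (2 * h) * (3 * n) * (4 * n ^ 3 * 2 ^ n) ^ (2 * h) *
        (((((r : ℝ) + 1) * n) ^ n / n.factorial)) ^ (2 * r) := by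
  have hrr : r ≤ h := (Nat.le_mul_self r).trans hrh
  obtain ⟨E, hE⟩ : ∃ E : ℚ, E = ∏ m ∈ (Finset.range n).erase k, (|(-(k : ℚ)) + m| - 1 / 2) :=
    ⟨_, rfl⟩
  obtain ⟨hE0, hEn⟩ := fact_div n k hk
  have h1 := maj_mul (maj_Pn n h r k hr hk) (maj_VV n h k hk)
  rw [← hE] at hE0 hEn h1
  have h2 : |pa (sP n) (mP h) (Pn n h r) k i| ≤ 2 ^ (2 * h) * ((n.factorial : ℚ) ^ (2 * h - 2 * r) *
      (3 * n) * (((r : ℚ) + 1) * n) ^ (2 * (r * n)) * (1 / E) ^ (2 * h)) := by
    unfold pa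
    rw [if_pos hi2]
    unfold pfc
    refine (maj_coeff h1 _).trans ?_
    refine mul_le_mul_of_nonneg_right ?_ (maj_nonneg h1)
    exact pow_le_pow_right₀ (by norm_num) (Nat.sub_le (2 * h) i)
  have hF : (0 : ℚ) < n.factorial := by exact_mod_cast Nat.factorial_pos n
  have h3 : (n.factorial : ℚ) ^ (2 * h - 2 * r) * (3 * n) *
      (((r : ℚ) + 1) * n) ^ (2 * (r * n)) * (1 / E) ^ (2 * h) =
      (3 * n) * ((n.factorial : ℚ) / E) ^ (2 * h) *
        (((((r : ℚ) + 1) * n) ^ n / n.factorial)) ^ (2 * r) := by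
    have e1 : (n.factorial : ℚ) ^ (2 * h) = (n.factorial : ℚ) ^ (2 * h - 2 * r) *
        (n.factorial : ℚ) ^ (2 * r) := by
      rw [← pow_add]
      congr 1
      omega
    have e2 : (((((r : ℚ) + 1) * n) ^ n / n.factorial)) ^ (2 * r) =
        (((r : ℚ) + 1) * n) ^ (2 * (r * n)) / (n.factorial : ℚ) ^ (2 * r) := by
      rw [div_pow, ← pow_mul, show n * (2 * r) = 2 * (r * n) by ring]
    have e3 : ((n.factorial : ℚ) / E) ^ (2 * h) = (n.factorial : ℚ) ^ (2 * h - 2 * r) *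
        (n.factorial : ℚ) ^ (2 * r) * (1 / E) ^ (2 * h) := by
      rw [div_eq_mul_one_div, mul_pow, e1]
    rw [e2, e3]
    field_simp
  rw [h3] at h2
  have h4 : (3 * (n : ℚ)) * ((n.factorial : ℚ) / E) ^ (2 * h) *
        (((((r : ℚ) + 1) * n) ^ n / n.factorial)) ^ (2 * r) ≤
      (3 * n) * (4 * n ^ 3 * 2 ^ n) ^ (2 * h) *
        (((((r : ℚ) + 1) * n) ^ n / n.factorial)) ^ (2 * r) := by
    gcongr
  have h5 : |pa (sP n) (mP h) (Pn n h r) k i| ≤ 2 ^ (2 * h) * ((3 * n) *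
      (4 * n ^ 3 * 2 ^ n) ^ (2 * h) * (((((r : ℚ) + 1) * n) ^ n / n.factorial)) ^ (2 * r)) :=
    h2.trans (mul_le_mul_of_nonneg_left h4 (by positivity))
  have h6 : ((|pa (sP n) (mP h) (Pn n h r) k i| : ℚ) : ℝ) ≤ ((2 ^ (2 * h) * ((3 * n) *
      (4 * n ^ 3 * 2 ^ n) ^ (2 * h) *
        (((((r : ℚ) + 1) * n) ^ n / n.factorial)) ^ (2 * r)) : ℚ) : ℝ) := Rat.cast_le.2 h5
  refine h6.trans (le_of_eq ?_)
  push_cast
  ring

end SIZ

open SIZ in
theorem t_siz : S_SIZ := by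
  intro h r hr hrh
  refine ⟨1, fun n hn k i hk hi hi2 => ?_⟩
  have hn1 : (1 : ℝ) ≤ n := by exact_mod_cast hn
  have hr1 : (1 : ℝ) ≤ r := by exact_mod_cast hr
  have hrh' : (r : ℝ) * r ≤ h := by exact_mod_cast hrh
  have hh1 : (1 : ℝ) ≤ h := by nlinarith
  have h0 := bound h r n k i hr hrh hk hi hi2
  rw [Rat.cast_abs] at h0
  refine h0.trans ?_
  have e1 : (2 : ℝ) ^ (2 * h) ≤ Real.exp (2 * h) := by
    have : (2 : ℝ) ≤ Real.exp 1 := by
      have := Real.add_one_le_exp (1 : ℝ)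
      linarith
    calc (2 : ℝ) ^ (2 * h) ≤ Real.exp 1 ^ (2 * h) := pow_le_pow_left₀ (by norm_num) this _
      _ = Real.exp (2 * h) := by
        rw [← Real.exp_nat_mul]
        congr 1
        push_cast
        ring
  have e2 : 3 * (n : ℝ) ≤ Real.exp (3 * n) := by
    have := Real.add_one_le_exp (3 * (n : ℝ))
    linarith
  have e3 : (4 : ℝ) * n ^ 3 * 2 ^ n ≤ Real.exp (3 + 4 * n) := by
    have a1 : (4 : ℝ) ≤ Real.exp 3 := by
      have := Real.add_one_le_exp (3 : ℝ)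
      linarith
    have a2 : (n : ℝ) ≤ Real.exp n := by
      have := Real.add_one_le_exp (n : ℝ)
      linarith
    have a3 : (2 : ℝ) ≤ Real.exp 1 := by
      have := Real.add_one_le_exp (1 : ℝ)
      linarith
    calc (4 : ℝ) * n ^ 3 * 2 ^ n ≤ Real.exp 3 * Real.exp n ^ 3 * Real.exp 1 ^ n := by gcongr
      _ = Real.exp (3 + 4 * n) := by
        rw [← Real.exp_nat_mul, ← Real.exp_nat_mul, ← Real.exp_add, ← Real.exp_add]
        congr 1
        push_cast
        ring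
  have e4 : ((4 : ℝ) * n ^ 3 * 2 ^ n) ^ (2 * h) ≤ Real.exp ((2 * h) * (3 + 4 * n)) := by
    calc ((4 : ℝ) * n ^ 3 * 2 ^ n) ^ (2 * h) ≤ Real.exp (3 + 4 * n) ^ (2 * h) :=
          pow_le_pow_left₀ (by positivity) e3 _
      _ = _ := by
        rw [← Real.exp_nat_mul]
        congr 1
        push_cast
        ring
  have e5 : (((((r : ℝ) + 1) * n) ^ n / n.factorial)) ^ (2 * r) ≤
      Real.exp ((2 * r) * ((r + 1) * n)) := by
    calc (((((r : ℝ) + 1) * n) ^ n / n.factorial)) ^ (2 * r) ≤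
        Real.exp (((r : ℝ) + 1) * n) ^ (2 * r) :=
          pow_le_pow_left₀ (by positivity) (Real.pow_div_factorial_le_exp _ (by positivity) n) _
      _ = _ := by
        rw [← Real.exp_nat_mul]
        congr 1
        push_cast
        ring
  calc (2 : ℝ) ^ (2 * h) * (3 * n) * (4 * n ^ 3 * 2 ^ n) ^ (2 * h) *
        (((((r : ℝ) + 1) * n) ^ n / n.factorial)) ^ (2 * r)
      ≤ Real.exp (2 * h) * Real.exp (3 * n) * Real.exp ((2 * h) * (3 + 4 * n)) *
        Real.exp ((2 * r) * ((r + 1) * n)) := by gcongr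
    _ = Real.exp (2 * h + 3 * n + (2 * h) * (3 + 4 * n) + (2 * r) * ((r + 1) * n)) := by
      rw [← Real.exp_add, ← Real.exp_add, ← Real.exp_add]
    _ ≤ Real.exp (30 * h * n) := by
      refine Real.exp_le_exp.2 ?_
      have b1 : (h : ℝ) ≤ h * n := by nlinarith
      have b2 : (n : ℝ) ≤ h * n := by nlinarith
      have b3 : (r : ℝ) ≤ h := by nlinarith
      have b4 : (r : ℝ) * (r + 1) ≤ 2 * h := by nlinarith
      have b5 : (2 * (r : ℝ)) * ((r + 1) * n) ≤ 4 * (h * n) := by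
        have : (r : ℝ) * (r + 1) * n ≤ 2 * h * n := by gcongr
        linarith
      nlinarith

end Pool.Agent.W245.BR
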