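import Pool.Agent.W245.BR.Stm
import Pool.Agent.W165.OZ.PF
import Pool.Agent.W165.OZ.DS
import Pool.Agent.W165.OZ.EV

/-!
# Task BR-SUM: the linear form
-/

set_option autoImplicit false

open Polynomial Pool.Agent.H337R2 Filter Topology Pool.Agent.W165.OZ

namespace Pool.Agent.W245.BR

noncomputable section

namespace SUM

theorem Zn_monic (n r : ℕ) : (Zn n r).Monic := by
  unfold Zn
  exact monic_prod_of_monic _ _ fun j _ => monic_X_sub_C _

theorem Zn_natDegree (n r : ℕ) : (Zn n r).natDegree = r * n := by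
  unfold Zn
  rw [natDegree_prod_of_monic _ _ fun j _ => monic_X_sub_C _,
    Finset.sum_congr rfl fun j _ => natDegree_X_sub_C _, Finset.sum_const, Nat.card_Icc,
    Nat.add_sub_cancel, smul_eq_mul, mul_one]

theorem Pn_num (n h r : ℕ) :
    Pn n h r = num n (C ((n.factorial : ℚ) ^ (2 * h - 2 * r)) * Zn n r) := by
  unfold Pn
  rw [num_C_mul]

theorem yp_natDegree (n : ℕ) : (yp n).natDegree ≤ 2 := by
  unfold yp
  compute_degree

theorem Pn_deg (n h r : ℕ) : (Pn n h r).natDegree ≤ 1 + 2 * (r * n) := by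
  unfold Pn num
  refine (natDegree_C_mul_le _ _).trans ?_
  refine natDegree_mul_le_of_le ?_ ?_
  · compute_degree
  · refine natDegree_comp_le.trans ?_
    rw [Zn_natDegree]
    calc r * n * (yp n).natDegree ≤ r * n * 2 := Nat.mul_le_mul_left _ (yp_natDegree n)
      _ = 2 * (r * n) := by ring

theorem Pn_eval (n h r : ℕ) (x : ℚ) : (Pn n h r).eval x =
    (n.factorial : ℚ) ^ (2 * h - 2 * r) * (2 * x + ((n : ℚ) - 1)) *
      ∏ j ∈ Finset.Icc 1 (r * n), ((x - (j : ℚ)) * (x + ((n : ℚ) - 1) + (j : ℚ))) := by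
  unfold Pn num Zn yp
  rw [eval_mul, eval_mul, eval_C, eval_comp, eval_prod, mul_assoc]
  congr 1
  congr 1
  · simp
  · refine Finset.prod_congr rfl fun j _ => ?_
    simp only [eval_sub, eval_X, eval_C, eval_mul, eval_add]
    ring

theorem term (n h r u : ℕ) : (((Pn n h r).eval (((u : ℚ) + (1 : ℕ) + 1) / (1 : ℕ)) /
      (∏ k ∈ Finset.range n, (((u : ℚ) + (1 : ℕ) + 1) / (1 : ℕ) + (k : ℚ))) ^ (2 * h) : ℚ) : ℝ) =
    Rr n h r ((u : ℝ) + 2) := by
  have h1 : ((u : ℚ) + (1 : ℕ) + 1) / (1 : ℕ) = (u : ℚ) + 2 := by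
    push_cast
    ring
  rw [h1, Pn_eval]
  unfold Rr
  push_cast
  ring

end SUM

open SUM in
theorem t_sum : S_SUM := by
  intro n h r hn hr
  have hdeg : (Pn n h r).natDegree + 2 ≤ 2 * h * n := by
    have h1 := Pn_deg n h r
    obtain ⟨e, rfl⟩ := Nat.exists_eq_add_of_lt hr
    have h2 : 2 * (r + e + 1) * n = 2 * (r * n) + 2 * (e * n) + 2 * n := by ring
    rw [h2]
    omega
  have hds := t_ds t_pf n h 1 (Pn n h r) (by omega) (by omega) le_rfl hdeg
  simp only [term] at hds
  refine ⟨hds.summable, ?_⟩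
  unfold Sn
  rw [hds.tsum_eq, Finset.sum_sub_distrib, mul_sub]
  congr 1
  · rw [Finset.mul_sum]
    unfold Od
    rw [Finset.sum_filter]
    refine Finset.sum_congr rfl fun i hi => ?_
    rw [Finset.mem_Icc] at hi
    by_cases h1 : Odd i ∧ 3 ≤ i
    · rw [if_pos h1, if_pos (by omega)]
      unfold Ac
      push_cast
      ring
    · rw [if_neg h1]
      by_cases h2 : Even i
      · rw [Pn_num, t_ev n h _ i (by omega) h2 hi.1]
        push_cast
        ring
      · have h3 : Odd i := Nat.not_even_iff_odd.1 h2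
        have h4 : i < 3 := by
          by_contra hcon
          exact h1 ⟨h3, by omega⟩
        have h5 : i = 1 := by
          obtain ⟨t, rfl⟩ := h3
          omega
        rw [if_neg (by omega)]
        ring
  · unfold Bc
    push_cast
    simp only [one_pow, one_mul]

end

end Pool.Agent.W245.BR
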