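import Pool.Agent.W245.BR.Stm

/-!
Project BR, parts POS and UP.
-/

open Polynomial Pool.Agent.H337R2 Filter Topology Pool.Agent.W165.OZ

namespace Pool.Agent.W245.BR

namespace UP

lemma R_zero (n h r t : ℕ) (h1 : 1 ≤ t) (h2 : t ≤ r * n) : Rr n h r t = 0 := by
  unfold Rr
  rw [Finset.prod_eq_zero (Finset.mem_Icc.2 ⟨h1, h2⟩)]
  · simp
  · rw [sub_self, zero_mul]

lemma R_pos (n h r t : ℕ) (hn : 1 ≤ n) (ht : r * n < t) : 0 < Rr n h r t := by
  unfold Rr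
  have ht0 : (0 : ℝ) < t := by exact_mod_cast (by omega : 0 < t)
  have hn1 : (1 : ℝ) ≤ n := by exact_mod_cast hn
  apply div_pos
  · apply mul_pos
    · exact mul_pos (pow_pos (by exact_mod_cast Nat.factorial_pos n) _) (by linarith)
    · refine Finset.prod_pos fun j hj => ?_
      obtain ⟨h1, h2⟩ := Finset.mem_Icc.1 hj
      have h3 : (j : ℝ) < t := by exact_mod_cast (by omega : j < t)
      have h4 : (0 : ℝ) ≤ j := Nat.cast_nonneg _
      exact mul_pos (by linarith) (by linarith)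
  · refine pow_pos (Finset.prod_pos fun k _ => ?_) _
    positivity

lemma R_nonneg (n h r t : ℕ) (hn : 1 ≤ n) (ht : 1 ≤ t) : 0 ≤ Rr n h r t := by
  by_cases h1 : t ≤ r * n
  · rw [R_zero n h r t ht h1]
  · exact (R_pos n h r t hn (by omega)).le

lemma R_le (n h r t : ℕ) (hn : 1 ≤ n) (hr : 1 ≤ r) (hrh : r ≤ h) (hM : 3 ≤ (2 * h - 2 * r) * n)
    (ht : r * n < t) :
    Rr n h r t ≤ 3 ^ (r * n + 1) * (n : ℝ) ^ 3 * (r : ℝ) ^ 3 / (r : ℝ) ^ ((2 * h - 2 * r) * n) *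
      (1 / (t : ℝ) ^ 2) := by
  have hnt : n ≤ t := by nlinarith
  have ht0 : (0 : ℝ) < t := by exact_mod_cast (by omega : 0 < t)
  have hn1 : (1 : ℝ) ≤ n := by exact_mod_cast hn
  have hr1 : (1 : ℝ) ≤ r := by exact_mod_cast hr
  have hnt' : (n : ℝ) ≤ t := by exact_mod_cast hnt
  set M := (2 * h - 2 * r) * n with hMd
  -- the factors
  have a1 : (n.factorial : ℝ) ^ (2 * h - 2 * r) ≤ (n : ℝ) ^ M := by
    have e : (n : ℝ) ^ M = ((n : ℝ) ^ n) ^ (2 * h - 2 * r) := by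
      rw [← pow_mul, hMd, mul_comm]
    rw [e]
    exact pow_le_pow_left₀ (Nat.cast_nonneg _) (by exact_mod_cast Nat.factorial_le_pow n) _
  have a2 : 2 * (t : ℝ) + ((n : ℝ) - 1) ≤ 3 * t := by linarith
  have a2' : 0 ≤ 2 * (t : ℝ) + ((n : ℝ) - 1) := by linarith
  have a3 : ∏ j ∈ Finset.Icc 1 (r * n), (((t : ℝ) - (j : ℝ)) * ((t : ℝ) + ((n : ℝ) - 1) + (j : ℝ))) ≤
      (3 * (t : ℝ) ^ 2) ^ (r * n) := by
    have e : (3 * (t : ℝ) ^ 2) ^ (r * n) = ∏ _j ∈ Finset.Icc 1 (r * n), (3 * (t : ℝ) ^ 2) := by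
      rw [Finset.prod_const, Nat.card_Icc, Nat.add_sub_cancel]
    rw [e]
    refine Finset.prod_le_prod (fun j hj => ?_) (fun j hj => ?_)
    · obtain ⟨h1, h2⟩ := Finset.mem_Icc.1 hj
      have h3 : (j : ℝ) < t := by exact_mod_cast (by omega : j < t)
      have h4 : (0 : ℝ) ≤ j := Nat.cast_nonneg _
      exact mul_nonneg (by linarith) (by linarith)
    · obtain ⟨h1, h2⟩ := Finset.mem_Icc.1 hj
      have h3 : (j : ℝ) < t := by exact_mod_cast (by omega : j < t)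
      have h4 : (0 : ℝ) ≤ j := Nat.cast_nonneg _
      have h5 : 3 * (t : ℝ) ^ 2 = t * (3 * t) := by ring
      rw [h5]
      exact mul_le_mul (by linarith) (by linarith) (by linarith) ht0.le
  have a3' : 0 ≤ ∏ j ∈ Finset.Icc 1 (r * n),
      (((t : ℝ) - (j : ℝ)) * ((t : ℝ) + ((n : ℝ) - 1) + (j : ℝ))) := by
    refine Finset.prod_nonneg fun j hj => ?_
    obtain ⟨h1, h2⟩ := Finset.mem_Icc.1 hj
    have h3 : (j : ℝ) < t := by exact_mod_cast (by omega : j < t)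
    have h4 : (0 : ℝ) ≤ j := Nat.cast_nonneg _
    exact mul_nonneg (by linarith) (by linarith)
  have a4 : (t : ℝ) ^ n ≤ ∏ k ∈ Finset.range n, ((t : ℝ) + (k : ℝ)) := by
    have e : (t : ℝ) ^ n = ∏ _k ∈ Finset.range n, (t : ℝ) := by
      rw [Finset.prod_const, Finset.card_range]
    rw [e]
    exact Finset.prod_le_prod (fun _ _ => ht0.le) fun k _ => by
      have : (0 : ℝ) ≤ k := Nat.cast_nonneg _
      linarith
  have a4' : (t : ℝ) ^ (2 * h * n) ≤ (∏ k ∈ Finset.range n, ((t : ℝ) + (k : ℝ))) ^ (2 * h) := by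
    rw [mul_comm (2 * h) n, pow_mul]
    exact pow_le_pow_left₀ (by positivity) a4 _
  have b1 : Rr n h r t ≤ (n : ℝ) ^ M * (3 * t) * (3 * (t : ℝ) ^ 2) ^ (r * n) /
      (t : ℝ) ^ (2 * h * n) := by
    unfold Rr
    refine div_le_div₀ (by positivity) ?_ (by positivity) a4'
    refine mul_le_mul ?_ a3 a3' (by positivity)
    exact mul_le_mul a1 a2 a2' (by positivity)
  have hsplit : 2 * h * n = M + 2 * (r * n) := by
    have : (2 * h - 2 * r) * n + 2 * r * n = 2 * h * n := by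
      rw [← add_mul, Nat.sub_add_cancel (by omega)]
    rw [hMd, ← this]
    ring
  have b2 : (n : ℝ) ^ M * (3 * t) * (3 * (t : ℝ) ^ 2) ^ (r * n) / (t : ℝ) ^ (2 * h * n) =
      3 ^ (r * n + 1) * t * ((n : ℝ) ^ M / (t : ℝ) ^ M) := by
    rw [hsplit, pow_add, mul_pow, pow_mul (t : ℝ) 2 (r * n)]
    field_simp
    ring
  have b3 : (n : ℝ) ^ M / (t : ℝ) ^ M ≤ (n : ℝ) ^ 3 * (r : ℝ) ^ 3 / ((t : ℝ) ^ 3 * (r : ℝ) ^ M) := by
    obtain ⟨K, hK⟩ : ∃ K, M = 3 + K := ⟨M - 3, by omega⟩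
    have hrn : (r : ℝ) * n ≤ t := by
      have : r * n ≤ t := ht.le
      exact_mod_cast this
    have h6 : ((r : ℝ) * n) ^ K ≤ (t : ℝ) ^ K := pow_le_pow_left₀ (by positivity) hrn K
    rw [div_le_div_iff₀ (by positivity) (by positivity), hK, pow_add, pow_add, pow_add]
    rw [mul_pow] at h6
    have h7 := mul_le_mul_of_nonneg_left h6
      (by positivity : (0 : ℝ) ≤ (n : ℝ) ^ 3 * (r : ℝ) ^ 3 * (t : ℝ) ^ 3)
    nlinarith [h7]
  calc Rr n h r t ≤ 3 ^ (r * n + 1) * t * ((n : ℝ) ^ M / (t : ℝ) ^ M) := b2 ▸ b1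
    _ ≤ 3 ^ (r * n + 1) * t * ((n : ℝ) ^ 3 * (r : ℝ) ^ 3 / ((t : ℝ) ^ 3 * (r : ℝ) ^ M)) :=
        mul_le_mul_of_nonneg_left b3 (by positivity)
    _ = _ := by
        field_simp

lemma sum_sq (N : ℕ) : ∑ u ∈ Finset.range N, (1 / ((u : ℝ) + 2) ^ 2) ≤ 1 - 1 / ((N : ℝ) + 1) := by
  induction N with
  | zero => simp
  | succ N ih =>
    rw [Finset.sum_range_succ]
    have h1 : 1 / ((N : ℝ) + 2) ^ 2 ≤ 1 / ((N : ℝ) + 1) - 1 / ((N : ℝ) + 2) := by
      have e : 1 / ((N : ℝ) + 1) - 1 / ((N : ℝ) + 2) = 1 / (((N : ℝ) + 1) * ((N : ℝ) + 2)) := by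
        field_simp
        ring
      rw [e]
      refine one_div_le_one_div_of_le (by positivity) ?_
      nlinarith [Nat.cast_nonneg (α := ℝ) N]
    have h2 : (((N + 1 : ℕ) : ℝ) + 1) = (N : ℝ) + 2 := by push_cast; ring
    rw [h2]
    linarith

lemma S_le (n h r : ℕ) (hn : 1 ≤ n) (hr : 1 ≤ r) (hrh : r ≤ h) (hM : 3 ≤ (2 * h - 2 * r) * n) :
    Sn n h r ≤ 3 ^ (r * n + 1) * (n : ℝ) ^ 3 * (r : ℝ) ^ 3 / (r : ℝ) ^ ((2 * h - 2 * r) * n) := by
  have hr1 : (1 : ℝ) ≤ r := by exact_mod_cast hr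
  set K : ℝ := 3 ^ (r * n + 1) * (n : ℝ) ^ 3 * (r : ℝ) ^ 3 / (r : ℝ) ^ ((2 * h - 2 * r) * n) with hK
  have hK0 : 0 ≤ K := by positivity
  have hc : ∀ u : ℕ, (u : ℝ) + 2 = ((u + 2 : ℕ) : ℝ) := fun u => by push_cast; ring
  unfold Sn
  refine Real.tsum_le_of_sum_range_le (fun u => ?_) (fun N => ?_)
  · rw [hc]
    exact R_nonneg n h r _ hn (by omega)
  · have h1 : ∀ u ∈ Finset.range N, Rr n h r ((u : ℝ) + 2) ≤ K * (1 / ((u : ℝ) + 2) ^ 2) := by
      intro u _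
      rw [hc]
      by_cases h2 : u + 2 ≤ r * n
      · rw [R_zero n h r _ (by omega) h2]
        positivity
      · exact R_le n h r _ hn hr hrh hM (by omega)
    refine (Finset.sum_le_sum h1).trans ?_
    rw [← Finset.mul_sum]
    have h3 := sum_sq N
    have h4 : (0 : ℝ) ≤ 1 / ((N : ℝ) + 1) := by positivity
    calc K * ∑ u ∈ Finset.range N, (1 / ((u : ℝ) + 2) ^ 2) ≤ K * 1 :=
          mul_le_mul_of_nonneg_left (by linarith) hK0
      _ = K := mul_one K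

lemma log3 : Real.log 3 ≤ 3 / 2 := by
  rw [Real.log_le_iff_le_exp (by norm_num)]
  have := Real.quadratic_le_exp_of_nonneg (x := 3 / 2) (by norm_num)
  linarith

end UP

open UP

theorem t_pos : S_POS := by
  intro n h r hn _
  refine ⟨fun u => ?_, fun t ht => R_pos n h r t hn ht⟩
  have hc : (u : ℝ) + 2 = ((u + 2 : ℕ) : ℝ) := by push_cast; ring
  rw [hc]
  exact R_nonneg n h r _ hn (by omega)

theorem t_up (_hSUM : S_SUM) : S_UP := by
  intro h r hr hrh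
  have h1 : ∀ᶠ n : ℕ in atTop, Real.log n ≤ (1 / 24) * n := by
    have h2 := (tendsto_natCast_atTop_atTop (R := ℝ)).eventually
      (Real.isLittleO_log_id_atTop.def (by norm_num : (0 : ℝ) < 1 / 24))
    filter_upwards [h2] with n hn
    rw [id, Real.norm_of_nonneg (Nat.cast_nonneg n)] at hn
    exact (le_abs_self _).trans hn
  have h3 : ∀ᶠ n : ℕ in atTop, (Real.log 3 + 3 * Real.log r) * 8 ≤ (n : ℝ) :=
    (tendsto_natCast_atTop_atTop (R := ℝ)).eventually_ge_atTop _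
  obtain ⟨n0, hn0⟩ := eventually_atTop.1 (h1.and (h3.and (eventually_ge_atTop 1)))
  refine ⟨n0, fun n hn => ?_⟩
  obtain ⟨a1, a2, a3⟩ := hn0 n hn
  have hr2 : 2 * r ≤ h := by nlinarith
  have hM : 3 ≤ (2 * h - 2 * r) * n := by
    have : 4 ≤ 2 * h - 2 * r := by omega
    nlinarith
  refine (S_le n h r a3 (by omega) (by omega) hM).trans ?_
  have hn1 : (1 : ℝ) ≤ n := by exact_mod_cast a3
  have hr1 : (2 : ℝ) ≤ r := by exact_mod_cast hr
  have hhr : 2 * (r : ℝ) ≤ h := by exact_mod_cast hr2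
  have hn0' : (n : ℝ) ≠ 0 := by positivity
  have hr0' : (r : ℝ) ≠ 0 := by positivity
  have hpos : 0 < 3 ^ (r * n + 1) * (n : ℝ) ^ 3 * (r : ℝ) ^ 3 /
      (r : ℝ) ^ ((2 * h - 2 * r) * n) := by positivity
  rw [← Real.log_le_iff_le_exp hpos, Real.log_div (by positivity) (by positivity),
    Real.log_mul (by positivity) (by positivity), Real.log_mul (by positivity) (by positivity),
    Real.log_pow, Real.log_pow, Real.log_pow, Real.log_pow]
  have hMc : (((2 * h - 2 * r) * n : ℕ) : ℝ) = (2 * h - 2 * r) * n := by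
    rw [Nat.cast_mul, Nat.cast_sub (by omega)]
    push_cast
    ring
  rw [hMc]
  push_cast
  have hl : 0 ≤ Real.log r := Real.log_nonneg (by linarith)
  have b1 : (r : ℝ) * n * Real.log 3 ≤ 3 / 4 * (h * n) := by
    have c1 : (r : ℝ) * n * Real.log 3 ≤ r * n * (3 / 2) :=
      mul_le_mul_of_nonneg_left log3 (by positivity)
    have c2 : (r : ℝ) * n ≤ h / 2 * n := mul_le_mul_of_nonneg_right (by linarith) (by linarith)
    linarith
  have b2 : 0 ≤ ((h : ℝ) - 2 * r) * n * Real.log r :=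
    mul_nonneg (mul_nonneg (by linarith) (by linarith)) hl
  have b3 : (n : ℝ) ≤ h * n := by
    have : (1 : ℝ) ≤ h := by linarith
    nlinarith
  nlinarith [b1, b2, b3, a1, a2]

end Pool.Agent.W245.BR
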