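import Pool.Agent.W245.BR.NC
import Pool.Agent.W245.BR.SUM
import Pool.Agent.W245.BR.BK
import Pool.Agent.W245.BR.HN
import Pool.Agent.W245.BR.SIZ
import Pool.Agent.W245.BR.CFB
import Pool.Agent.W245.BR.UP
import Pool.Agent.W245.BR.MON
import Pool.Agent.W245.BR.RT
import Pool.Agent.W245.BR.RAT
import Pool.Agent.W245.BR.FIN

/-!
# The theorem of Ball and Rivoal
-/

namespace Pool.Agent.W245.BR

/-- the space spanned by `1, ζ(3), ..., ζ(2h-1)` over `ℚ` has dimension at least `c log h` -/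
theorem ball_rivoal : S_BR :=
  t_br t_nc t_sum t_dm (t_int t_bk t_hn) (t_cfb t_siz) t_pos (t_up t_sum) (t_rat t_sum t_pos t_mon t_rt)

end Pool.Agent.W245.BR
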