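import Pool.Agent.W165.OZ.Stm

/-!
# The theorem of Ball and Rivoal (dimension of the space of odd zeta values): statements of the parts

`R(t) = n!^(2h-2r) (2t+n-1) ∏_{j ≤ rn} (t-j)(t+n-1+j) / (t(t+1)...(t+n-1))^(2h)`.
-/

open Polynomial Pool.Agent.H337R2 Filter Topology Pool.Agent.W165.OZ

namespace Pool.Agent.W245.BR

noncomputable section

/-- `∏_{j=1}^{rn} (y - j(j+n-1))`; at `y = t(t+n-1)` the factors are `(t-j)(t+n-1+j)` -/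
def Zn (n r : ℕ) : ℚ[X] := ∏ j ∈ Finset.Icc 1 (r * n), (X - C ((j : ℚ) * ((j : ℚ) + ((n : ℚ) - 1))))

/-- the numerator -/
def Pn (n h r : ℕ) : ℚ[X] := C ((n.factorial : ℚ) ^ (2 * h - 2 * r)) * num n (Zn n r)

/-- the rational function on real numbers -/
def Rr (n h r : ℕ) (t : ℝ) : ℝ :=
  (n.factorial : ℝ) ^ (2 * h - 2 * r) * (2 * t + ((n : ℝ) - 1)) *
    (∏ j ∈ Finset.Icc 1 (r * n), ((t - (j : ℝ)) * (t + ((n : ℝ) - 1) + (j : ℝ)))) /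
      (∏ k ∈ Finset.range n, (t + (k : ℝ))) ^ (2 * h)

/-- the sum over `t ≥ 2` -/
def Sn (n h r : ℕ) : ℝ := ∑' u : ℕ, Rr n h r ((u : ℝ) + 2)

/-- coefficient of `ζ(i)` -/
def Ac (n h r i : ℕ) : ℚ := (Dl n 1 : ℚ) ^ (2 * h) * rhoP n h (Pn n h r) i

/-- the rational part -/
def Bc (n h r : ℕ) : ℚ :=
  (Dl n 1 : ℚ) ^ (2 * h) * ∑ i ∈ Finset.Icc 1 (2 * h), ∑ k ∈ sP n, pa (sP n) (mP h) (Pn n h r) k i * hs i (k + 1)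

/-- the indices of the odd zeta values -/
def Od (h : ℕ) : Finset ℕ := (Finset.Icc 1 (2 * h)).filter fun i => Odd i ∧ 3 ≤ i

/-- NC: linear independence criterion -/
def S_NC : Prop := ∀ (m : ℕ) (ξ : Fin m → ℝ) (p : ℕ → Fin m → ℤ) (α β c : ℝ) (n0 : ℕ), 0 < α → 0 < β → 0 < c →
  (∀ n ≥ n0, ∀ i, |(p n i : ℝ)| ≤ Real.exp (β * n)) →
  (∀ n ≥ n0, 0 < ∑ i, (p n i : ℝ) * ξ i) →
  (∀ n ≥ n0, ∑ i, (p n i : ℝ) * ξ i ≤ Real.exp (-(α * n))) →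
  (∀ n ≥ n0, 1 ≤ n → c / (n : ℝ) ^ 2 * ∑ i, (p n i : ℝ) * ξ i ≤ ∑ i, (p (n + 1) i : ℝ) * ξ i) →
  α ≤ β * ((Module.finrank ℚ (Submodule.span ℚ (Set.range ξ)) : ℝ) - 1)

/-- SUM: the linear form -/
def S_SUM : Prop := ∀ n h r : ℕ, 2 ≤ n → r < h →
  Summable (fun u : ℕ => Rr n h r ((u : ℝ) + 2)) ∧
  ((Dl n 1 : ℕ) : ℝ) ^ (2 * h) * Sn n h r = ∑ i ∈ Od h, (Ac n h r i : ℝ) * zr i - (Bc n h r : ℝ)

/-- BK: integrality of the partial fraction coefficients -/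
def S_BK : Prop := ∀ n h r k i : ℕ, 1 ≤ n → r ≤ h → k < n → 1 ≤ i → i ≤ 2 * h →
  ∃ z : ℤ, (Dl n 1 : ℚ) ^ (2 * h - i) * pa (sP n) (mP h) (Pn n h r) k i = z

/-- HN: integrality of the harmonic sums -/
def S_HN : Prop := ∀ n i m : ℕ, m ≤ n → ∃ z : ℤ, (Dl n 1 : ℚ) ^ i * hs i m = z

/-- DM: `Dl n 1` is increasing -/
def S_DM : Prop := ∀ n : ℕ, 1 ≤ Dl n 1 ∧ Dl n 1 ≤ Dl (n + 1) 1

/-- INT: integrality -/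
def S_INT : Prop := ∀ n h r : ℕ, 1 ≤ n → r ≤ h →
  (∀ i, 1 ≤ i → i ≤ 2 * h → ∃ z : ℤ, Ac n h r i = z) ∧ ∃ z : ℤ, Bc n h r = z

/-- SIZ: size of the partial fraction coefficients -/
def S_SIZ : Prop := ∀ h r : ℕ, 1 ≤ r → r * r ≤ h → ∃ n0 : ℕ, ∀ n ≥ n0, ∀ k i : ℕ, k < n → 1 ≤ i → i ≤ 2 * h →
  |((pa (sP n) (mP h) (Pn n h r) k i : ℚ) : ℝ)| ≤ Real.exp (30 * h * n)

/-- CFB: size of the coefficients -/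
def S_CFB : Prop := ∀ h r : ℕ, 1 ≤ r → r * r ≤ h → ∃ n0 : ℕ, ∀ n ≥ n0,
  (∀ i, 1 ≤ i → i ≤ 2 * h → |((Ac n h r i : ℚ) : ℝ)| ≤ Real.exp (40 * h * n)) ∧
  |((Bc n h r : ℚ) : ℝ)| ≤ Real.exp (40 * h * n)

/-- POS: positivity -/
def S_POS : Prop := ∀ n h r : ℕ, 1 ≤ n → 1 ≤ r →
  (∀ u : ℕ, 0 ≤ Rr n h r ((u : ℝ) + 2)) ∧ (∀ t : ℕ, r * n < t → 0 < Rr n h r t)

/-- UP: upper bound -/
def S_UP : Prop := ∀ h r : ℕ, 2 ≤ r → r * r ≤ h → ∃ n0 : ℕ, ∀ n ≥ n0,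
  Sn n h r ≤ Real.exp (-(h * n * (Real.log r - 1)))

/-- MON: `t ^ 2 R(t)` decreases for `t ≥ 4 r n` -/
def S_MON : Prop := ∀ (n h r : ℕ) (t : ℝ), 1 ≤ n → 1 ≤ r → 3 * r + 3 ≤ h → 4 * r * n ≤ t →
  (t + 1) ^ 2 * Rr n h r (t + 1) ≤ t ^ 2 * Rr n h r t

/-- RT: comparison of `n` and `n + 1` -/
def S_RT : Prop := ∀ h r : ℕ, 1 ≤ r → r ≤ h → ∃ c : ℝ, 0 < c ∧ ∀ n t : ℕ, 1 ≤ n → r * n < t → t ≤ 4 * r * n + 1 →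
  c * Rr n h r t ≤ Rr (n + 1) h r ((t : ℝ) + r)

/-- RAT: the sums do not decrease too fast -/
def S_RAT : Prop := ∀ h r : ℕ, 1 ≤ r → 3 * r + 3 ≤ h → ∃ c : ℝ, 0 < c ∧ ∀ n : ℕ, 2 ≤ n →
  0 < Sn n h r ∧ c / (n : ℝ) ^ 2 * Sn n h r ≤ Sn (n + 1) h r

/-- BR: the dimension of the space of odd zeta values -/
def S_BR : Prop := ∃ c : ℝ, 0 < c ∧ ∀ h : ℕ, 1 ≤ h →
  c * Real.log h ≤ Module.finrank ℚ (Submodule.span ℚ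
    (Set.range fun i : Fin h => if i.1 = 0 then (1 : ℝ) else zr (2 * i.1 + 1)))

end

end Pool.Agent.W245.BR
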