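import Mathlib
import Pool.Agent.W245.BR.Stm

/-!
# BR-NC: the criterion of Nesterenko
-/

set_option autoImplicit false

open Filter Topology

namespace Pool.Agent.W245.BR

namespace NC

/-- simultaneous approximation (Dirichlet) -/
theorem dirichlet (e : ℕ) (θ : Fin e → ℝ) (N : ℕ) (hN : 1 ≤ N) :
    ∃ (q : ℕ) (a : Fin e → ℤ), 1 ≤ q ∧ q ≤ N ^ e ∧ ∀ j, |(q : ℝ) * θ j - a j| ≤ 1 / N := by
  classical
  have hNpos : (0 : ℝ) < N := by exact_mod_cast hN
  let f : Fin (N ^ e + 1) → (Fin e → Fin N) := fun q j =>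
    ⟨⌊(N : ℝ) * Int.fract ((q.1 : ℝ) * θ j)⌋₊, by
      rw [Nat.floor_lt (mul_nonneg hNpos.le (Int.fract_nonneg _))]
      have h1 := Int.fract_lt_one ((q.1 : ℝ) * θ j)
      calc (N : ℝ) * Int.fract ((q.1 : ℝ) * θ j) < N * 1 := by
            exact mul_lt_mul_of_pos_left h1 hNpos
        _ = N := mul_one _⟩
  obtain ⟨q1, q2, hne, heq⟩ := Fintype.exists_ne_map_eq_of_card_lt f (by simp)
  wlog h : q1 < q2 generalizing q1 q2
  · exact this q2 q1 hne.symm heq.symm (lt_of_le_of_ne (not_lt.1 h) hne.symm)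
  have h12 : q1.1 < q2.1 := h
  refine ⟨q2.1 - q1.1, fun j => ⌊(q2.1 : ℝ) * θ j⌋ - ⌊(q1.1 : ℝ) * θ j⌋, by omega, ?_, ?_⟩
  · have := q2.2
    omega
  · intro j
    have hk : ⌊(N : ℝ) * Int.fract ((q1.1 : ℝ) * θ j)⌋₊ =
        ⌊(N : ℝ) * Int.fract ((q2.1 : ℝ) * θ j)⌋₊ := congrArg Fin.val (congrFun heq j)
    have h1 := Nat.floor_le (mul_nonneg hNpos.le (Int.fract_nonneg ((q1.1 : ℝ) * θ j)))
    have h2 := Nat.lt_floor_add_one ((N : ℝ) * Int.fract ((q1.1 : ℝ) * θ j))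
    have h3 := Nat.floor_le (mul_nonneg hNpos.le (Int.fract_nonneg ((q2.1 : ℝ) * θ j)))
    have h4 := Nat.lt_floor_add_one ((N : ℝ) * Int.fract ((q2.1 : ℝ) * θ j))
    rw [hk] at h1 h2
    rw [Nat.cast_sub h12.le, Int.cast_sub]
    have h5 : ((q2.1 : ℝ) - (q1.1 : ℝ)) * θ j -
        ((⌊(q2.1 : ℝ) * θ j⌋ : ℝ) - (⌊(q1.1 : ℝ) * θ j⌋ : ℝ)) =
        Int.fract ((q2.1 : ℝ) * θ j) - Int.fract ((q1.1 : ℝ) * θ j) := by
      rw [Int.fract, Int.fract]
      ring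
    rw [h5, le_div_iff₀ hNpos, ← abs_of_pos hNpos, ← abs_mul, abs_le]
    constructor
    · nlinarith
    · nlinarith

/-- the distances to the integers are bounded below -/
theorem exists_delta (θ : ℝ) (hθ : ∀ q : ℕ, 1 ≤ q → ∀ a : ℤ, (q : ℝ) * θ ≠ a) (q0 : ℕ) :
    ∃ δ : ℝ, 0 < δ ∧ ∀ q : ℕ, 1 ≤ q → q ≤ q0 → ∀ a : ℤ, δ ≤ |(q : ℝ) * θ - a| := by
  induction q0 with
  | zero => exact ⟨1, one_pos, fun q h1 h2 => by omega⟩
  | succ q0 ih =>
    obtain ⟨δ, hδ, h⟩ := ih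
    refine ⟨min δ |((q0 + 1 : ℕ) : ℝ) * θ - round (((q0 + 1 : ℕ) : ℝ) * θ)|, ?_, ?_⟩
    · refine lt_min hδ (abs_pos.2 (sub_ne_zero.2 (hθ _ (by omega) _)))
    · intro q h1 h2 a
      rcases Nat.lt_or_ge q (q0 + 1) with h3 | h3
      · exact (min_le_left _ _).trans (h q h1 (by omega) a)
      · have h4 : q = q0 + 1 := by omega
        subst h4
        exact (min_le_right _ _).trans (round_le _ a)

theorem approx (e : ℕ) (θ : Fin e → ℝ) (j0 : Fin e)
    (hθ : ∀ q : ℕ, 1 ≤ q → ∀ a : ℤ, (q : ℝ) * θ j0 ≠ a) (q0 : ℕ) :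
    ∃ (N q : ℕ) (a : Fin e → ℤ), 1 ≤ N ∧ q0 < q ∧ q ≤ N ^ e ∧
      ∀ j, |(q : ℝ) * θ j - a j| ≤ 1 / N := by
  obtain ⟨δ, hδ, h⟩ := exists_delta (θ j0) hθ q0
  obtain ⟨N, hN⟩ := exists_nat_gt (1 / δ)
  have hN0 : (0 : ℝ) < N := lt_trans (by positivity) hN
  have hN1 : 1 ≤ N := by
    have : (0 : ℕ) < N := by exact_mod_cast hN0
    omega
  obtain ⟨q, a, hq1, hq2, ha⟩ := dirichlet e θ N hN1
  refine ⟨N, q, a, hN1, ?_, hq2, ha⟩
  by_contra hle
  have h1 := h q hq1 (not_lt.1 hle) (a j0)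
  have h2 := ha j0
  have h3 : 1 / (N : ℝ) < δ := by
    rw [div_lt_iff₀ hN0]
    rw [div_lt_iff₀ hδ] at hN
    linarith
  linarith

/-- the choice of a large index -/
theorem exists_n1 (κ C2 m0 : ℝ) (hκ : 0 < κ) (hm : 0 < m0) :
    ∃ n1 : ℕ, ∀ n : ℕ, n1 ≤ n → C2 * ((n : ℝ) ^ 2 * Real.exp (-(κ * n))) < m0 := by
  have h1 : Tendsto (fun x : ℝ => x ^ 2 * Real.exp (-x)) atTop (𝓝 0) :=
    Real.tendsto_pow_mul_exp_neg_atTop_nhds_zero 2
  have h2 : Tendsto (fun n : ℕ => κ * (n : ℝ)) atTop atTop :=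
    Tendsto.const_mul_atTop hκ tendsto_natCast_atTop_atTop
  have h3 := (h1.comp h2).const_mul (C2 / κ ^ 2)
  rw [mul_zero] at h3
  have h4 := (tendsto_order.1 h3).2 m0 hm
  obtain ⟨n1, hn1⟩ := eventually_atTop.1 h4
  refine ⟨n1, fun n hn => ?_⟩
  have h5 := hn1 n hn
  have h6 : C2 / κ ^ 2 * (((fun x : ℝ => x ^ 2 * Real.exp (-x)) ∘ fun n : ℕ => κ * (n : ℝ)) n) =
      C2 * ((n : ℝ) ^ 2 * Real.exp (-(κ * n))) := by
    simp only [Function.comp_apply]
    field_simp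
  rw [h6] at h5
  exact h5

theorem core (e : ℕ) (he : 1 ≤ e) (η : Fin (e + 1) → ℝ) (hη0 : η 0 ≠ 0) (j0 : Fin e)
    (hη1 : ∀ q : ℕ, 1 ≤ q → ∀ a : ℤ, (q : ℝ) * (η j0.succ / η 0) ≠ a)
    (P : ℕ → Fin (e + 1) → ℤ) (K α β c : ℝ) (n0 : ℕ) (hα : 0 < α) (_hβ : 0 < β) (hc : 0 < c)
    (hK : 0 < K) (h1 : ∀ n ≥ n0, ∀ j, |(P n j : ℝ)| ≤ K * Real.exp (β * n))
    (h2 : ∀ n ≥ n0, 0 < ∑ j, (P n j : ℝ) * η j)
    (h3 : ∀ n ≥ n0, ∑ j, (P n j : ℝ) * η j ≤ Real.exp (-(α * n)))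
    (h4 : ∀ n ≥ n0, 1 ≤ n → c / (n : ℝ) ^ 2 * ∑ j, (P n j : ℝ) * η j ≤
      ∑ j, (P (n + 1) j : ℝ) * η j) : α ≤ β * e := by
  classical
  by_contra hcon
  push Not at hcon
  have he0 : (0 : ℝ) < e := by exact_mod_cast he
  set L : ℕ → ℝ := fun n => ∑ j, (P n j : ℝ) * η j with hL
  have hLpos : ∀ n ≥ n0, 0 < L n := h2
  set A : ℝ := |η 0| with hA
  have hApos : 0 < A := abs_pos.2 hη0
  set κ : ℝ := α / e - β with hκ
  have hκpos : 0 < κ := by
    rw [hκ, sub_pos, lt_div_iff₀ he0]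
    exact hcon
  set a1 : ℝ := min (A / 2) 1 with ha1
  have ha1pos : 0 < a1 := lt_min (by positivity) one_pos
  have ha1pow : a1 ^ e ≤ A / 2 := by
    refine (pow_le_of_le_one ha1pos.le (min_le_right _ _) (by omega)).trans (min_le_left _ _)
  set C2 : ℝ := e * K * a1⁻¹ * Real.exp (α / e) with hC2
  have hC2pos : 0 < C2 := by positivity
  obtain ⟨n1', hn1'⟩ := exists_n1 κ C2 (min (c / 2) (1 / 2)) hκpos (lt_min (by positivity)
    (by norm_num))
  set n1 : ℕ := max n1' (n0 + 1) with hn1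
  have hn1a : n0 + 1 ≤ n1 := le_max_right _ _
  have hn1b : n1' ≤ n1 := le_max_left _ _
  obtain ⟨q0, hq0⟩ := exists_nat_ge (A / (2 * L n1))
  obtain ⟨N, q, a, hN1, hqq, hqN, happ⟩ := approx e (fun j => η j.succ / η 0) j0 hη1 q0
  have hN0 : (0 : ℝ) < N := by exact_mod_cast hN1
  have hq : (0 : ℝ) < q := by
    have : 0 < q := by omega
    exact_mod_cast this
  have hLn1 : 0 < L n1 := hLpos n1 (by omega)
  have hx1 : 1 / 2 ≤ q / A * L n1 := by
    have h5 : (q0 : ℝ) ≤ q := by exact_mod_cast hqq.le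
    have h6 : A / (2 * L n1) ≤ q := hq0.trans h5
    rw [div_le_iff₀ (by positivity)] at h6
    rw [div_mul_eq_mul_div, le_div_iff₀ hApos]
    linarith
  -- the index n
  have hex : ∃ n : ℕ, n1 ≤ n ∧ q / A * L n < 1 / 2 := by
    have h5 : Tendsto (fun n : ℕ => (q : ℝ) / A * Real.exp (-(α * n))) atTop (𝓝 0) := by
      have h6 : Tendsto (fun n : ℕ => α * (n : ℝ)) atTop atTop :=
        Tendsto.const_mul_atTop hα tendsto_natCast_atTop_atTop
      have h7 := (Real.tendsto_exp_neg_atTop_nhds_zero.comp h6).const_mul ((q : ℝ) / A)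
      rw [mul_zero] at h7
      exact h7
    obtain ⟨n2, hn2⟩ := eventually_atTop.1 ((tendsto_order.1 h5).2 (1 / 2) (by norm_num))
    refine ⟨max n1 n2, le_max_left _ _, lt_of_le_of_lt ?_ (hn2 (max n1 n2) (le_max_right _ _))⟩
    have h6 := h3 (max n1 n2) (by
      have := le_max_left n1 n2
      omega)
    exact mul_le_mul_of_nonneg_left h6 (by positivity)
  obtain ⟨hn, hxn⟩ := Nat.find_spec hex
  have hmin : ∀ k, k < Nat.find hex → ¬ (n1 ≤ k ∧ q / A * L k < 1 / 2) :=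
    fun k hk => Nat.find_min hex hk
  generalize Nat.find hex = n at hn hxn hmin
  have hne : n ≠ n1 := by
    rintro rfl
    linarith
  obtain ⟨k, rfl⟩ : ∃ k, n = k + 1 := ⟨n - 1, by omega⟩
  have hk1 : n1 ≤ k := by omega
  have hkn0 : n0 ≤ k := by omega
  have hk0 : 1 ≤ k := by omega
  have hkpos : (0 : ℝ) < k := by exact_mod_cast hk0
  have hxk : 1 / 2 ≤ q / A * L k := by
    by_contra h5
    exact hmin k (by omega) ⟨hk1, not_le.1 h5⟩
  have hcast : ((k + 1 : ℕ) : ℝ) = (k : ℝ) + 1 := by push_cast; ring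
  -- lower bound
  have hlow : c / (2 * ((k + 1 : ℕ) : ℝ) ^ 2) ≤ q / A * L (k + 1) := by
    have h5 : c / (k : ℝ) ^ 2 * L k ≤ L (k + 1) := h4 k hkn0 hk0
    have h6 : c / (k : ℝ) ^ 2 * (1 / 2) ≤ c / (k : ℝ) ^ 2 * (q / A * L k) :=
      mul_le_mul_of_nonneg_left hxk (by positivity)
    have h7 : q / A * (c / (k : ℝ) ^ 2 * L k) ≤ q / A * L (k + 1) :=
      mul_le_mul_of_nonneg_left h5 (by positivity)
    have h8 : c / (2 * ((k + 1 : ℕ) : ℝ) ^ 2) ≤ c / (k : ℝ) ^ 2 * (1 / 2) := by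
      rw [hcast, div_mul_div_comm, mul_one]
      refine div_le_div_of_nonneg_left hc.le (by positivity) ?_
      nlinarith
    have h9 : c / (k : ℝ) ^ 2 * (q / A * L k) = q / A * (c / (k : ℝ) ^ 2 * L k) := by ring
    linarith
  -- upper bound of the error
  have hN2 : 1 / (N : ℝ) ≤ a1⁻¹ * Real.exp (-(α * k / e)) := by
    have h5 : L k ≤ Real.exp (-(α * k)) := h3 k hkn0
    have h6 : 1 / 2 ≤ q / A * Real.exp (-(α * k)) :=
      hxk.trans (mul_le_mul_of_nonneg_left h5 (by positivity))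
    have h7 : A / 2 * Real.exp (α * k) ≤ q := by
      rw [Real.exp_neg, div_mul_eq_mul_div, le_div_iff₀ hApos] at h6
      have h8 : 0 < Real.exp (α * k) := Real.exp_pos _
      have h9 : (q : ℝ) * (Real.exp (α * k))⁻¹ * Real.exp (α * k) = q := by
        field_simp
      have h10 : 1 / 2 * A * Real.exp (α * k) ≤
          (q : ℝ) * (Real.exp (α * k))⁻¹ * Real.exp (α * k) :=
        mul_le_mul_of_nonneg_right h6 h8.le
      rw [h9] at h10
      linarith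
    have h8 : (a1 * Real.exp (α * k / e)) ^ e ≤ (N : ℝ) ^ e := by
      rw [mul_pow, ← Real.exp_nat_mul, mul_div_cancel₀ _ he0.ne']
      calc a1 ^ e * Real.exp (α * k) ≤ A / 2 * Real.exp (α * k) :=
            mul_le_mul_of_nonneg_right ha1pow (Real.exp_pos _).le
        _ ≤ q := h7
        _ ≤ (N : ℝ) ^ e := by exact_mod_cast hqN
    have h9 : a1 * Real.exp (α * k / e) ≤ N :=
      (pow_le_pow_iff_left₀ (by positivity) hN0.le (by omega)).1 h8
    rw [Real.exp_neg, ← mul_inv, one_div]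
    exact inv_anti₀ (by positivity) h9
  set E : ℝ := ∑ j : Fin e, (P (k + 1) j.succ : ℝ) * ((q : ℝ) * (η j.succ / η 0) - a j) with hE
  have hEle : |E| ≤ C2 * Real.exp (-(κ * ((k + 1 : ℕ) : ℝ))) := by
    have h5 : |E| ≤ ∑ j : Fin e, K * Real.exp (β * ((k + 1 : ℕ) : ℝ)) * (1 / N) := by
      refine (Finset.abs_sum_le_sum_abs _ _).trans (Finset.sum_le_sum fun j _ => ?_)
      rw [abs_mul]
      exact mul_le_mul (h1 (k + 1) (by omega) _) (happ j) (abs_nonneg _) (by positivity)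
    rw [Finset.sum_const, Finset.card_univ, Fintype.card_fin, nsmul_eq_mul] at h5
    refine h5.trans ?_
    have h6 : (e : ℝ) * (K * Real.exp (β * ((k + 1 : ℕ) : ℝ)) * (1 / N)) ≤
        e * (K * Real.exp (β * ((k + 1 : ℕ) : ℝ)) * (a1⁻¹ * Real.exp (-(α * k / e)))) := by
      refine mul_le_mul_of_nonneg_left (mul_le_mul_of_nonneg_left hN2 (by positivity)) he0.le
    refine h6.trans (le_of_eq ?_)
    have h7 : Real.exp (β * ((k + 1 : ℕ) : ℝ)) * Real.exp (-(α * k / e)) =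
        Real.exp (α / e) * Real.exp (-(κ * ((k + 1 : ℕ) : ℝ))) := by
      rw [← Real.exp_add, ← Real.exp_add]
      congr 1
      rw [hκ, hcast]
      field_simp
      ring
    rw [hC2]
    calc (e : ℝ) * (K * Real.exp (β * ((k + 1 : ℕ) : ℝ)) * (a1⁻¹ * Real.exp (-(α * k / e))))
        = e * K * a1⁻¹ * (Real.exp (β * ((k + 1 : ℕ) : ℝ)) * Real.exp (-(α * k / e))) := by ring
      _ = _ := by rw [h7]; ring
  have hbig := hn1' (k + 1) (by omega)
  have hk1pos : (1 : ℝ) ≤ ((k + 1 : ℕ) : ℝ) ^ 2 := by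
    rw [hcast]
    nlinarith
  have hE2 : ((k + 1 : ℕ) : ℝ) ^ 2 * |E| < min (c / 2) (1 / 2) := by
    refine lt_of_le_of_lt ?_ hbig
    calc ((k + 1 : ℕ) : ℝ) ^ 2 * |E| ≤ ((k + 1 : ℕ) : ℝ) ^ 2 *
        (C2 * Real.exp (-(κ * ((k + 1 : ℕ) : ℝ)))) := mul_le_mul_of_nonneg_left hEle (by positivity)
      _ = _ := by ring
  have hE3 : |E| < 1 / 2 := by
    have h5 : |E| ≤ ((k + 1 : ℕ) : ℝ) ^ 2 * |E| := le_mul_of_one_le_left (abs_nonneg _) hk1pos
    exact lt_of_le_of_lt h5 (lt_of_lt_of_le hE2 (min_le_right _ _))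
  have hE4 : |E| < q / A * L (k + 1) := by
    refine lt_of_lt_of_le ?_ hlow
    rw [lt_div_iff₀ (by positivity)]
    have := lt_of_lt_of_le hE2 (min_le_left _ _)
    linarith
  -- the integer
  have hI : ∃ I : ℤ, (I : ℝ) = q / η 0 * L (k + 1) - E := by
    refine ⟨q * P (k + 1) 0 + ∑ j : Fin e, P (k + 1) j.succ * a j, ?_⟩
    rw [hE, hL]
    simp only
    rw [Fin.sum_univ_succ, mul_add, Finset.mul_sum]
    push_cast
    have h5 : ∑ j : Fin e, (q : ℝ) / η 0 * ((P (k + 1) j.succ : ℝ) * η j.succ) =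
        ∑ j : Fin e, (P (k + 1) j.succ : ℝ) * ((q : ℝ) * (η j.succ / η 0) - a j) +
          ∑ j : Fin e, (P (k + 1) j.succ : ℝ) * (a j : ℝ) := by
      rw [← Finset.sum_add_distrib]
      refine Finset.sum_congr rfl fun j _ => ?_
      ring
    rw [h5]
    have h6 : (q : ℝ) / η 0 * ((P (k + 1) 0 : ℝ) * η 0) = q * P (k + 1) 0 := by
      field_simp
    rw [h6]
    ring
  obtain ⟨I, hI⟩ := hI
  have habs : |(q : ℝ) / η 0 * L (k + 1)| = q / A * L (k + 1) := by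
    rw [abs_mul, abs_div, abs_of_pos hq, abs_of_pos (hLpos (k + 1) (by omega))]
  have hI1 : |(I : ℝ)| < 1 := by
    rw [hI]
    refine lt_of_le_of_lt (abs_sub _ _) ?_
    rw [habs]
    linarith
  have hI0 : I = 0 := by
    have h5 : |I| < 1 := by exact_mod_cast hI1
    exact Int.abs_lt_one_iff.1 h5
  rw [hI0, Int.cast_zero] at hI
  have h5 : (q : ℝ) / η 0 * L (k + 1) = E := by linarith
  rw [h5] at habs
  linarith

/-- common denominator -/
theorem common_den {m d : ℕ} (Q : Fin m → Fin d → ℚ) :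
    ∃ M : ℕ, 0 < M ∧ ∀ i j, ∃ c : ℤ, (M : ℚ) * Q i j = c := by
  refine ⟨∏ i, ∏ j, (Q i j).den,
    Finset.prod_pos fun i _ => Finset.prod_pos fun j _ => (Q i j).den_pos, fun i j => ?_⟩
  have h1 : (Q i j).den ∣ ∏ i, ∏ j, (Q i j).den :=
    (Finset.dvd_prod_of_mem (fun j => (Q i j).den) (Finset.mem_univ j)).trans
      (Finset.dvd_prod_of_mem (fun i => ∏ j, (Q i j).den) (Finset.mem_univ i))
  obtain ⟨t, ht⟩ := h1
  refine ⟨t * (Q i j).num, ?_⟩
  rw [ht]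
  push_cast
  have h2 : Q i j * (Q i j).den = (Q i j).num := Rat.mul_den_eq_num _
  linear_combination (t : ℚ) * h2

theorem exists_eta (m : ℕ) (ξ : Fin m → ℝ) (d : ℕ)
    (hd : Module.finrank ℚ (Submodule.span ℚ (Set.range ξ)) = d) :
    ∃ (η : Fin d → ℝ) (C : Fin m → Fin d → ℤ), LinearIndependent ℚ η ∧
      ∀ i, ξ i = ∑ j, (C i j : ℝ) * η j := by
  have hfin : Module.Finite ℚ (Submodule.span ℚ (Set.range ξ)) :=
    Module.Finite.span_of_finite ℚ (Set.finite_range ξ)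
  let b := Module.finBasisOfFinrankEq ℚ (Submodule.span ℚ (Set.range ξ)) hd
  let x : Fin m → Submodule.span ℚ (Set.range ξ) := fun i =>
    ⟨ξ i, Submodule.subset_span (Set.mem_range_self i)⟩
  obtain ⟨M, hM, hC⟩ := common_den (fun i j => b.repr (x i) j)
  choose C hC using hC
  have hM0 : (M : ℝ) ≠ 0 := by exact_mod_cast hM.ne'
  refine ⟨fun j => LinearMap.mulLeft ℚ ((M : ℝ)⁻¹) ((b j : Submodule.span ℚ (Set.range ξ)) : ℝ),
    C, ?_, ?_⟩
  · have h1 : LinearIndependent ℚ (fun j => ((b j : Submodule.span ℚ (Set.range ξ)) : ℝ)) :=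
      b.linearIndependent.map' (Submodule.subtype _) (Submodule.ker_subtype _)
    refine h1.map' (LinearMap.mulLeft ℚ ((M : ℝ)⁻¹)) ?_
    rw [LinearMap.ker_eq_bot']
    intro y hy
    rw [LinearMap.mulLeft_apply] at hy
    rcases mul_eq_zero.1 hy with h | h
    · exact absurd h (inv_ne_zero hM0)
    · exact h
  · intro i
    have h1 : ξ i = ∑ j, ((b.repr (x i) j : ℚ) : ℝ) * ((b j : Submodule.span ℚ (Set.range ξ)) : ℝ) := by
      have h2 : (x i : ℝ) = ((∑ j, b.repr (x i) j • b j : Submodule.span ℚ (Set.range ξ)) : ℝ) := by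
        rw [b.sum_repr]
      rw [Submodule.coe_sum] at h2
      have h3 : ξ i = (x i : ℝ) := rfl
      rw [h3, h2]
      refine Finset.sum_congr rfl fun j _ => ?_
      rw [Submodule.coe_smul, Rat.smul_def]
    rw [h1]
    refine Finset.sum_congr rfl fun j _ => ?_
    have h4 : ((C i j : ℤ) : ℝ) = (M : ℝ) * ((b.repr (x i) j : ℚ) : ℝ) := by
      have h5 := hC i j
      have h6 : (((M : ℚ) * b.repr (x i) j : ℚ) : ℝ) = ((C i j : ℚ) : ℝ) := by rw [h5]
      push_cast at h6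
      exact h6.symm
    simp only [LinearMap.mulLeft_apply]
    rw [h4]
    field_simp

end NC

/-- NC: the linear independence criterion of Nesterenko. -/
theorem t_nc : S_NC := by
  intro m ξ p α β c n0 hα hβ hc h1 h2 h3 h4
  obtain ⟨d, hd⟩ : ∃ d, Module.finrank ℚ (Submodule.span ℚ (Set.range ξ)) = d := ⟨_, rfl⟩
  rw [hd]
  obtain ⟨η, C, hη, hξ⟩ := NC.exists_eta m ξ d hd
  set P : ℕ → Fin d → ℤ := fun n j => ∑ i, p n i * C i j with hP
  have hL : ∀ n, ∑ i, (p n i : ℝ) * ξ i = ∑ j, (P n j : ℝ) * η j := by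
    intro n
    have e1 : ∑ i, (p n i : ℝ) * ξ i = ∑ i, ∑ j, (p n i : ℝ) * ((C i j : ℝ) * η j) := by
      refine Finset.sum_congr rfl fun i _ => ?_
      rw [hξ i, Finset.mul_sum]
    rw [e1, Finset.sum_comm]
    refine Finset.sum_congr rfl fun j _ => ?_
    rw [hP]
    push_cast
    rw [Finset.sum_mul]
    refine Finset.sum_congr rfl fun i _ => ?_
    ring
  simp only [hL] at h2 h3 h4
  set K : ℝ := 1 + ∑ i, ∑ j, |(C i j : ℝ)| with hK
  have hKpos : 0 < K := by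
    have : 0 ≤ ∑ i, ∑ j, |(C i j : ℝ)| :=
      Finset.sum_nonneg fun i _ => Finset.sum_nonneg fun j _ => abs_nonneg _
    linarith
  have hPb : ∀ n ≥ n0, ∀ j, |(P n j : ℝ)| ≤ K * Real.exp (β * n) := by
    intro n hn j
    rw [hP]
    push_cast
    have e1 : |∑ i, (p n i : ℝ) * (C i j : ℝ)| ≤ ∑ i, |(C i j : ℝ)| * Real.exp (β * n) := by
      refine (Finset.abs_sum_le_sum_abs _ _).trans (Finset.sum_le_sum fun i _ => ?_)
      rw [abs_mul, mul_comm]
      exact mul_le_mul_of_nonneg_left (h1 n hn i) (abs_nonneg _)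
    refine e1.trans ?_
    rw [← Finset.sum_mul]
    refine mul_le_mul_of_nonneg_right ?_ (Real.exp_pos _).le
    have e2 : ∑ i, |(C i j : ℝ)| ≤ ∑ i, ∑ j, |(C i j : ℝ)| :=
      Finset.sum_le_sum fun i _ => Finset.single_le_sum (f := fun j => |(C i j : ℝ)|)
        (fun _ _ => abs_nonneg _) (Finset.mem_univ j)
    linarith
  clear_value P K
  match d, hd, η, C, hη, hξ, P, hP, hL, h2, h3, h4, hK, hPb with
  | 0, _, η, _, _, _, P, _, _, h2, _, _, _, _ =>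
    have := h2 n0 le_rfl
    rw [Fin.sum_univ_zero] at this
    exact absurd this (lt_irrefl _)
  | 1, _, η, _, hη, _, P, _, _, h2, h3, _, _, _ =>
    exfalso
    have hη0 : 0 < |η 0| := abs_pos.2 (hη.ne_zero 0)
    have h6 : Tendsto (fun n : ℕ => α * (n : ℝ)) atTop atTop :=
      Tendsto.const_mul_atTop hα tendsto_natCast_atTop_atTop
    have h7 : Tendsto (fun n : ℕ => Real.exp (-(α * (n : ℝ)))) atTop (𝓝 0) :=
      Real.tendsto_exp_neg_atTop_nhds_zero.comp h6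
    obtain ⟨n2, hn2⟩ := eventually_atTop.1 ((tendsto_order.1 h7).2 _ hη0)
    have e1 := h2 (max n0 n2) (le_max_left _ _)
    have e2 := h3 (max n0 n2) (le_max_left _ _)
    have e3 := hn2 (max n0 n2) (le_max_right _ _)
    rw [Fin.sum_univ_one] at e1 e2
    have e4 : P (max n0 n2) 0 ≠ 0 := by
      intro h
      rw [h, Int.cast_zero, zero_mul] at e1
      exact lt_irrefl _ e1
    have e5 : (1 : ℝ) ≤ |(P (max n0 n2) 0 : ℝ)| := by
      have := Int.one_le_abs e4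
      exact_mod_cast this
    have e6 : |η 0| ≤ |(P (max n0 n2) 0 : ℝ) * η 0| := by
      rw [abs_mul]
      exact le_mul_of_one_le_left hη0.le e5
    rw [abs_of_pos e1] at e6
    linarith
  | e + 2, _, η, _, hη, _, P, _, _, h2, h3, h4, _, hPb =>
    have hη0 : η 0 ≠ 0 := hη.ne_zero 0
    have hirr : ∀ q : ℕ, 1 ≤ q → ∀ a : ℤ, (q : ℝ) * (η (0 : Fin (e + 1)).succ / η 0) ≠ a := by
      intro q hq a h
      have e1 : (q : ℝ) * η (0 : Fin (e + 1)).succ = a * η 0 := by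
        rw [mul_div_assoc', div_eq_iff hη0] at h
        exact h
      have e2 := Fintype.linearIndependent_iff.1 hη
        (Fin.cons (-(a : ℚ)) (Fin.cons (q : ℚ) (fun _ => 0))) (by
          rw [Fin.sum_univ_succ, Fin.sum_univ_succ]
          simp only [Fin.cons_zero, Fin.cons_succ, zero_smul, Finset.sum_const_zero, add_zero,
            Rat.smul_def]
          push_cast
          linarith) (0 : Fin (e + 1)).succ
      rw [Fin.cons_succ, Fin.cons_zero] at e2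
      have : q = 0 := by exact_mod_cast e2
      omega
    have := NC.core (e + 1) (by omega) η hη0 0 hirr P K α β c n0 hα hβ hc hKpos hPb h2 h3 h4
    push_cast at this ⊢
    linarith

end Pool.Agent.W245.BR
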